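import Mathlib

/-!
A graph without isolated points has a dominating set with at most half of the points.
-/

namespace Pool.Agent.Lib.MP_44a246_ntFG

/-- **Centres**, at most half of the points. -/
theorem exists_centres {α : Type*} (J : Finset α) (R : α → α → Prop)
    (hs : ∀ i j, R i j → R j i) (hp : ∀ j ∈ J, ∃ i ∈ J, i ≠ j ∧ R i j) :
    ∃ (I : Finset α) (s : α → α), 2 * I.card ≤ J.card ∧ I ⊆ J ∧
      ∀ j ∈ J, s j ∈ I ∧ (s j = j ∨ R (s j) j) := by
  classical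
  obtain ⟨P, hP⟩ : ∃ P : Finset α → Prop, P = fun D => ∀ j ∈ J, j ∈ D ∨ ∃ i ∈ D, R i j :=
    ⟨_, rfl⟩
  obtain ⟨T, hT⟩ : ∃ T : Finset (Finset α), T = J.powerset.filter P := ⟨_, rfl⟩
  have hmem : ∀ D, D ∈ T ↔ D ⊆ J ∧ ∀ j ∈ J, j ∈ D ∨ ∃ i ∈ D, R i j := by
    intro D
    rw [hT, Finset.mem_filter, Finset.mem_powerset, hP]
  have h0 : T.Nonempty := ⟨J, (hmem _).2 ⟨Finset.Subset.refl _, fun j hj => Or.inl hj⟩⟩
  obtain ⟨D, hD, hmin⟩ := T.exists_min_image (fun D => D.card) h0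
  obtain ⟨hDJ, hDd⟩ := (hmem D).1 hD
  have hcompl : J \ D ∈ T := by
    refine (hmem _).2 ⟨Finset.sdiff_subset, fun j hj => ?_⟩
    by_cases hjD : j ∈ D
    · right
      by_contra hcon
      push Not at hcon
      have h1 : ∀ i ∈ J, R i j → i ∈ D := by
        intro i hi hR
        by_contra h2
        exact hcon i (Finset.mem_sdiff.2 ⟨hi, h2⟩) hR
      have h2 : D.erase j ∈ T := by
        refine (hmem _).2 ⟨(Finset.erase_subset _ _).trans hDJ, fun l hl => ?_⟩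
        by_cases hlj : l = j
        · subst hlj
          obtain ⟨i, hi, hil, hR⟩ := hp l hl
          exact Or.inr ⟨i, Finset.mem_erase.2 ⟨hil, h1 i hi hR⟩, hR⟩
        · rcases hDd l hl with h3 | ⟨i, hi, hR⟩
          · exact Or.inl (Finset.mem_erase.2 ⟨hlj, h3⟩)
          · by_cases hij : i = j
            · subst hij
              exact Or.inl (Finset.mem_erase.2 ⟨hlj, h1 l hl (hs _ _ hR)⟩)
            · exact Or.inr ⟨i, Finset.mem_erase.2 ⟨hij, hi⟩, hR⟩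
      have h3 := hmin _ h2
      rw [Finset.card_erase_of_mem hjD] at h3
      have h4 : 0 < D.card := Finset.card_pos.2 ⟨j, hjD⟩
      omega
    · exact Or.inl (Finset.mem_sdiff.2 ⟨hj, hjD⟩)
  have hcard : (J \ D).card + D.card = J.card := Finset.card_sdiff_add_card_eq_card hDJ
  obtain ⟨I, hI, hIc⟩ : ∃ I ∈ T, 2 * I.card ≤ J.card := by
    by_cases h1 : 2 * D.card ≤ J.card
    · exact ⟨D, hD, h1⟩
    · exact ⟨J \ D, hcompl, by omega⟩
  obtain ⟨hIJ, hId⟩ := (hmem I).1 hI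
  have hex : ∀ j, ∃ i, j ∈ J → i ∈ I ∧ (i = j ∨ R i j) := by
    intro j
    by_cases hj : j ∈ J
    · rcases hId j hj with h1 | ⟨i, hi, hR⟩
      · exact ⟨j, fun _ => ⟨h1, Or.inl rfl⟩⟩
      · exact ⟨i, fun _ => ⟨hi, Or.inr hR⟩⟩
    · exact ⟨j, fun h => absurd h hj⟩
  choose s hs' using hex
  exact ⟨I, s, hIc, hIJ, hs'⟩

end Pool.Agent.Lib.MP_44a246_ntFG
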