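import Mathlib
import Pool.Agent.Lib.MP_e52354_ntFC.FC1

/-!
General linear forms: if the values of `q` general linear forms at a point fall into few classes of
proportional values, then the point is determined by the factors, as the only solution of a system
of linear equations.
-/

namespace Pool.Agent.Lib.MP_44a246_ntFG

open Pool.Agent.Lib.MP_e52354_ntFC (exists_elim_ind IndOver)
open MvPolynomial

universe u v

/-- the data: the coordinates of the point and of a second solution, and the quotients of the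
values at the centres -/
abbrev Dat (q r : ℕ) (l₀ i₁ : Fin (r + 1)) (I : Finset (Fin q)) : Type :=
  {l : Fin (r + 1) // l ≠ l₀} ⊕ ({l : Fin (r + 1) // l ≠ l₀ ∧ l ≠ i₁} ⊕ {i : Fin q // i ∈ I})

theorem card_dat (q r : ℕ) {l₀ i₁ : Fin (r + 1)} (h : i₁ ≠ l₀) (I : Finset (Fin q)) :
    Fintype.card (Dat q r l₀ i₁ I) + 1 = 2 * r + I.card := by
  classical
  rw [Fintype.card_sum, Fintype.card_sum, Fintype.card_coe, Fintype.card_subtype_compl,
    Fintype.card_fin, Fintype.card_subtype_eq, Fintype.card_subtype]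
  have h1 : (Finset.univ.filter fun l : Fin (r + 1) => l ≠ l₀ ∧ l ≠ i₁) =
      (Finset.univ.erase l₀).erase i₁ := by
    ext l
    simp [and_comm]
  rw [h1, Finset.card_erase_of_mem, Finset.card_erase_of_mem (Finset.mem_univ _),
    Finset.card_univ, Fintype.card_fin]
  · have hr : 1 ≤ r := by
      by_contra hr
      have h1 := i₁.2
      have h2 := l₀.2
      exact h (Fin.ext (by omega))
    omega
  · rw [Finset.mem_erase]
    exact ⟨h, Finset.mem_univ _⟩

variable {q r : ℕ} {l₀ i₁ : Fin (r + 1)} {I : Finset (Fin q)}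

open Classical in
/-- the coordinates of the point -/
noncomputable def dy (l₀ i₁ : Fin (r + 1)) (I : Finset (Fin q)) {E : Type u} [Field E]
    (v : Dat q r l₀ i₁ I → E) (m : Fin (r + 1)) : E :=
  if h : m = l₀ then 1 else v (Sum.inl ⟨m, h⟩)

open Classical in
/-- the coordinates of the second solution -/
noncomputable def dy' (l₀ i₁ : Fin (r + 1)) (I : Finset (Fin q)) {E : Type u} [Field E]
    (v : Dat q r l₀ i₁ I → E) (m : Fin (r + 1)) : E :=
  if h : m ≠ l₀ ∧ m ≠ i₁ then v (Sum.inr (Sum.inl ⟨m, h⟩)) else if m = i₁ then 1 else 0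

open Classical in
/-- the quotients at the centres -/
noncomputable def dt (l₀ i₁ : Fin (r + 1)) (I : Finset (Fin q)) {E : Type u} [Field E]
    (v : Dat q r l₀ i₁ I → E) (i : Fin q) : E :=
  if h : i ∈ I then v (Sum.inr (Sum.inr ⟨i, h⟩)) else 0

open Classical in
/-- the equations -/
noncomputable def eqn (l₀ i₁ : Fin (r + 1)) (I : Finset (Fin q)) (s : Fin q → Fin q)
    (Z : Finset (Fin q)) (j : Fin q) : MvPolynomial (Fin (r + 1) ⊕ Dat q r l₀ i₁ I) ℚ :=
  let y : Fin (r + 1) → MvPolynomial (Fin (r + 1) ⊕ Dat q r l₀ i₁ I) ℚ :=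
    fun m => if h : m = l₀ then 1 else X (Sum.inr (Sum.inl ⟨m, h⟩))
  let y' : Fin (r + 1) → MvPolynomial (Fin (r + 1) ⊕ Dat q r l₀ i₁ I) ℚ :=
    fun m => if h : m ≠ l₀ ∧ m ≠ i₁ then X (Sum.inr (Sum.inr (Sum.inl ⟨m, h⟩)))
      else if m = i₁ then 1 else 0
  let t : Fin q → MvPolynomial (Fin (r + 1) ⊕ Dat q r l₀ i₁ I) ℚ :=
    fun i => if h : i ∈ I then X (Sum.inr (Sum.inr (Sum.inr ⟨i, h⟩))) else 0
  if j ∈ Z then ∑ m, X (Sum.inl m) * y m else ∑ m, X (Sum.inl m) * (y' m - t (s j) * y m)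

theorem aeval_eqn {E : Type u} [Field E] [CharZero E] (s : Fin q → Fin q) (Z : Finset (Fin q))
    (j : Fin q) (x : Fin (r + 1) → E) (v : Dat q r l₀ i₁ I → E) :
    aeval (Sum.elim x v) (eqn l₀ i₁ I s Z j) =
      if j ∈ Z then ∑ m, x m * dy l₀ i₁ I v m
      else ∑ m, x m * (dy' l₀ i₁ I v m - dt l₀ i₁ I v (s j) * dy l₀ i₁ I v m) := by
  classical
  unfold eqn
  have h1 : ∀ m : Fin (r + 1), aeval (Sum.elim x v) ((if h : m = l₀ then 1 else
      X (Sum.inr (Sum.inl ⟨m, h⟩))) : MvPolynomial (Fin (r + 1) ⊕ Dat q r l₀ i₁ I) ℚ) =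
      dy l₀ i₁ I v m := by
    intro m
    unfold dy
    split_ifs with h
    · exact map_one _
    · rw [aeval_X]
      rfl
  have h2 : ∀ m : Fin (r + 1), aeval (Sum.elim x v) ((if h : m ≠ l₀ ∧ m ≠ i₁ then
      X (Sum.inr (Sum.inr (Sum.inl ⟨m, h⟩))) else if m = i₁ then 1 else 0) :
        MvPolynomial (Fin (r + 1) ⊕ Dat q r l₀ i₁ I) ℚ) = dy' l₀ i₁ I v m := by
    intro m
    unfold dy'
    by_cases h : m ≠ l₀ ∧ m ≠ i₁
    · rw [dif_pos h, dif_pos h, aeval_X]
      rfl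
    · rw [dif_neg h, dif_neg h]
      split_ifs with h'
      · exact map_one _
      · exact map_zero _
  have h3 : ∀ i : Fin q, aeval (Sum.elim x v) ((if h : i ∈ I then
      X (Sum.inr (Sum.inr (Sum.inr ⟨i, h⟩))) else 0) :
        MvPolynomial (Fin (r + 1) ⊕ Dat q r l₀ i₁ I) ℚ) = dt l₀ i₁ I v i := by
    intro i
    unfold dt
    split_ifs with h
    · rw [aeval_X]
      rfl
    · exact map_zero _
  split_ifs with hj
  · rw [map_sum]
    refine Finset.sum_congr rfl fun m _ => ?_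
    rw [map_mul, aeval_X, h1]
    rfl
  · rw [map_sum]
    refine Finset.sum_congr rfl fun m _ => ?_
    rw [map_mul, map_sub, map_mul, aeval_X, h1, h2, h3]
    rfl

theorem eqn_ne {E : Type u} [Field E] [CharZero E] (h : i₁ ≠ l₀) (s : Fin q → Fin q)
    (Z : Finset (Fin q)) (v : Dat q r l₀ i₁ I → E) (j : Fin q) :
    ∃ x : Fin (r + 1) → E, aeval (Sum.elim x v) (eqn l₀ i₁ I s Z j) ≠ 0 := by
  classical
  by_contra hcon
  push Not at hcon
  have h1 : ∀ m, (if j ∈ Z then dy l₀ i₁ I v m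
      else dy' l₀ i₁ I v m - dt l₀ i₁ I v (s j) * dy l₀ i₁ I v m) = 0 := by
    intro m
    have h2 := hcon (Pi.single m 1)
    rw [aeval_eqn] at h2
    have h3 : ∀ g : Fin (r + 1) → E, ∑ m', (Pi.single m 1 : Fin (r + 1) → E) m' * g m' = g m := by
      intro g
      rw [Finset.sum_eq_single m]
      · rw [Pi.single_eq_same, one_mul]
      · intro m' _ hm'
        rw [Pi.single_eq_of_ne hm', zero_mul]
      · intro hm'
        exact absurd (Finset.mem_univ _) hm'
    rw [h3, h3] at h2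
    exact h2
  have hyl : dy l₀ i₁ I v l₀ = 1 := by
    unfold dy
    rw [dif_pos rfl]
  have hyl' : dy' l₀ i₁ I v l₀ = 0 := by
    unfold dy'
    rw [dif_neg (fun h' => h'.1 rfl), if_neg (Ne.symm h)]
  have hyi' : dy' l₀ i₁ I v i₁ = 1 := by
    unfold dy'
    rw [dif_neg (fun h' => h'.2 rfl), if_pos rfl]
  by_cases hj : j ∈ Z
  · have h2 := h1 l₀
    rw [if_pos hj, hyl] at h2
    exact one_ne_zero h2
  · have h2 := h1 l₀
    have h3 := h1 i₁
    rw [if_neg hj, hyl, hyl', mul_one, zero_sub, neg_eq_zero] at h2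
    rw [if_neg hj, hyi', h2, zero_mul, sub_zero] at h3
    exact one_ne_zero h3

/-- independent elements are not one -/
theorem indOver_ne_one {τ τ' E : Type*} [Field E] [CharZero E] {A : τ → E} {y : τ' → E}
    (h : IndOver A y) (i : τ') : y i ≠ 1 := by
  classical
  intro hi
  have h1 := h (X i - 1) (by
    rw [eval₂_sub, eval₂_X, eval₂_one, hi, sub_self])
  rw [map_sub, map_X, map_one] at h1
  have h2 := congrArg (fun P => aeval (fun _ : τ' => (0 : E)) P) h1
  simp only [map_sub, aeval_X, map_one, map_zero, zero_sub, neg_eq_zero] at h2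
  exact one_ne_zero h2

/-- independent elements are different -/
theorem indOver_injective {τ τ' E : Type*} [Field E] [CharZero E] {A : τ → E} {y : τ' → E}
    (h : IndOver A y) : Function.Injective y := by
  classical
  intro a b hab
  by_contra hne
  have h1 := h (X a - X b) (by
    rw [eval₂_sub, eval₂_X, eval₂_X, hab, sub_self])
  rw [map_sub, map_X, map_X] at h1
  have h2 := congrArg (fun P => aeval (Pi.single a 1 : τ' → E) P) h1
  simp only [map_sub, aeval_X, map_zero, Pi.single_eq_same, Pi.single_eq_of_ne (Ne.symm hne),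
    sub_zero] at h2
  exact one_ne_zero h2

/-- **General linear forms**, one type of data. -/
theorem exists_general_one {t : ℕ} (h : i₁ ≠ l₀) (s : Fin q → Fin q) (Z : Finset (Fin q))
    (ht : 2 * r + I.card ≤ t + q) : ∃ Φ : MvPolynomial (Fin q × Fin (r + 1)) ℚ, Φ ≠ 0 ∧
    ∀ {E : Type u} [Field E] [CharZero E] (A : Fin q → Fin (r + 1) → E),
      aeval (fun p : Fin q × Fin (r + 1) => A p.1 p.2) Φ ≠ 0 →
      ∀ (y y' : Fin (r + 1) → E), y l₀ = 1 → y' l₀ = 0 → y' i₁ = 1 → ∀ τ : Fin q → E,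
        (∀ j ∈ Z, ∑ l, A j l * y l = 0) → (∀ j ∉ Z, s j ∈ I) →
        (∀ j ∉ Z, ∑ l, A j l * (y' l - τ (s j) * y l) = 0) →
        ∀ (J : Fin t → Fin (r + 1)),
          ¬ IndOver (fun p : Fin q × Fin (r + 1) => A p.1 p.2) (fun i => y (J i)) := by
  classical
  obtain ⟨Φ, hΦ0, hΦ⟩ := exists_elim_ind.{u} (σ := Dat q r l₀ i₁ I) (q := q) (m := t)
    (eqn l₀ i₁ I s Z) (fun E _ _ v j => eqn_ne h s Z v j) (by
      have h1 := card_dat q r h I
      omega)
  refine ⟨Φ, hΦ0, ?_⟩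
  intro E _ _ A hA y y' hy hy' hy1 τ hZ hs hZ' J hJ
  obtain ⟨v, hv⟩ : ∃ v : Dat q r l₀ i₁ I → E, v = Sum.elim (fun l => y l.1)
    (Sum.elim (fun l => y' l.1) fun i => τ i.1) := ⟨_, rfl⟩
  have h1 : ∀ m, dy l₀ i₁ I v m = y m := by
    intro m
    unfold dy
    split_ifs with hm
    · rw [hm, hy]
    · rw [hv]
      rfl
  have h2 : ∀ m, dy' l₀ i₁ I v m = y' m := by
    intro m
    unfold dy'
    split_ifs with hm hm'
    · rw [hv]
      rfl
    · rw [hm', hy1]
    · have h3 : m = l₀ := by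
        by_contra h4
        exact hm ⟨h4, hm'⟩
      rw [h3, hy']
  have h3 : ∀ i ∈ I, dt l₀ i₁ I v i = τ i := by
    intro i hi
    unfold dt
    rw [dif_pos hi, hv]
    rfl
  have hJl : ∀ i, J i ≠ l₀ := by
    intro i hi
    refine indOver_ne_one hJ i ?_
    rw [hi, hy]
  refine hΦ A v (fun j => ?_) hA (fun i => Sum.inl ⟨J i, hJl i⟩) ?_
  · rw [aeval_eqn]
    split_ifs with hj
    · rw [← hZ j hj]
      exact Finset.sum_congr rfl fun m _ => by rw [h1]
    · rw [← hZ' j hj]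
      exact Finset.sum_congr rfl fun m _ => by rw [h1, h2, h3 _ (hs j hj)]
  · have h4 : (fun i => v (Sum.inl ⟨J i, hJl i⟩)) = fun i => y (J i) := by
      rw [hv]
      rfl
    rw [h4]
    exact hJ

/-- **General linear forms.** -/
theorem exists_general (q r : ℕ) : ∃ Φ : MvPolynomial (Fin q × Fin (r + 1)) ℚ, Φ ≠ 0 ∧
    ∀ {E : Type u} [Field E] [CharZero E] (A : Fin q → Fin (r + 1) → E),
      aeval (fun p : Fin q × Fin (r + 1) => A p.1 p.2) Φ ≠ 0 →
      ∀ (y : Fin (r + 1) → E) (l₀ : Fin (r + 1)), y l₀ = 1 → ∀ (I : Finset (Fin q))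
        (s : Fin q → Fin q) (b : Fin q → E),
        (∀ j, ∑ l, A j l * y l ≠ 0 → s j ∈ I ∧
          ∑ l, A j l * y l = b j * ∑ l, A (s j) l * y l) →
        ∀ {t : ℕ} (J : Fin t → Fin (r + 1)),
        IndOver (fun p : Fin q × Fin (r + 1) => A p.1 p.2) (fun i => y (J i)) →
        2 * r + I.card ≤ t + q → ∀ y' : Fin (r + 1) → E,
        (∀ j, ∑ l, A j l * y l ≠ 0 → ∑ l, A j l * y' l = b j * ∑ l, A (s j) l * y' l) →
        (∀ j, ∑ l, A j l * y l = 0 → ∑ l, A j l * y' l = 0) →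
        ∃ c : E, y' = c • y := by
  classical
  have hex : ∀ τ : (Fin (r + 1) × Fin (r + 1)) × Finset (Fin q) × (Fin q → Fin q) ×
      Finset (Fin q) × Fin (r + 1), ∃ Φ : MvPolynomial (Fin q × Fin (r + 1)) ℚ, Φ ≠ 0 ∧
      (τ.1.2 ≠ τ.1.1 → 2 * r + τ.2.1.card ≤ τ.2.2.2.2 + q →
      ∀ {E : Type u} [Field E] [CharZero E] (A : Fin q → Fin (r + 1) → E),
      aeval (fun p : Fin q × Fin (r + 1) => A p.1 p.2) Φ ≠ 0 →
      ∀ (y y' : Fin (r + 1) → E), y τ.1.1 = 1 → y' τ.1.1 = 0 → y' τ.1.2 = 1 → ∀ g : Fin q → E,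
        (∀ j ∈ τ.2.2.2.1, ∑ l, A j l * y l = 0) →
        (∀ j ∉ τ.2.2.2.1, τ.2.2.1 j ∈ τ.2.1) →
        (∀ j ∉ τ.2.2.2.1, ∑ l, A j l * (y' l - g (τ.2.2.1 j) * y l) = 0) →
        ∀ (J : Fin τ.2.2.2.2 → Fin (r + 1)),
          ¬ IndOver (fun p : Fin q × Fin (r + 1) => A p.1 p.2) (fun i => y (J i))) := by
    intro τ
    by_cases h1 : τ.1.2 ≠ τ.1.1
    · by_cases h2 : 2 * r + τ.2.1.card ≤ τ.2.2.2.2 + q
      · obtain ⟨Φ, hΦ0, hΦ⟩ := exists_general_one.{u} h1 τ.2.2.1 τ.2.2.2.1 h2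
        exact ⟨Φ, hΦ0, fun _ _ => hΦ⟩
      · exact ⟨1, one_ne_zero, fun _ h => absurd h h2⟩
    · exact ⟨1, one_ne_zero, fun h => absurd h h1⟩
  choose Φ hΦ0 hΦ using hex
  refine ⟨∏ τ, Φ τ, Finset.prod_ne_zero_iff.2 fun τ _ => hΦ0 τ, ?_⟩
  intro E _ _ A hA y l₀ hy I s b hI t J hJ ht y' hy'1 hy'2
  rw [map_prod, Finset.prod_ne_zero_iff] at hA
  by_contra hcon
  push Not at hcon
  -- a second solution
  obtain ⟨y₁, hy₁⟩ : ∃ y₁ : Fin (r + 1) → E, y₁ = fun l => y' l - y' l₀ * y l := ⟨_, rfl⟩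
  obtain ⟨i₁, hi₁⟩ : ∃ i₁, y₁ i₁ ≠ 0 := by
    by_contra h0
    push Not at h0
    refine hcon (y' l₀) (funext fun l => ?_)
    have h1 := h0 l
    rw [hy₁] at h1
    exact sub_eq_zero.1 h1
  have hl₀ : y₁ l₀ = 0 := by
    rw [hy₁]
    simp only
    rw [hy, mul_one, sub_self]
  have hne : i₁ ≠ l₀ := by
    rintro rfl
    exact hi₁ hl₀
  obtain ⟨y₂, hy₂⟩ : ∃ y₂ : Fin (r + 1) → E, y₂ = fun l => (y₁ i₁)⁻¹ * y₁ l := ⟨_, rfl⟩
  have hlin : ∀ c : Fin (r + 1) → E, ∑ l, c l * y₂ l =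
      (y₁ i₁)⁻¹ * (∑ l, c l * y' l - y' l₀ * ∑ l, c l * y l) := by
    intro c
    have h1 : ∑ l, c l * y' l - y' l₀ * ∑ l, c l * y l = ∑ l, c l * y₁ l := by
      rw [hy₁, Finset.mul_sum, ← Finset.sum_sub_distrib]
      refine Finset.sum_congr rfl fun l _ => ?_
      ring
    rw [h1, hy₂, Finset.mul_sum]
    refine Finset.sum_congr rfl fun l _ => ?_
    ring
  obtain ⟨Z, hZ⟩ : ∃ Z : Finset (Fin q), Z = Finset.univ.filter fun j =>
    ∑ l, A j l * y l = 0 := ⟨_, rfl⟩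
  have hZm : ∀ j, j ∈ Z ↔ ∑ l, A j l * y l = 0 := by
    intro j
    rw [hZ, Finset.mem_filter]
    simp
  obtain ⟨g, hg⟩ : ∃ g : Fin q → E, g = fun i => (∑ l, A i l * y₂ l) /
    ∑ l, A i l * y l := ⟨_, rfl⟩
  have hJl : ∀ i, J i ≠ l₀ := by
    intro i hi
    refine indOver_ne_one hJ i ?_
    rw [hi, hy]
  have htr : t < r + 1 := by
    have h1 : Function.Injective J := by
      intro a b hab
      exact indOver_injective hJ (show y (J a) = y (J b) by rw [hab])
    have h2 : (Finset.univ.image J) ⊆ Finset.univ.erase l₀ := by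
      intro i hi
      obtain ⟨a, -, rfl⟩ := Finset.mem_image.1 hi
      exact Finset.mem_erase.2 ⟨hJl a, Finset.mem_univ _⟩
    have h3 := Finset.card_le_card h2
    rw [Finset.card_image_of_injective _ h1, Finset.card_erase_of_mem (Finset.mem_univ _),
      Finset.card_univ, Finset.card_univ, Fintype.card_fin, Fintype.card_fin] at h3
    omega
  refine hΦ ((l₀, i₁), I, s, Z, ⟨t, htr⟩) hne ht A (hA _ (Finset.mem_univ _)) y y₂ hy ?_ ?_ g
    (fun j hj => (hZm j).1 hj) (fun j hj => (hI j fun h0 => hj ((hZm j).2 h0)).1) ?_ J hJ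
  · rw [hy₂]
    simp only
    rw [hl₀, mul_zero]
  · rw [hy₂]
    simp only
    rw [inv_mul_cancel₀ hi₁]
  · intro j hj
    have h0 : ∑ l, A j l * y l ≠ 0 := fun h0 => hj ((hZm j).2 h0)
    obtain ⟨h1, h2⟩ := hI j h0
    have h3 := hy'1 j h0
    have h4 : ∑ l, A (s j) l * y l ≠ 0 := by
      intro h5
      rw [h5, mul_zero] at h2
      exact h0 h2
    have h5 : ∑ l, A j l * y₂ l = b j * ∑ l, A (s j) l * y₂ l := by
      rw [hlin, hlin, h3, h2]
      ring
    have h6 : ∑ l, A j l * (y₂ l - g (s j) * y l) =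
        ∑ l, A j l * y₂ l - g (s j) * ∑ l, A j l * y l := by
      rw [Finset.mul_sum, ← Finset.sum_sub_distrib]
      refine Finset.sum_congr rfl fun l _ => ?_
      ring
    have h7 : g (s j) * ∑ l, A (s j) l * y l = ∑ l, A (s j) l * y₂ l := by
      rw [hg]
      exact div_mul_cancel₀ _ h4
    show ∑ l, A j l * (y₂ l - g (s j) * y l) = 0
    rw [h6, h5, h2, ← h7]
    ring

/-- **General linear forms**: the point is the only solution of the system of linear equations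
given by the factors of the values in few classes. -/
theorem exists_data (q r : ℕ) :
    ∃ Φ : MvPolynomial (Fin q × Fin (r + 1)) ℚ, Φ ≠ 0 ∧ ∀ c' : ℕ, 2 * r + c' ≤ q →
      ∀ (E : Type u) [Field E] [CharZero E] (A : Fin q → Fin (r + 1) → E),
        aeval (fun p : Fin q × Fin (r + 1) => A p.1 p.2) Φ ≠ 0 →
        ∀ (y : Fin (r + 1) → E) (l₀ : Fin (r + 1)), y l₀ = 1 → ∀ (I : Finset (Fin q))
          (s : Fin q → Fin q) (b : Fin q → E) (w : ℕ), I.card ≤ w + c' →
          (∀ j, s j ∈ I ∨ b j = 0) → (∀ i ∈ I, ∑ l, A i l * y l ≠ 0) →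
          (∀ j, ∑ l, A j l * y l = b j * ∑ l, A (s j) l * y l) →
          (∃ t : Fin w → Fin (r + 1),
            IndOver (fun p : Fin q × Fin (r + 1) => A p.1 p.2) (fun i => y (t i))) →
          ∀ y' : Fin (r + 1) → E, (∀ j, ∑ l, (A j l - b j * A (s j) l) * y' l = 0) →
            ∃ c : E, y' = c • y := by
  classical
  obtain ⟨Φ, hΦ0, hΦ⟩ := exists_general.{u} q r
  refine ⟨Φ, hΦ0, ?_⟩
  intro c' hq E _ _ A hA y l₀ hy I s b w hI hs hI0 hb ⟨t, ht⟩ y' hy'
  have hy'' : ∀ j, ∑ l, A j l * y' l = b j * ∑ l, A (s j) l * y' l := by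
    intro j
    have h1 := hy' j
    have h2 : ∑ l, (A j l - b j * A (s j) l) * y' l =
        ∑ l, A j l * y' l - b j * ∑ l, A (s j) l * y' l := by
      rw [Finset.mul_sum, ← Finset.sum_sub_distrib]
      refine Finset.sum_congr rfl fun l _ => ?_
      ring
    rw [h2] at h1
    exact sub_eq_zero.1 h1
  refine hΦ A hA y l₀ hy I s b (fun j hj => ⟨?_, hb j⟩) t ht (by omega) y' (fun j _ => hy'' j)
    fun j hj => ?_
  · rcases hs j with h1 | h1
    · exact h1
    · rw [hb j, h1, zero_mul] at hj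
      exact absurd rfl hj
  · have h1 := hb j
    rw [hj] at h1
    rcases mul_eq_zero.1 h1.symm with h2 | h2
    · rw [hy'' j, h2, zero_mul]
    · rcases hs j with h3 | h3
      · exact absurd h2 (hI0 _ h3)
      · rw [hy'' j, h3, zero_mul]

end Pool.Agent.Lib.MP_44a246_ntFG
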