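import Mathlib
import Pool.Agent.Lib.MP_44a246_ntFG.FG10

/-!
General linear forms: the version where a few of the linear forms give no equation.
-/

namespace Pool.Agent.Lib.MP_44a246_ntFG

open Pool.Agent.Lib.MP_e52354_ntFC (IndOver)
open MvPolynomial

universe u

/-- independence over fewer coefficients -/
theorem indOver_comp {τ τ₁ τ' E : Type*} [Field E] [CharZero E] {A : τ → E} {y : τ' → E}
    (h : IndOver A y) (g : τ₁ → τ) : IndOver (A ∘ g) y := by
  intro Ψ hΨ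
  have h1 : (aeval (A ∘ g) : MvPolynomial τ₁ ℚ →ₐ[ℚ] E).toRingHom =
      (aeval A : MvPolynomial τ ℚ →ₐ[ℚ] E).toRingHom.comp
        (rename g : MvPolynomial τ₁ ℚ →ₐ[ℚ] MvPolynomial τ ℚ).toRingHom := by
    refine ringHom_ext' (RingHom.ext_rat _ _) fun t => ?_
    show aeval (A ∘ g) (X t) = aeval A (rename g (X t))
    rw [aeval_X, rename_X, aeval_X]
    rfl
  rw [h1] at hΨ ⊢
  have h2 := h (map (rename g : MvPolynomial τ₁ ℚ →ₐ[ℚ] MvPolynomial τ ℚ).toRingHom Ψ) (by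
    rw [eval₂_map]
    exact hΨ)
  rw [map_map] at h2
  exact h2

/-- **General linear forms**, the linear forms of the set `N` give no equation. -/
theorem exists_data_sub (q r : ℕ) :
    ∃ Φ : MvPolynomial (Fin q × Fin (r + 1)) ℚ, Φ ≠ 0 ∧
      ∀ (E : Type u) [Field E] [CharZero E] (A : Fin q → Fin (r + 1) → E),
        aeval (fun p : Fin q × Fin (r + 1) => A p.1 p.2) Φ ≠ 0 →
        ∀ (y : Fin (r + 1) → E) (l₀ : Fin (r + 1)), y l₀ = 1 → ∀ (N I : Finset (Fin q))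
          (s : Fin q → Fin q) (b : Fin q → E) (w : ℕ), 2 * r + I.card + N.card ≤ w + q →
          (∀ j ∉ N, s j ∈ I ∨ b j = 0) → (∀ i ∈ I, i ∉ N ∧ ∑ l, A i l * y l ≠ 0) →
          (∀ j ∉ N, ∑ l, A j l * y l = b j * ∑ l, A (s j) l * y l) →
          (∃ t : Fin w → Fin (r + 1),
            IndOver (fun p : Fin q × Fin (r + 1) => A p.1 p.2) (fun i => y (t i))) →
          ∀ y' : Fin (r + 1) → E, (∀ j ∉ N, ∑ l, (A j l - b j * A (s j) l) * y' l = 0) →
            ∃ c : E, y' = c • y := by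
  classical
  choose Φ₀ hΦ₀ hΦ₀' using fun q' : ℕ => exists_general.{u} q' r
  obtain ⟨Φ, hΦdef⟩ : ∃ Φ : (Σ q' : Fin (q + 1), (Fin q' ↪ Fin q)) →
      MvPolynomial (Fin q × Fin (r + 1)) ℚ, Φ = fun τ =>
        rename (Prod.map τ.2 id) (Φ₀ τ.1) := ⟨_, rfl⟩
  refine ⟨∏ τ, Φ τ, Finset.prod_ne_zero_iff.2 fun τ _ => ?_, ?_⟩
  · rw [hΦdef]
    intro h0
    refine hΦ₀ τ.1 ?_
    refine rename_injective (Prod.map τ.2 id) (τ.2.injective.prodMap Function.injective_id) ?_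
    rw [map_zero]
    exact h0
  intro E _ _ A hA y l₀ hy N I s b w hcard hs hI0 hb ⟨t, ht⟩ y' hy'
  rw [map_prod, Finset.prod_ne_zero_iff] at hA
  -- the linear forms outside `N`
  obtain ⟨q', hq'⟩ : ∃ q', q' = (Nᶜ : Finset (Fin q)).card := ⟨_, rfl⟩
  have hq'q : q' + N.card = q := by
    rw [hq', Finset.card_compl, Fintype.card_fin]
    have := Finset.card_le_univ N
    rw [Fintype.card_fin] at this
    omega
  obtain ⟨en⟩ : Nonempty (Fin q' ≃ (Nᶜ : Finset (Fin q))) :=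
    ⟨(Finset.equivFinOfCardEq hq'.symm).symm⟩
  obtain ⟨ι, hι⟩ : ∃ ι : Fin q' ↪ Fin q, ∀ i, ι i = (en i : Fin q) :=
    ⟨en.toEmbedding.trans (Function.Embedding.subtype _), fun _ => rfl⟩
  have hιN : ∀ i, ι i ∉ N := by
    intro i
    rw [hι]
    exact Finset.mem_compl.1 (en i).2
  have hιs : ∀ j, j ∉ N → ∃ i, ι i = j := by
    intro j hj
    refine ⟨en.symm ⟨j, Finset.mem_compl.2 hj⟩, ?_⟩
    rw [hι, Equiv.apply_symm_apply]
  -- the new centres
  obtain ⟨I', hI'⟩ : ∃ I' : Finset (Fin q'), I' = Finset.univ.filter fun i => ι i ∈ I := ⟨_, rfl⟩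
  have hI'm : ∀ i, i ∈ I' ↔ ι i ∈ I := by
    intro i
    rw [hI', Finset.mem_filter]
    simp
  have hI'c : I'.card ≤ I.card := by
    refine Finset.card_le_card_of_injOn ι (fun i hi => (hI'm i).1 hi) (fun a _ b _ h => ι.injective h)
  have hex : ∀ i : Fin q', ∃ i' : Fin q', s (ι i) ∉ N → ι i' = s (ι i) := by
    intro i
    by_cases h : s (ι i) ∈ N
    · exact ⟨i, fun h' => absurd h h'⟩
    · obtain ⟨i', hi'⟩ := hιs _ h
      exact ⟨i', fun _ => hi'⟩
  choose s' hs' using hex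
  have hy'' : ∀ j ∉ N, ∑ l, A j l * y' l = b j * ∑ l, A (s j) l * y' l := by
    intro j hj
    have h1 := hy' j hj
    have h2 : ∑ l, (A j l - b j * A (s j) l) * y' l =
        ∑ l, A j l * y' l - b j * ∑ l, A (s j) l * y' l := by
      rw [Finset.mul_sum, ← Finset.sum_sub_distrib]
      refine Finset.sum_congr rfl fun l _ => ?_
      ring
    rw [h2] at h1
    exact sub_eq_zero.1 h1
  have hA' : aeval (fun p : Fin q' × Fin (r + 1) => A (ι p.1) p.2) (Φ₀ q') ≠ 0 := by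
    have h1 := hA ⟨⟨q', by omega⟩, ι⟩ (Finset.mem_univ _)
    rw [hΦdef] at h1
    simp only at h1
    rw [aeval_rename] at h1
    exact h1
  have hcase : ∀ i : Fin q', ∑ l, A (ι i) l * y l ≠ 0 → s (ι i) ∈ I := by
    intro i hi
    rcases hs (ι i) (hιN i) with h1 | h1
    · exact h1
    · rw [hb _ (hιN i), h1, zero_mul] at hi
      exact absurd rfl hi
  refine hΦ₀' q' (fun i l => A (ι i) l) hA' y l₀ hy I' s' (fun i => b (ι i)) (fun i hi => ?_) t
    ?_ (by omega) y' (fun i hi => ?_) fun i hi => ?_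
  · have h1 := hcase i hi
    have h2 := hs' i (hI0 _ h1).1
    refine ⟨(hI'm _).2 (by rw [h2]; exact h1), ?_⟩
    rw [h2]
    exact hb _ (hιN i)
  · exact indOver_comp ht (fun p : Fin q' × Fin (r + 1) => (ι p.1, p.2))
  · have h1 := hcase i hi
    rw [hs' i (hI0 _ h1).1]
    exact hy'' _ (hιN i)
  · have h1 := hb (ι i) (hιN i)
    rw [hi] at h1
    rw [hy'' _ (hιN i)]
    rcases mul_eq_zero.1 h1.symm with h2 | h2
    · rw [h2, zero_mul]
    · rcases hs _ (hιN i) with h3 | h3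
      · exact absurd h2 (hI0 _ h3).2
      · rw [h3, zero_mul]

end Pool.Agent.Lib.MP_44a246_ntFG
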