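import Mathlib
import Pool.Agent.Lib.MP_44a246_ntY.Y05
import Pool.Agent.Lib.MP_44a246_ntFP.FP22
import Pool.Agent.Lib.MP_e52354_ntFQ.FQ3

/-!
The height of a point which is the only solution of a system of linear equations whose coefficients
are the coefficients of linear forms and the quotients of their values.
-/

namespace Pool.Agent.Lib.MP_44a246_ntFG

open Pool.Agent.Lib.MP_44a246_nt
open Pool.Agent.Lib.MP_44a246_ntL
open Pool.Agent.Lib.MP_44a246_ntX
open Pool.Agent.Lib.MP_44a246_ntY (det_le_exp)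
open Pool.Agent.Lib.MP_44a246_ntMS
open Pool.Agent.Lib.MP_e52354_ntFQ (height_le_kernel)
open WithZero

/-- **The height of the solution of the equations of the classes.** -/
theorem kernel_height {κ K L : Type*} [Field κ] [IsAlgClosed κ] [CharZero κ] [Field K]
    [CharZero K] [Algebra κ K] (hK : IsFF κ K) [Field L] [CharZero L] [Algebra K L]
    [FiniteDimensional K L] [Algebra κ L] [IsScalarTower κ K L] {q r : ℕ} {A : Place κ K → ℕ}
    (hA : (Function.support A).Finite) {Am : Fin q → Fin (r + 1) → K}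
    (hAm : ∀ j l (v : Place κ K), v.1 (Am j l) ≤ exp (A v : ℤ)) {y : Fin (r + 1) → L} (hy : y ≠ 0)
    {s : Fin q → Fin q} {b : Fin q → L}
    (hrow : ∀ j, ∑ l, (algebraMap K L (Am j l) - b j * algebraMap K L (Am (s j) l)) * y l = 0)
    (hker : ∀ y' : Fin (r + 1) → L,
      (∀ j, ∑ l, (algebraMap K L (Am j l) - b j * algebraMap K L (Am (s j) l)) * y' l = 0) →
      ∃ c : L, y' = c • y) {e : ℕ} {E₁ : ℤ} (hE₁ : 0 ≤ E₁)
    (hb : ∀ j, (e : ℤ) * height κ ![1, b j] ≤ E₁) :
    (e : ℤ) * height κ y ≤ r * E₁ + e * ((r * ∑ᶠ v, (A v : ℤ)) * Module.finrank K L) := by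
  classical
  have hL : IsFF κ L := hK.of_finite
  obtain ⟨a3, a4⟩ := mason_sum_over (L := L) hL hA
  have hcast : (Function.support fun w : Place κ L => ramIdx K w.1 * A (below K w)).Finite := by
    refine a3.subset fun w hw => ?_
    rw [Function.mem_support] at hw ⊢
    exact_mod_cast hw
  have hcast' : ((∑ᶠ v, A v : ℕ) : ℤ) = ∑ᶠ v, (A v : ℤ) := map_finsum (Nat.castAddMonoidHom ℤ) hA
  rw [hcast'] at a4
  obtain ⟨r', hr', R, -, hR⟩ := height_le_kernel hL
    (fun (j : Fin q) (l : Fin (r + 1)) =>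
      algebraMap K L (Am j l) - b j * algebraMap K L (Am (s j) l)) hy hrow hker
  rw [Fintype.card_fin] at hr'
  have hp0 : ∀ (w : Place κ L) j, vmax w.1 ![1, b j] ≠ 0 := fun w j =>
    Pool.Agent.Lib.MP_44a246_ntL.vmax_ne_zero w.1 (pair_ne_zero _)
  have hp1 : ∀ (w : Place κ L) j, 1 ≤ vmax w.1 ![1, b j] ∧ w.1 (b j) ≤ vmax w.1 ![1, b j] := by
    intro w j
    rw [Pool.Agent.Lib.MP_44a246_ntL.vmax_pair]
    exact ⟨le_max_left _ _, le_max_right _ _⟩
  have hlog : ∀ (w : Place κ L) j, 0 ≤ log (vmax w.1 ![1, b j]) := by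
    intro w j
    rw [← log_one (M := ℤ)]
    exact (log_le_log one_ne_zero (hp0 w j)).2 (hp1 w j).1
  obtain ⟨φ, hφ⟩ : ∃ φ : Place κ L → ℕ, φ = fun w => ∑ i, (log (vmax w.1 ![1, b (R i)])).toNat +
    r' * (ramIdx K w.1 * A (below K w)) := ⟨_, rfl⟩
  have hφz : ∀ w, (φ w : ℤ) = ∑ i, log (vmax w.1 ![1, b (R i)]) +
      r' * ((ramIdx K w.1 * A (below K w) : ℕ) : ℤ) := by
    intro w
    rw [hφ]
    push_cast
    congr 1
    refine Finset.sum_congr rfl fun i _ => ?_
    exact Int.toNat_of_nonneg (hlog w _)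
  have s2 : ∀ j, (Function.support fun w : Place κ L => log (vmax w.1 ![1, b j])).Finite :=
    fun j => hL.vmax_support (pair_ne_zero _)
  have s3 : (Function.support fun w : Place κ L =>
      ∑ i, log (vmax w.1 ![1, b (R i)])).Finite := by
    refine ((Finset.univ : Finset (Fin r')).finite_toSet.biUnion fun i _ => s2 (R i)).subset ?_
    intro w hw
    rw [Function.mem_support] at hw
    obtain ⟨i, hi, hi'⟩ := Finset.exists_ne_zero_of_sum_ne_zero hw
    exact Set.mem_biUnion hi hi'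
  have s4 : (Function.support fun w : Place κ L =>
      (r' : ℤ) * ((ramIdx K w.1 * A (below K w) : ℕ) : ℤ)).Finite := by
    refine a3.subset fun w hw h1 => hw ?_
    simp only at h1 ⊢
    rw [h1, mul_zero]
  have hφf : (Function.support φ).Finite := by
    refine ((s3.union s4).subset (Function.support_add _ _)).subset fun w hw => ?_
    rw [Function.mem_support] at hw ⊢
    rw [← hφz]
    exact_mod_cast hw
  have h1 := hR φ hφf fun w col => by
    refine (det_le_exp w.1 _ (x := fun i => log (vmax w.1 ![1, b (R i)]))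
      (y := fun _ => ((ramIdx K w.1 * A (below K w) : ℕ) : ℤ)) fun i j => ?_).trans ?_
    · rw [Matrix.of_apply, exp_add, exp_log (hp0 w _)]
      have hAw : ∀ j l, w.1 (algebraMap K L (Am j l)) ≤
          exp ((ramIdx K w.1 * A (below K w) : ℕ) : ℤ) := by
        intro j l
        rw [below_pow]
        refine (pow_le_pow_left' (hAm j l (below K w)) (ramIdx K w.1)).trans (le_of_eq ?_)
        rw [← exp_nsmul, nsmul_eq_mul]
        push_cast
        rfl
      refine Valuation.map_sub_le _ ?_ ?_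
      · calc w.1 (algebraMap K L (Am (R i) (col j))) = 1 * w.1 (algebraMap K L (Am (R i) (col j))) :=
              (one_mul _).symm
          _ ≤ _ := mul_le_mul' (hp1 w _).1 (hAw _ _)
      · rw [map_mul]
        exact mul_le_mul' (hp1 w _).2 (hAw _ _)
    · rw [exp_le_exp, hφz, Finset.sum_const, Finset.card_univ, Fintype.card_fin, nsmul_eq_mul]
  have h2 : ∑ᶠ w, (φ w : ℤ) = ∑ i, height κ ![1, b (R i)] +
      r' * (Module.finrank K L * ∑ᶠ v, (A v : ℤ)) := by
    rw [finsum_congr hφz, finsum_add_distrib s3 s4, ← mul_finsum _ _, a4,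
      finsum_sum_comm _ _ (fun i _ => s2 (R i)), mul_comm (∑ᶠ v, (A v : ℤ))]
    rfl
  rw [h2] at h1
  have he : (0 : ℤ) ≤ e := Int.natCast_nonneg _
  have nA : 0 ≤ ∑ᶠ v, (A v : ℤ) := finsum_nonneg fun v => Int.natCast_nonneg _
  have hF : (0 : ℤ) ≤ Module.finrank K L := Int.natCast_nonneg _
  have h3 : (e : ℤ) * ∑ i, height κ ![1, b (R i)] ≤ r' * E₁ := by
    rw [Finset.mul_sum]
    refine (Finset.sum_le_sum fun i _ => hb (R i)).trans (le_of_eq ?_)
    rw [Finset.sum_const, Finset.card_univ, Fintype.card_fin, nsmul_eq_mul]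
  have hr : (r' : ℤ) ≤ r := by
    have : r' ≤ r := by omega
    exact_mod_cast this
  have h4 := mul_le_mul_of_nonneg_left h1 he
  have h5 := mul_le_mul_of_nonneg_right hr hE₁
  have h6 := mul_le_mul_of_nonneg_left (mul_le_mul_of_nonneg_right hr (mul_nonneg hF nA)) he
  rw [mul_add] at h4
  linarith

end Pool.Agent.Lib.MP_44a246_ntFG
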