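import Mathlib
import Pool.Agent.Lib.MP_e52354_ntK.KBasis
import Pool.Agent.Lib.MP_e52354_ntFC.FC1
import Pool.Agent.Lib.MP_44a246_ntFP.FP23
import Pool.Agent.Lib.MP_44a246_ntFP.FP25
import Pool.Agent.Lib.MP_44a246_ntFG.FG3

/-!
The height of a point in terms of the heights of the quotients in few classes, for forms which are
general linear combinations of forms without common zero.
-/

namespace Pool.Agent.Lib.MP_44a246_ntFG

open Pool.Agent.Lib.MP_44a246_nt
open Pool.Agent.Lib.MP_44a246_ntL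
open Pool.Agent.Lib.MP_44a246_ntX
open Pool.Agent.Lib.MP_44a246_ntMS
open Pool.Agent.Lib.MP_44a246_ntFP
open Pool.Agent.Lib.MP_44a246_ntR (imI mem_imI)
open Pool.Agent.Lib.MP_e52354_ntK (exists_basis_family)
open Pool.Agent.Lib.MP_e52354_ntFC (IndOver)
open WithZero MvPolynomial

universe u v w x

/-- The property of general linear forms: the equations of the classes have only one solution. -/
def DataOK (q r c' : ℕ) (Φ : MvPolynomial (Fin q × Fin (r + 1)) ℚ) : Prop :=
  ∀ (E : Type u) [Field E] [CharZero E] (A : Fin q → Fin (r + 1) → E),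
    aeval (fun p : Fin q × Fin (r + 1) => A p.1 p.2) Φ ≠ 0 →
    ∀ (y : Fin (r + 1) → E) (l₀ : Fin (r + 1)), y l₀ = 1 →
    ∀ (I : Finset (Fin q)) (s : Fin q → Fin q) (b : Fin q → E) (w : ℕ), I.card ≤ w + c' →
    (∀ j, s j ∈ I ∨ b j = 0) → (∀ i ∈ I, ∑ l, A i l * y l ≠ 0) →
    (∀ j, ∑ l, A j l * y l = b j * ∑ l, A (s j) l * y l) →
    (∃ t : Fin w → Fin (r + 1),
      IndOver (fun p : Fin q × Fin (r + 1) => A p.1 p.2) fun i => y (t i)) →
    ∀ y' : Fin (r + 1) → E, (∀ j, ∑ l, (A j l - b j * A (s j) l) * y' l = 0) →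
      ∃ c : E, y' = c • y

/-- the rank of a point -/
theorem rank_transfer {k : Type x} {L : Type w} [Field k] [Field L] [Algebra k L] {N r m : ℕ}
    {z : Fin N → L} {y : Fin r → L} {T : Fin m → Fin N}
    (hT : AlgebraicIndependent k (fun i => z (T i)))
    (halg : ∀ i, IsAlgebraic (IntermediateField.adjoin k (Set.range y)) (z i)) :
    ∃ t : Fin m → Fin r, AlgebraicIndependent k (fun i => y (t i)) := by
  classical
  obtain ⟨J, hJ, -, hJc⟩ := exists_basis_family (k₀ := k) y
  obtain ⟨F, hF⟩ : ∃ F : IntermediateField k L, F = IntermediateField.adjoin k (Set.range y) :=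
    ⟨_, rfl⟩
  rw [← hF] at halg hJc
  let L' : IntermediateField F L := algebraicClosure F L
  have hL' : Algebra.IsAlgebraic F L' := inferInstanceAs
    (Algebra.IsAlgebraic F (algebraicClosure F L))
  let z' : Fin m → L' := fun i => ⟨z (T i), mem_algebraicClosure_iff.2 (halg (T i))⟩
  have h1 : AlgebraicIndependent k z' :=
    AlgebraicIndependent.of_comp (L'.val.restrictScalars k) hT
  have h2 := h1.lift_cardinalMk_le_trdeg
  have h3 := _root_.lift_trdeg_add_eq k F L'
  have h4 : Algebra.trdeg F L' = 0 := trdeg_eq_zero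
  rw [h4, Cardinal.lift_zero, add_zero, ← hJc] at h3
  simp only [Cardinal.lift_natCast, Cardinal.mk_fin] at h2 h3
  have h5 : m ≤ Nat.card J := by
    have h6 : ((m : ℕ) : Cardinal.{w}) ≤ ((Nat.card J : ℕ) : Cardinal.{w}) := by
      calc ((m : ℕ) : Cardinal.{w}) ≤ Cardinal.lift.{0} (Algebra.trdeg k L') := h2
        _ = Algebra.trdeg k L' := Cardinal.lift_uzero _
        _ = _ := by
          have h7 := h3
          rw [Cardinal.lift_id] at h7
          exact h7.symm
    exact_mod_cast h6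
  obtain ⟨en⟩ : Nonempty (Fin m ↪ J) := by
    rw [Nat.card_eq_fintype_card] at h5
    exact Function.Embedding.nonempty_of_card_le (by rwa [Fintype.card_fin])
  exact ⟨fun i => (en i : Fin r), hJ.comp en en.injective⟩

/-- the linear combinations of the forms `Z l` -/
noncomputable def linP {k : Type*} [Field k] {N q r : ℕ}
    (Z : Fin (r + 1) → MvPolynomial (Fin (N + 1)) k) (A : Fin q → Fin (r + 1) → k) (j : Fin q) :
    MvPolynomial (Fin (N + 1)) k :=
  ∑ l, C (A j l) * Z l

theorem aeval_linP {k L : Type*} [Field k] [Field L] [Algebra k L] {N q r : ℕ}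
    (Z : Fin (r + 1) → MvPolynomial (Fin (N + 1)) k) (A : Fin q → Fin (r + 1) → k) (j : Fin q)
    (z : Fin (N + 1) → L) :
    aeval z (linP Z A j) = ∑ l, algebraMap k L (A j l) * aeval z (Z l) := by
  unfold linP
  rw [map_sum]
  refine Finset.sum_congr rfl fun l _ => ?_
  rw [map_mul, aeval_C]

theorem linP_hom {k : Type*} [Field k] {N q r δ : ℕ}
    {Z : Fin (r + 1) → MvPolynomial (Fin (N + 1)) k} (hZ : ∀ l, (Z l).IsHomogeneous δ)
    (A : Fin q → Fin (r + 1) → k) (j : Fin q) : (linP Z A j).IsHomogeneous δ := by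
  unfold linP
  refine IsHomogeneous.sum _ _ _ fun l _ => ?_
  have h1 := (isHomogeneous_C (Fin (N + 1)) (A j l)).mul (hZ l)
  rwa [zero_add] at h1

/-- **The height of a point in terms of the quotients in few classes.** -/
theorem lin_height {k : Type x} [Field k] [CharZero k] {N m q r δ c' : ℕ}
    {g : Fin m → MvPolynomial (Fin (N + 1)) k} {dg : Fin m → ℕ}
    (hg : ∀ i, (g i).IsHomogeneous (dg i)) {Z : Fin (r + 1) → MvPolynomial (Fin (N + 1)) k}
    (hZ : ∀ l, (Z l).IsHomogeneous δ)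
    (hZ0 : ∀ y : Fin (N + 1) → AlgebraicClosure k, (∀ i, aeval y (g i) = 0) →
      (∀ l, aeval y (Z l) = 0) → y = 0)
    (hAlg : ∀ (E : Type w) [Field E] [Algebra k E] (x : Fin (N + 1) → E) (j₀ : Fin (N + 1))
      (l₀ : Fin (r + 1)), x j₀ = 1 → (∀ i, aeval x (g i) = 0) → aeval x (Z l₀) ≠ 0 →
      ∀ i, IsAlgebraic (IntermediateField.adjoin k
        (Set.range fun l => aeval x (Z l) / aeval x (Z l₀))) (x i))
    {Φ : MvPolynomial (Fin q × Fin (r + 1)) ℚ} (hΦ : DataOK.{w} q r c' Φ)
    {A : Fin q → Fin (r + 1) → k}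
    (hA : aeval (fun p : Fin q × Fin (r + 1) => A p.1 p.2) Φ ≠ 0)
    {κ : Type u} {K : Type v} [Field κ] [IsAlgClosed κ] [CharZero κ] [Field K] [CharZero K]
    [Algebra κ K] (hK : IsFF κ K) [Algebra k K] :
    ∃ C : ℕ, ∀ (L : Type w) [Field L] [Algebra K L] [FiniteDimensional K L] [Algebra κ L]
      [IsScalarTower κ K L] [Algebra k L] [IsScalarTower k K L] (z : Fin (N + 1) → L)
      (j₀ : Fin (N + 1)), z j₀ = 1 → (∀ i, aeval z (g i) = 0) →
      ∀ (w : ℕ) (T : Fin w → Fin (N + 1)), AlgebraicIndependent k (fun i => z (T i)) →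
      ∀ (e : ℕ) (E₁ : ℤ), 0 ≤ E₁ →
      (∀ S : Finset (Fin q), S.card = w + c' + 1 → (∀ j ∈ S, aeval z (linP Z A j) ≠ 0) →
        ∃ i ∈ S, ∃ j ∈ S, i ≠ j ∧
          (e : ℤ) * height κ ![aeval z (linP Z A i), aeval z (linP Z A j)] ≤ E₁) →
      ((e * δ : ℕ) : ℤ) * height κ z ≤ r * E₁ + e * (C * Module.finrank K L) := by
  classical
  -- the height of the values
  obtain ⟨f, hf⟩ : ∃ f : Fin m → MvPolynomial (Fin 0 ⊕ Fin (N + 1)) k,
      f = fun i => rename Sum.inr (g i) := ⟨_, rfl⟩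
  have hwf : ∀ i, (f i).IsWeightedHomogeneous
      (Sum.elim (fun _ : Fin 0 => 0) fun _ => 1) (dg i) := by
    intro i
    rw [hf]
    exact rename_weighted (w := 1) (f := (Sum.inr : Fin (N + 1) → Fin 0 ⊕ Fin (N + 1)))
      (fun _ => rfl) (hg i)
  have hgI : ∀ i, g i ∈ imI f := by
    intro i
    rw [mem_imI]
    refine Ideal.subset_span ⟨i, ?_⟩
    rw [hf]
  obtain ⟨C₀, hC₀, hgp⟩ := general_position_height.{u, v, w} (κ := κ) hK (r := r + 1) hwf hZ
    (fun S hS y hy hyP => by
      have hSu : S = Finset.univ := by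
        rw [← Finset.card_eq_iff_eq_univ, hS, Fintype.card_fin]
      exact hZ0 y (fun i => hy _ (hgI i)) fun l => hyP l (by rw [hSu]; exact Finset.mem_univ l))
  obtain ⟨B, hB, hBb⟩ := exists_elt_bound hK
    (fun p : Fin q × Fin (r + 1) => algebraMap k K (A p.1 p.2))
  have nB : 0 ≤ ∑ᶠ v, (B v : ℤ) := finsum_nonneg fun v => Int.natCast_nonneg _
  refine ⟨(r * ∑ᶠ v, (B v : ℤ) + C₀).toNat, ?_⟩
  rw [Int.toNat_of_nonneg (by positivity)]
  intro L _ _ _ _ _ _ _ z j₀ hz hzg w T hT e E₁ hE₁ hclose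
  have hLc : CharZero L := charZero_of_injective_algebraMap (algebraMap K L).injective
  have hL : IsFF κ L := hK.of_finite
  have hz0 : z ≠ 0 := by
    intro h0
    rw [h0] at hz
    exact zero_ne_one hz
  have hzI : ∀ Q ∈ imI f, aeval z Q = 0 := by
    intro Q hQ
    refine imI_zero (h := fun _ : Fin 0 => (0 : L)) (fun i => ?_) hQ
    rw [hf, aeval_rename]
    exact hzg i
  obtain ⟨hne, hle⟩ := hgp hz0 hzI Finset.univ (by rw [Finset.card_univ, Fintype.card_fin])
  obtain ⟨y, hy⟩ : ∃ y : Fin (r + 1) → L, y = fun l => aeval z (Z l) := ⟨_, rfl⟩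
  obtain ⟨l₁, hl₁⟩ : ∃ l, y l ≠ 0 := by
    by_contra hcon
    push Not at hcon
    apply hne
    funext j
    have h1 := hcon j
    rw [hy] at h1
    exact h1
  have hy0 : y ≠ 0 := fun h0 => hl₁ (congrFun h0 l₁)
  have hhy : height κ (fun j : {j // j ∈ (Finset.univ : Finset (Fin (r + 1)))} =>
      aeval z (Z j)) = height κ y := by
    refine finsum_congr fun v => ?_
    congr 1
    refine le_antisymm (vmax_le _ fun j => ?_) (vmax_le _ fun j => ?_)
    · rw [hy]
      exact le_vmax v.1 (fun l => aeval z (Z l)) j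
    · rw [hy]
      exact le_vmax v.1 (fun j : {j // j ∈ (Finset.univ : Finset (Fin (r + 1)))} =>
        aeval z (Z j)) ⟨j, Finset.mem_univ j⟩
  rw [hhy] at hle
  -- the normalised values
  obtain ⟨t, ht⟩ : ∃ t, t = (y l₁)⁻¹ := ⟨_, rfl⟩
  have ht0 : t ≠ 0 := by
    rw [ht]
    exact inv_ne_zero hl₁
  obtain ⟨y₁, hy₁⟩ : ∃ y₁ : Fin (r + 1) → L, y₁ = fun l => t * y l := ⟨_, rfl⟩
  have hy₁1 : y₁ l₁ = 1 := by
    rw [hy₁, ht]
    exact inv_mul_cancel₀ hl₁
  have hhy₁ : height κ y₁ = height κ y := by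
    rw [hy₁]
    exact hL.height_smul ht0
  have hval : ∀ j, ∑ l, algebraMap k L (A j l) * y₁ l = t * aeval z (linP Z A j) := by
    intro j
    rw [aeval_linP, Finset.mul_sum, hy₁, hy]
    refine Finset.sum_congr rfl fun l _ => ?_
    ring
  -- the classes
  obtain ⟨J, hJ⟩ : ∃ J : Finset (Fin q), J = Finset.univ.filter fun j =>
    aeval z (linP Z A j) ≠ 0 := ⟨_, rfl⟩
  have hmemJ : ∀ j, j ∈ J ↔ aeval z (linP Z A j) ≠ 0 := by
    intro j
    rw [hJ]
    simp
  obtain ⟨I, s, hIc, hIJ, hs⟩ := exists_classes J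
    (fun i j => (e : ℤ) * height κ ![aeval z (linP Z A i), aeval z (linP Z A j)] ≤ E₁)
    (fun i j h1 => by
      rw [height_pair_comm]
      exact h1) (fun i hi => by
      rw [height_pair_self hL ((hmemJ i).1 hi), mul_zero]
      exact hE₁) (ν := w + c') (fun S hSJ hSc => hclose S hSc fun j hj => (hmemJ j).1 (hSJ hj))
  obtain ⟨b, hb⟩ : ∃ b : Fin q → L, b = fun j => if aeval z (linP Z A j) = 0 then 0 else
    aeval z (linP Z A j) / aeval z (linP Z A (s j)) := ⟨_, rfl⟩
  have hb0 : ∀ j, aeval z (linP Z A j) = 0 → b j = 0 := by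
    intro j hj
    rw [hb]
    simp only [if_pos hj]
  have hb1 : ∀ j, aeval z (linP Z A j) ≠ 0 →
      b j = aeval z (linP Z A j) / aeval z (linP Z A (s j)) := by
    intro j hj
    rw [hb]
    simp only [if_neg hj]
  have hs0 : ∀ j, aeval z (linP Z A j) ≠ 0 → s j ∈ I ∧ aeval z (linP Z A (s j)) ≠ 0 := by
    intro j hj
    have h1 := (hs j ((hmemJ j).2 hj)).1
    exact ⟨h1, (hmemJ _).1 (hIJ h1)⟩
  have hPb : ∀ j, aeval z (linP Z A j) = b j * aeval z (linP Z A (s j)) := by
    intro j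
    by_cases hj : aeval z (linP Z A j) = 0
    · rw [hb0 j hj, zero_mul, hj]
    · rw [hb1 j hj, div_mul_cancel₀ _ (hs0 j hj).2]
  have hrowL : ∀ j, ∑ l, algebraMap k L (A j l) * y₁ l =
      b j * ∑ l, algebraMap k L (A (s j) l) * y₁ l := by
    intro j
    rw [hval, hval, hPb j]
    ring
  -- the rank
  obtain ⟨T', hT'⟩ := rank_transfer (y := y₁) hT fun i => by
    have h1 := hAlg L z j₀ l₁ hz hzg (by
      have h2 := hl₁
      rw [hy] at h2
      exact h2) i
    have h2 : (fun l => aeval z (Z l) / aeval z (Z l₁)) = y₁ := by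
      funext l
      rw [hy₁, ht, hy, div_eq_mul_inv, mul_comm]
    rwa [h2] at h1
  have hker := hΦ L (fun j l => algebraMap k L (A j l)) (by
    have h1 : (fun p : Fin q × Fin (r + 1) => algebraMap k L (A p.1 p.2)) =
        algebraMap k L ∘ fun p : Fin q × Fin (r + 1) => A p.1 p.2 := rfl
    rw [h1, aeval_algebraMap_apply]
    exact (_root_.map_ne_zero _).2 hA) y₁ l₁ hy₁1 I s b w hIc (fun j => by
      by_cases hj : aeval z (linP Z A j) = 0
      · exact Or.inr (hb0 j hj)
      · exact Or.inl (hs0 j hj).1) (fun i hi => by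
      rw [hval]
      exact mul_ne_zero ht0 ((hmemJ i).1 (hIJ hi))) hrowL
    ⟨T', IndOver.of_algebraicIndependent (B := k)
      (a := fun p : Fin q × Fin (r + 1) => A p.1 p.2) (fun _ => rfl) hT'⟩
  have hy₁0 : y₁ ≠ 0 := by
    intro h0
    rw [h0] at hy₁1
    exact zero_ne_one hy₁1
  have hAm : ∀ j l, algebraMap K L (algebraMap k K (A j l)) = algebraMap k L (A j l) :=
    fun j l => (IsScalarTower.algebraMap_apply k K L _).symm
  have h3 := kernel_height hK hB (Am := fun j l => algebraMap k K (A j l))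
    (fun j l v => hBb (j, l) v) hy₁0 (s := s) (b := b) (fun j => by
      simp only [hAm]
      have h4 := hrowL j
      rw [Finset.mul_sum] at h4
      rw [← sub_eq_zero, ← Finset.sum_sub_distrib] at h4
      rw [← h4]
      refine Finset.sum_congr rfl fun l _ => ?_
      ring) (fun y' hy' => hker y' fun j => by
      have h4 := hy' j
      simp only [hAm] at h4
      exact h4) hE₁ (e := e) (fun j => by
      by_cases hj : aeval z (linP Z A j) = 0
      · rw [hb0 j hj]
        have h4 : height κ (![1, 0] : Fin 2 → L) = 0 := by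
          have h5 : ∀ v : Place κ L, log (vmax v.1 (![1, 0] : Fin 2 → L)) = 0 := by
            intro v
            rw [Pool.Agent.Lib.MP_44a246_ntL.vmax_pair, map_zero, max_eq_left zero_le, log_one]
          exact (finsum_congr h5).trans finsum_zero
        rw [h4, mul_zero]
        exact hE₁
      · have h4 := (hs0 j hj).2
        have h5 : (![aeval z (linP Z A (s j)), aeval z (linP Z A j)] : Fin 2 → L) =
            fun i => aeval z (linP Z A (s j)) * (![1, b j] : Fin 2 → L) i := by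
          funext i
          fin_cases i
          · simp
          · simp [hb1 j hj, mul_div_cancel₀ _ h4]
        have h6 : height κ ![aeval z (linP Z A (s j)), aeval z (linP Z A j)] =
            height κ ![1, b j] := by
          rw [h5]
          exact hL.height_smul h4
        rw [← h6]
        exact (hs j ((hmemJ j).2 hj)).2)
  rw [hhy₁] at h3
  have he : (0 : ℤ) ≤ e := Int.natCast_nonneg _
  have h4 := mul_le_mul_of_nonneg_left hle he
  push_cast
  linarith

end Pool.Agent.Lib.MP_44a246_ntFG
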