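import Mathlib
import Pool.Agent.Lib.MP_44a246_ntFG.FG4
import Pool.Agent.Lib.MP_44a246_ntFG.FG22

/-!
The height of a point in terms of the heights of the quotients in few classes, for given centres of
the classes and a set of exceptions, for forms which are general linear combinations of forms
without common zero.
-/

namespace Pool.Agent.Lib.MP_44a246_ntFG

open Pool.Agent.Lib.MP_44a246_nt
open Pool.Agent.Lib.MP_44a246_ntL
open Pool.Agent.Lib.MP_44a246_ntX
open Pool.Agent.Lib.MP_44a246_ntMS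
open Pool.Agent.Lib.MP_44a246_ntFP
open Pool.Agent.Lib.MP_44a246_ntR (imI mem_imI)
open Pool.Agent.Lib.MP_e52354_ntFC (IndOver)
open WithZero MvPolynomial

universe u v w x

/-- The property of general linear forms, with a set `M` of exceptions. -/
def DataSub (q r : ℕ) (Φ : MvPolynomial (Fin q × Fin (r + 1)) ℚ) : Prop :=
  ∀ (E : Type u) [Field E] [CharZero E] (A : Fin q → Fin (r + 1) → E),
    aeval (fun p : Fin q × Fin (r + 1) => A p.1 p.2) Φ ≠ 0 →
    ∀ (y : Fin (r + 1) → E) (l₀ : Fin (r + 1)), y l₀ = 1 → ∀ (M I : Finset (Fin q))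
      (s : Fin q → Fin q) (b : Fin q → E) (w : ℕ), 2 * r + I.card + M.card ≤ w + q →
      (∀ j ∉ M, s j ∈ I ∨ b j = 0) → (∀ i ∈ I, i ∉ M ∧ ∑ l, A i l * y l ≠ 0) →
      (∀ j ∉ M, ∑ l, A j l * y l = b j * ∑ l, A (s j) l * y l) →
      (∃ t : Fin w → Fin (r + 1),
        IndOver (fun p : Fin q × Fin (r + 1) => A p.1 p.2) (fun i => y (t i))) →
      ∀ y' : Fin (r + 1) → E, (∀ j ∉ M, ∑ l, (A j l - b j * A (s j) l) * y' l = 0) →
        ∃ c : E, y' = c • y

theorem exists_dataSub (q r : ℕ) :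
    ∃ Φ : MvPolynomial (Fin q × Fin (r + 1)) ℚ, Φ ≠ 0 ∧ DataSub.{u} q r Φ :=
  exists_data_sub q r

/-- the version without exceptions -/
theorem DataSub.dataOK {q r c' : ℕ} {Φ : MvPolynomial (Fin q × Fin (r + 1)) ℚ}
    (h : DataSub.{u} q r Φ) (hq : 2 * r + c' ≤ q) : DataOK.{u} q r c' Φ := by
  intro E _ _ A hA y l₀ hy I s b w hI hs hIA hb ht y' hy'
  exact h E A hA y l₀ hy ∅ I s b w (by rw [Finset.card_empty]; omega) (fun j _ => hs j)
    (fun i hi => ⟨Finset.notMem_empty i, hIA i hi⟩) (fun j _ => hb j) ht y' fun j _ => hy' j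

/-- **The height of a point in terms of the quotients in few classes**, for given centres. -/
theorem lin_height_centres {k : Type x} [Field k] [CharZero k] {N m q r δ : ℕ}
    {g : Fin m → MvPolynomial (Fin (N + 1)) k} {dg : Fin m → ℕ}
    (hg : ∀ i, (g i).IsHomogeneous (dg i)) {Z : Fin (r + 1) → MvPolynomial (Fin (N + 1)) k}
    (hZ : ∀ l, (Z l).IsHomogeneous δ)
    (hZ0 : ∀ y : Fin (N + 1) → AlgebraicClosure k, (∀ i, aeval y (g i) = 0) →
      (∀ l, aeval y (Z l) = 0) → y = 0)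
    (hAlg : ∀ (E : Type w) [Field E] [Algebra k E] (x : Fin (N + 1) → E) (j₀ : Fin (N + 1))
      (l₀ : Fin (r + 1)), x j₀ = 1 → (∀ i, aeval x (g i) = 0) → aeval x (Z l₀) ≠ 0 →
      ∀ i, IsAlgebraic (IntermediateField.adjoin k
        (Set.range fun l => aeval x (Z l) / aeval x (Z l₀))) (x i))
    {Φ : MvPolynomial (Fin q × Fin (r + 1)) ℚ} (hΦ : DataSub.{w} q r Φ)
    {A : Fin q → Fin (r + 1) → k}
    (hA : aeval (fun p : Fin q × Fin (r + 1) => A p.1 p.2) Φ ≠ 0)
    {κ : Type u} {K : Type v} [Field κ] [IsAlgClosed κ] [CharZero κ] [Field K] [CharZero K]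
    [Algebra κ K] (hK : IsFF κ K) [Algebra k K] :
    ∃ C : ℕ, ∀ (L : Type w) [Field L] [Algebra K L] [FiniteDimensional K L] [Algebra κ L]
      [IsScalarTower κ K L] [Algebra k L] [IsScalarTower k K L] (z : Fin (N + 1) → L)
      (j₀ : Fin (N + 1)), z j₀ = 1 → (∀ i, aeval z (g i) = 0) →
      ∀ (w : ℕ) (T : Fin w → Fin (N + 1)), AlgebraicIndependent k (fun i => z (T i)) →
      ∀ (e : ℕ) (E₁ : ℤ), 0 ≤ E₁ →
      ∀ (M I : Finset (Fin q)) (s : Fin q → Fin q), 2 * r + I.card + M.card ≤ w + q →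
      (∀ i ∈ I, i ∉ M ∧ aeval z (linP Z A i) ≠ 0) →
      (∀ j ∉ M, aeval z (linP Z A j) ≠ 0 → s j ∈ I ∧
        (e : ℤ) * height κ ![aeval z (linP Z A (s j)), aeval z (linP Z A j)] ≤ E₁) →
      ((e * δ : ℕ) : ℤ) * height κ z ≤ r * E₁ + e * (C * Module.finrank K L) := by
  classical
  -- the height of the values
  obtain ⟨f, hf⟩ : ∃ f : Fin m → MvPolynomial (Fin 0 ⊕ Fin (N + 1)) k,
      f = fun i => rename Sum.inr (g i) := ⟨_, rfl⟩
  have hwf : ∀ i, (f i).IsWeightedHomogeneous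
      (Sum.elim (fun _ : Fin 0 => 0) fun _ => 1) (dg i) := by
    intro i
    rw [hf]
    exact rename_weighted (w := 1) (f := (Sum.inr : Fin (N + 1) → Fin 0 ⊕ Fin (N + 1)))
      (fun _ => rfl) (hg i)
  have hgI : ∀ i, g i ∈ imI f := by
    intro i
    rw [mem_imI]
    refine Ideal.subset_span ⟨i, ?_⟩
    rw [hf]
  obtain ⟨C₀, hC₀, hgp⟩ := general_position_height.{u, v, w} (κ := κ) hK (r := r + 1) hwf hZ
    (fun S hS y hy hyP => by
      have hSu : S = Finset.univ := by
        rw [← Finset.card_eq_iff_eq_univ, hS, Fintype.card_fin]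
      exact hZ0 y (fun i => hy _ (hgI i)) fun l => hyP l (by rw [hSu]; exact Finset.mem_univ l))
  obtain ⟨B, hB, hBb⟩ := exists_elt_bound hK
    (fun p : Fin q × Fin (r + 1) => algebraMap k K (A p.1 p.2))
  have nB : 0 ≤ ∑ᶠ v, (B v : ℤ) := finsum_nonneg fun v => Int.natCast_nonneg _
  refine ⟨(r * ∑ᶠ v, (B v : ℤ) + C₀).toNat, ?_⟩
  rw [Int.toNat_of_nonneg (by positivity)]
  intro L _ _ _ _ _ _ _ z j₀ hz hzg w T hT e E₁ hE₁ M I s₀ hcard hI hs₀
  have hLc : CharZero L := charZero_of_injective_algebraMap (algebraMap K L).injective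
  have hL : IsFF κ L := hK.of_finite
  have hz0 : z ≠ 0 := by
    intro h0
    rw [h0] at hz
    exact zero_ne_one hz
  have hzI : ∀ Q ∈ imI f, aeval z Q = 0 := by
    intro Q hQ
    refine imI_zero (h := fun _ : Fin 0 => (0 : L)) (fun i => ?_) hQ
    rw [hf, aeval_rename]
    exact hzg i
  obtain ⟨hne, hle⟩ := hgp hz0 hzI Finset.univ (by rw [Finset.card_univ, Fintype.card_fin])
  obtain ⟨y, hy⟩ : ∃ y : Fin (r + 1) → L, y = fun l => aeval z (Z l) := ⟨_, rfl⟩
  obtain ⟨l₁, hl₁⟩ : ∃ l, y l ≠ 0 := by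
    by_contra hcon
    push Not at hcon
    apply hne
    funext j
    have h1 := hcon j
    rw [hy] at h1
    exact h1
  have hy0 : y ≠ 0 := fun h0 => hl₁ (congrFun h0 l₁)
  have hhy : height κ (fun j : {j // j ∈ (Finset.univ : Finset (Fin (r + 1)))} =>
      aeval z (Z j)) = height κ y := by
    refine finsum_congr fun v => ?_
    congr 1
    refine le_antisymm (vmax_le _ fun j => ?_) (vmax_le _ fun j => ?_)
    · rw [hy]
      exact le_vmax v.1 (fun l => aeval z (Z l)) j
    · rw [hy]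
      exact le_vmax v.1 (fun j : {j // j ∈ (Finset.univ : Finset (Fin (r + 1)))} =>
        aeval z (Z j)) ⟨j, Finset.mem_univ j⟩
  rw [hhy] at hle
  -- the normalised values
  obtain ⟨t, ht⟩ : ∃ t, t = (y l₁)⁻¹ := ⟨_, rfl⟩
  have ht0 : t ≠ 0 := by
    rw [ht]
    exact inv_ne_zero hl₁
  obtain ⟨y₁, hy₁⟩ : ∃ y₁ : Fin (r + 1) → L, y₁ = fun l => t * y l := ⟨_, rfl⟩
  have hy₁1 : y₁ l₁ = 1 := by
    rw [hy₁, ht]
    exact inv_mul_cancel₀ hl₁
  have hhy₁ : height κ y₁ = height κ y := by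
    rw [hy₁]
    exact hL.height_smul ht0
  have hval : ∀ j, ∑ l, algebraMap k L (A j l) * y₁ l = t * aeval z (linP Z A j) := by
    intro j
    rw [aeval_linP, Finset.mul_sum, hy₁, hy]
    refine Finset.sum_congr rfl fun l _ => ?_
    ring
  -- the classes
  obtain ⟨s, hsd⟩ : ∃ s : Fin q → Fin q, s = fun j => if j ∈ M then j else s₀ j := ⟨_, rfl⟩
  have hsM : ∀ j, j ∈ M → s j = j := fun j hj => by rw [hsd]; simp only [if_pos hj]
  have hsN : ∀ j, j ∉ M → s j = s₀ j := fun j hj => by rw [hsd]; simp only [if_neg hj]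
  obtain ⟨b, hb⟩ : ∃ b : Fin q → L, b = fun j => if j ∈ M then 1 else
    if aeval z (linP Z A j) = 0 then 0 else
    aeval z (linP Z A j) / aeval z (linP Z A (s j)) := ⟨_, rfl⟩
  have hbM : ∀ j, j ∈ M → b j = 1 := by
    intro j hj
    rw [hb]
    simp only [if_pos hj]
  have hb0 : ∀ j, j ∉ M → aeval z (linP Z A j) = 0 → b j = 0 := by
    intro j hjM hj
    rw [hb]
    simp only [if_neg hjM, if_pos hj]
  have hb1 : ∀ j, j ∉ M → aeval z (linP Z A j) ≠ 0 →
      b j = aeval z (linP Z A j) / aeval z (linP Z A (s j)) := by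
    intro j hjM hj
    rw [hb]
    simp only [if_neg hjM, if_neg hj]
  have hs0 : ∀ j, j ∉ M → aeval z (linP Z A j) ≠ 0 → s j ∈ I ∧
      aeval z (linP Z A (s j)) ≠ 0 := by
    intro j hjM hj
    have h1 := (hs₀ j hjM hj).1
    rw [hsN j hjM]
    exact ⟨h1, (hI _ h1).2⟩
  have hPb : ∀ j, aeval z (linP Z A j) = b j * aeval z (linP Z A (s j)) := by
    intro j
    by_cases hjM : j ∈ M
    · rw [hbM j hjM, hsM j hjM, one_mul]
    by_cases hj : aeval z (linP Z A j) = 0
    · rw [hb0 j hjM hj, zero_mul, hj]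
    · rw [hb1 j hjM hj, div_mul_cancel₀ _ (hs0 j hjM hj).2]
  have hrowL : ∀ j, ∑ l, algebraMap k L (A j l) * y₁ l =
      b j * ∑ l, algebraMap k L (A (s j) l) * y₁ l := by
    intro j
    rw [hval, hval, hPb j]
    ring
  -- the rank
  obtain ⟨T', hT'⟩ := rank_transfer (y := y₁) hT fun i => by
    have h1 := hAlg L z j₀ l₁ hz hzg (by
      have h2 := hl₁
      rw [hy] at h2
      exact h2) i
    have h2 : (fun l => aeval z (Z l) / aeval z (Z l₁)) = y₁ := by
      funext l
      rw [hy₁, ht, hy, div_eq_mul_inv, mul_comm]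
    rwa [h2] at h1
  have hker := hΦ L (fun j l => algebraMap k L (A j l)) (by
    have h1 : (fun p : Fin q × Fin (r + 1) => algebraMap k L (A p.1 p.2)) =
        algebraMap k L ∘ fun p : Fin q × Fin (r + 1) => A p.1 p.2 := rfl
    rw [h1, aeval_algebraMap_apply]
    exact (_root_.map_ne_zero _).2 hA) y₁ l₁ hy₁1 M I s b w hcard (fun j hjM => by
      by_cases hj : aeval z (linP Z A j) = 0
      · exact Or.inr (hb0 j hjM hj)
      · exact Or.inl (hs0 j hjM hj).1) (fun i hi => by
      rw [hval]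
      exact ⟨(hI i hi).1, mul_ne_zero ht0 (hI i hi).2⟩) (fun j _ => hrowL j)
    ⟨T', IndOver.of_algebraicIndependent (B := k)
      (a := fun p : Fin q × Fin (r + 1) => A p.1 p.2) (fun _ => rfl) hT'⟩
  have hy₁0 : y₁ ≠ 0 := by
    intro h0
    rw [h0] at hy₁1
    exact zero_ne_one hy₁1
  have hAm : ∀ j l, algebraMap K L (algebraMap k K (A j l)) = algebraMap k L (A j l) :=
    fun j l => (IsScalarTower.algebraMap_apply k K L _).symm
  have h3 := kernel_height hK hB (Am := fun j l => algebraMap k K (A j l))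
    (fun j l v => hBb (j, l) v) hy₁0 (s := s) (b := b) (fun j => by
      simp only [hAm]
      have h4 := hrowL j
      rw [Finset.mul_sum] at h4
      rw [← sub_eq_zero, ← Finset.sum_sub_distrib] at h4
      rw [← h4]
      refine Finset.sum_congr rfl fun l _ => ?_
      ring) (fun y' hy' => hker y' fun j _ => by
      have h4 := hy' j
      simp only [hAm] at h4
      exact h4) hE₁ (e := e) (fun j => by
      by_cases hjM : j ∈ M
      · rw [hbM j hjM, height_pair_self hL one_ne_zero, mul_zero]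
        exact hE₁
      by_cases hj : aeval z (linP Z A j) = 0
      · rw [hb0 j hjM hj]
        have h4 : height κ (![1, 0] : Fin 2 → L) = 0 := by
          have h5 : ∀ v : Place κ L, log (vmax v.1 (![1, 0] : Fin 2 → L)) = 0 := by
            intro v
            rw [Pool.Agent.Lib.MP_44a246_ntL.vmax_pair, map_zero, max_eq_left zero_le, log_one]
          exact (finsum_congr h5).trans finsum_zero
        rw [h4, mul_zero]
        exact hE₁
      · have h4 := (hs0 j hjM hj).2
        have h5 : (![aeval z (linP Z A (s j)), aeval z (linP Z A j)] : Fin 2 → L) =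
            fun i => aeval z (linP Z A (s j)) * (![1, b j] : Fin 2 → L) i := by
          funext i
          fin_cases i
          · simp
          · simp [hb1 j hjM hj, mul_div_cancel₀ _ h4]
        have h6 : height κ ![aeval z (linP Z A (s j)), aeval z (linP Z A j)] =
            height κ ![1, b j] := by
          rw [h5]
          exact hL.height_smul h4
        rw [← h6, hsN j hjM]
        exact (hs₀ j hjM hj).2)
  rw [hhy₁] at h3
  have he : (0 : ℤ) ≤ e := Int.natCast_nonneg _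
  have h4 := mul_le_mul_of_nonneg_left hle he
  push_cast
  linarith

end Pool.Agent.Lib.MP_44a246_ntFG
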