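import Mathlib
import Pool.Agent.Lib.MP_44a246_ntMS.MS03
import Pool.Agent.Lib.MP_44a246_ntMS.MS05
import Pool.Agent.Lib.MP_44a246_ntFP.FP09

/-!
Derivations whose values at the coefficients have the largest rank for all sets of coefficients.
-/

namespace Pool.Agent.Lib.MP_44a246_ntFG

open Pool.Agent.Lib.MP_44a246_nt
open Pool.Agent.Lib.MP_44a246_ntL
open Pool.Agent.Lib.MP_44a246_ntMS
open Pool.Agent.Lib.MP_44a246_ntFP
open WithZero MvPolynomial

universe u v

/-- common values where finitely many polynomials do not vanish -/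
theorem exists_ne_zero {K σ ι : Type*} [Field K] [Infinite K] [Fintype ι]
    (F : ι → MvPolynomial σ K) (hF : ∀ i, ∃ z, eval z (F i) ≠ 0) :
    ∃ z, ∀ i, eval z (F i) ≠ 0 := by
  classical
  have h1 : (∏ i, F i) ≠ 0 := by
    refine Finset.prod_ne_zero_iff.2 fun i _ h0 => ?_
    obtain ⟨z, hz⟩ := hF i
    exact hz (by rw [h0, map_zero])
  by_contra hcon
  push Not at hcon
  apply h1
  refine MvPolynomial.funext fun z => ?_
  obtain ⟨i, hi⟩ := hcon z
  rw [map_zero, map_prod]
  exact Finset.prod_eq_zero (Finset.mem_univ i) hi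

/-- algebraically independent elements of a family -/
theorem exists_ind_family {k K : Type*} [Field k] [Field K] [Algebra k K] {q i : ℕ}
    {a : Fin q → K} {S : Finset (Fin q)}
    (h : (i : Cardinal) ≤ Algebra.trdeg k (IntermediateField.adjoin k (a '' S))) :
    ∃ σ : Fin i → Fin q, (∀ j, σ j ∈ S) ∧ AlgebraicIndependent k fun j => a (σ j) := by
  classical
  obtain ⟨F, hF⟩ : ∃ F : IntermediateField k K, F = IntermediateField.adjoin k (a '' S) :=
    ⟨_, rfl⟩
  rw [← hF] at h
  obtain ⟨z, hz⟩ : ∃ z : S → F, ∀ j, (z j : K) = a j := ⟨fun j => ⟨a j, by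
    rw [hF]
    exact IntermediateField.subset_adjoin k _ ⟨j, j.2, rfl⟩⟩, fun _ => rfl⟩
  have htop : IntermediateField.adjoin k (Set.range z) = ⊤ := by
    have h1 : (IntermediateField.adjoin k (Set.range z)).map F.val = F := by
      rw [IntermediateField.adjoin_map]
      conv_rhs => rw [hF]
      congr 1
      ext y
      constructor
      · rintro ⟨_, ⟨j, rfl⟩, rfl⟩
        exact ⟨j, j.2, (hz j).symm⟩
      · rintro ⟨j, hj, rfl⟩
        exact ⟨z ⟨j, hj⟩, ⟨⟨j, hj⟩, rfl⟩, hz _⟩
    rw [eq_top_iff]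
    intro y _
    have h2 : (y : K) ∈ (IntermediateField.adjoin k (Set.range z)).map F.val := by
      rw [h1]
      exact y.2
    obtain ⟨y', hy', hyy⟩ := h2
    have h3 : y' = y := Subtype.ext hyy
    rw [← h3]
    exact hy'
  have halg : Algebra.IsAlgebraic (Algebra.adjoin k (Set.range z)) F := by
    refine ⟨fun y => ?_⟩
    have h1 : y ∈ IntermediateField.adjoin k (Set.range z) := by rw [htop]; trivial
    obtain ⟨p, hp, q, hq, rfl⟩ := IntermediateField.mem_adjoin_iff_div.mp h1
    have h2 : IsAlgebraic (Algebra.adjoin k (Set.range z)) p :=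
      isAlgebraic_algebraMap (A := F) (⟨p, hp⟩ : Algebra.adjoin k (Set.range z))
    have h3 : IsAlgebraic (Algebra.adjoin k (Set.range z)) q :=
      isAlgebraic_algebraMap (A := F) (⟨q, hq⟩ : Algebra.adjoin k (Set.range z))
    rw [div_eq_mul_inv]
    exact h2.mul h3.inv
  obtain ⟨s, hs, hb⟩ := exists_isTranscendenceBasis_subset (R := k) (A := F) (Set.range z)
  choose g hg using fun y : s => hs y.2
  have hi : (i : Cardinal) ≤ Cardinal.mk s := by
    rw [hb.cardinalMk_eq_trdeg]
    exact h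
  obtain ⟨t, ht⟩ := Cardinal.exists_finset_le_card s i hi
  obtain ⟨t', ht', hti⟩ := Finset.exists_subset_card_eq ht
  have hsK : AlgebraicIndependent k fun y : s => (y.1 : K) :=
    hb.1.map' (f := F.val) F.val.injective
  refine ⟨fun j => (g ((t'.equivFinOfCardEq hti).symm j).1).1, fun j => (g _).2, ?_⟩
  have h1 : (fun j : Fin i => a (g ((t'.equivFinOfCardEq hti).symm j).1).1) =
      (fun y : s => (y.1 : K)) ∘ fun j => ((t'.equivFinOfCardEq hti).symm j).1 := by
    funext j
    show a (g _).1 = _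
    rw [← hz, hg]
    rfl
  rw [h1]
  exact hsK.comp _ (Subtype.val_injective.comp (Equiv.injective _))

/-- **Derivations whose values at the coefficients have the largest rank** for all sets of
coefficients. -/
theorem exists_ders_gen {κ : Type u} {K : Type v} [Field κ] [IsAlgClosed κ] [CharZero κ]
    [Field K] [CharZero K] [Algebra κ K] (hK : IsFF κ K) {k : Type*} [Field k] [CharZero k]
    [Algebra k K] (hk : Algebra.trdeg ℚ k < Cardinal.aleph0) {q τ : ℕ} (a : Fin q → K) :
    ∃ (E : Fin τ → Derivation ℤ K K) (B : Place κ K → ℕ),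
      (Function.support B).Finite ∧ (∀ l, PoleBound κ (E l) B) ∧
      (∀ l, ∀ u : k, E l (algebraMap k K u) = 0) ∧
      ∀ (i : ℕ) (hi : i ≤ τ) (S : Finset (Fin q)),
        (i : Cardinal) ≤ Algebra.trdeg k (IntermediateField.adjoin k (a '' S)) →
        ∃ σ : Fin i → Fin q, (∀ l, σ l ∈ S) ∧
          (Matrix.of fun l l' : Fin i => E (Fin.castLE hi l) (a (σ l'))).det ≠ 0 := by
  classical
  obtain ⟨Q, hQ⟩ : ∃ Q : Fin (τ + 1) × Finset (Fin q) → Prop, ∀ p, Q p ↔
      ((p.1 : ℕ) : Cardinal) ≤ Algebra.trdeg k (IntermediateField.adjoin k (a '' p.2)) :=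
    ⟨_, fun _ => Iff.rfl⟩
  choose σ hσS hσ using fun p : {p // Q p} => exists_ind_family ((hQ p.1).1 p.2)
  choose D B hB hPB hD hDk using fun p : {p // Q p} => exists_ders hK hk (hσ p)
  have hle : ∀ p : {p // Q p}, (p.1.1 : ℕ) ≤ τ := fun p => by
    have := p.1.1.2
    omega
  -- the combinations
  obtain ⟨M, hM⟩ : ∃ M : ∀ p : {p // Q p}, Matrix (Fin p.1.1) (Fin p.1.1)
      (MvPolynomial (Fin τ × (Σ p : {p // Q p}, Fin p.1.1)) K),
      ∀ p l l', M p l l' = ∑ t : (Σ p : {p // Q p}, Fin p.1.1), X (Fin.castLE (hle p) l, t) *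
        C (D t.1 t.2 (a (σ p l'))) := ⟨fun p l l' => _, fun _ _ _ => rfl⟩
  obtain ⟨lam, hlam⟩ := exists_ne_zero (fun p => (M p).det) (fun p => by
    refine ⟨fun s => if (s.1 : ℕ) = s.2.2 ∧ s.2.1 = p then 1 else 0, ?_⟩
    rw [RingHom.map_det]
    have h1 : (eval fun s : Fin τ × (Σ p : {p // Q p}, Fin p.1.1) =>
        if (s.1 : ℕ) = s.2.2 ∧ s.2.1 = p then (1 : K) else 0).mapMatrix (M p) = 1 := by
      ext l l'
      rw [RingHom.mapMatrix_apply, Matrix.map_apply, hM, map_sum,
        Finset.sum_eq_single ⟨p, l⟩ (fun t _ ht => by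
          rw [map_mul, eval_X, if_neg, zero_mul]
          rintro ⟨h1, h2⟩
          apply ht
          obtain ⟨t1, t2⟩ := t
          obtain rfl : t1 = p := h2
          have h3 : t2 = l := by
            apply Fin.ext
            simp only [Fin.val_castLE] at h1
            exact h1.symm
          rw [h3]) (fun h => absurd (Finset.mem_univ _) h),
        map_mul, eval_X, eval_C, if_pos ⟨by simp, rfl⟩, one_mul, Matrix.one_apply]
      exact hD p l l'
    rw [h1, Matrix.det_one]
    exact one_ne_zero)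
  obtain ⟨A, hA, hAb⟩ := exists_poly_bound hK
    (fun s : Fin τ × (Σ p : {p // Q p}, Fin p.1.1) => (C (lam s) : MvPolynomial (Fin 1) K))
  refine ⟨fun l => combD (fun t => lam (l, t)) fun t => D t.1 t.2,
    fun v => A v + ∑ p, B p v, ?_, fun l v y hy => ?_, fun l u => ?_, fun i hi S hS => ?_⟩
  · refine (hA.union (Set.finite_iUnion fun p => hB p)).subset fun v hv => ?_
    rw [Function.mem_support] at hv
    by_cases h0 : A v = 0
    · rw [h0, zero_add] at hv
      obtain ⟨p, -, hp⟩ := Finset.exists_ne_zero_of_sum_ne_zero hv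
      exact Or.inr (Set.mem_iUnion.2 ⟨p, hp⟩)
    · exact Or.inl h0
  · rw [combD_apply]
    refine Valuation.map_sum_le _ fun t _ => ?_
    rw [map_mul]
    have h1 := hAb (l, t) 0 v
    rw [coeff_C, if_pos rfl] at h1
    refine (mul_le_mul' h1 (hPB t.1 t.2 v y hy)).trans ?_
    rw [← exp_add, exp_le_exp]
    have h2 : B t.1 v ≤ ∑ p, B p v :=
      Finset.single_le_sum (f := fun p => B p v) (fun _ _ => Nat.zero_le _) (Finset.mem_univ t.1)
    have h3 : A v + B t.1 v ≤ A v + ∑ p, B p v := Nat.add_le_add_left h2 _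
    exact_mod_cast h3
  · rw [combD_apply]
    exact Finset.sum_eq_zero fun t _ => by rw [hDk, mul_zero]
  · have hQp : Q ((⟨i, by omega⟩ : Fin (τ + 1)), S) := by
      rw [hQ]
      exact hS
    obtain ⟨p, hp⟩ : ∃ p : {p // Q p}, p.1 = ((⟨i, by omega⟩ : Fin (τ + 1)), S) :=
      ⟨⟨_, hQp⟩, rfl⟩
    have hpi : (p.1.1 : ℕ) = i := by rw [hp]
    have hpS : p.1.2 = S := by rw [hp]
    subst hpi
    subst hpS
    refine ⟨σ p, hσS p, ?_⟩
    have h1 := hlam p
    rw [RingHom.map_det] at h1
    convert h1 using 2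
    ext l l'
    rw [Matrix.of_apply, combD_apply, RingHom.mapMatrix_apply, Matrix.map_apply, hM, map_sum]
    refine Finset.sum_congr rfl fun t _ => ?_
    rw [map_mul, eval_X, eval_C]


/-- only few of the coefficients of the relation are zero -/
theorem not_le_trdeg {k K L : Type*} [Field k] [Field K] [Field L] [Algebra k K] [Algebra K L]
    {τ q i : ℕ} {E : Fin τ → Derivation ℤ K K} {a : Fin q → K} (hi : i ≤ τ)
    (h : ∀ S : Finset (Fin q),
      (i : Cardinal) ≤ Algebra.trdeg k (IntermediateField.adjoin k (a '' S)) →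
      ∃ σ : Fin i → Fin q, (∀ l, σ l ∈ S) ∧
        (Matrix.of fun l l' : Fin i => E (Fin.castLE hi l) (a (σ l'))).det ≠ 0)
    {M : Fin i → L} (hM : M ≠ 0) {S : Finset (Fin q)}
    (hS : ∀ j ∈ S, ∑ l, M l * algebraMap K L (E (Fin.castLE hi l) (a j)) = 0) :
    Algebra.trdeg k (IntermediateField.adjoin k (a '' S)) < i := by
  classical
  by_contra hcon
  obtain ⟨σ, hσ, hdet⟩ := h S (not_lt.1 hcon)
  apply hdet
  apply (algebraMap K L).injective
  rw [map_zero, RingHom.map_det]
  refine Matrix.exists_vecMul_eq_zero_iff.1 ⟨M, hM, ?_⟩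
  funext l'
  exact hS (σ l') (hσ l')

end Pool.Agent.Lib.MP_44a246_ntFG
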