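import Mathlib
import Pool.Agent.Lib.MP_44a246_ntFP.FP03

/-!
Every term of a relation with powers has a partner: a second term such that the quotient of the two
values has a small height.
-/

namespace Pool.Agent.Lib.MP_44a246_ntFG

open Pool.Agent.Lib.MP_44a246_nt
open Pool.Agent.Lib.MP_44a246_ntL
open Pool.Agent.Lib.MP_44a246_ntY
open Pool.Agent.Lib.MP_44a246_ntFP
open WithZero

variable {κ L : Type*} [Field κ] [Field L] [Algebra κ L]

/-- a minimal relation over the constants which contains a given element -/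
theorem exists_min_at {ι : Type*} [Fintype ι] {v : ι → L} (hv : ∀ i, v i ≠ 0) {c : ι → κ}
    {i₀ : ι} (hc : c i₀ ≠ 0) (hsum : ∑ i, c i • v i = 0) :
    ∃ (m : ℕ) (e : Fin (m + 1) → ι), 1 ≤ m ∧ Function.Injective e ∧ (∃ t, e t = i₀) ∧
      (∀ i : Fin (m + 1), LinearIndependent κ (fun j : Fin m => v (e (i.succAbove j)))) ∧
      ∀ i : Fin (m + 1), v (e i) ∈
        Submodule.span κ (Set.range (fun j : Fin m => v (e (i.succAbove j)))) := by
  classical
  -- the relations of minimal support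
  have hex : ∃ N, ∃ c : ι → κ, c i₀ ≠ 0 ∧ ∑ i, c i • v i = 0 ∧
      (Finset.univ.filter fun i => c i ≠ 0).card = N := ⟨_, c, hc, hsum, rfl⟩
  obtain ⟨c, hc, hsum, hN⟩ := Nat.find_spec hex
  have hmin' : ∀ c' : ι → κ, ∑ i, c' i • v i = 0 →
      (Finset.univ.filter fun i => c' i ≠ 0).card < Nat.find hex → c' i₀ = 0 := by
    intro c' h1 h2
    by_contra h3
    exact Nat.find_min hex h2 ⟨c', h3, h1, rfl⟩
  obtain ⟨N, hNN⟩ : ∃ N, N = Nat.find hex := ⟨_, rfl⟩
  rw [← hNN] at hN hmin'
  obtain ⟨S, hS⟩ : ∃ S : Finset ι, S = Finset.univ.filter fun i => c i ≠ 0 := ⟨_, rfl⟩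
  rw [← hS] at hN
  have hmemS : ∀ i, i ∈ S ↔ c i ≠ 0 := by
    intro i
    rw [hS]
    simp
  -- a relation with a smaller support is trivial
  have hmin : ∀ (c' : ι → κ) (i : ι), ∑ i, c' i • v i = 0 → i ∈ S →
      (Finset.univ.filter fun i => c' i ≠ 0) ⊆ S.erase i → c' = 0 := by
    intro c' i h1 hi h2
    by_contra h3
    have h4 : (Finset.univ.filter fun i => c' i ≠ 0).card < N := by
      have h5 := Finset.card_le_card h2
      rw [Finset.card_erase_of_mem hi, hN] at h5
      have h6 : 0 < S.card := Finset.card_pos.2 ⟨i, hi⟩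
      omega
    have h5 := hmin' c' h1 h4
    obtain ⟨l, hl⟩ : ∃ l, c' l ≠ 0 := by
      by_contra h6
      push Not at h6
      exact h3 (funext h6)
    obtain ⟨c'', hc''⟩ : ∃ c'' : ι → κ, c'' = fun i => c i - c l / c' l * c' i := ⟨_, rfl⟩
    have h6 : ∑ i, c'' i • v i = 0 := by
      rw [hc'']
      simp only [sub_smul, mul_smul, Finset.sum_sub_distrib]
      rw [hsum, ← Finset.smul_sum, h1, smul_zero, sub_zero]
    have h7 : (Finset.univ.filter fun i => c'' i ≠ 0) ⊆ S.erase l := by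
      intro i' hi'
      rw [Finset.mem_filter, hc''] at hi'
      have h8 := hi'.2
      simp only at h8
      rw [Finset.mem_erase, hmemS]
      constructor
      · rintro rfl
        apply h8
        rw [div_mul_cancel₀ _ hl, sub_self]
      · intro h9
        have h10 : c' i' ≠ 0 := by
          intro h11
          rw [h9, h11, mul_zero, sub_zero] at h8
          exact h8 rfl
        have h11 := h2 (Finset.mem_filter.2 ⟨Finset.mem_univ _, h10⟩)
        exact (hmemS i').1 (Finset.mem_of_mem_erase h11) h9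
    have hlS : l ∈ S := Finset.mem_of_mem_erase (h2 (Finset.mem_filter.2 ⟨Finset.mem_univ _, hl⟩))
    have h8 : (Finset.univ.filter fun i => c'' i ≠ 0).card < N := by
      have h9 := Finset.card_le_card h7
      rw [Finset.card_erase_of_mem hlS, hN] at h9
      have h10 : 0 < S.card := Finset.card_pos.2 ⟨i, hi⟩
      omega
    have h9 := hmin' c'' h6 h8
    rw [hc''] at h9
    simp only [h5, mul_zero, sub_zero] at h9
    exact hc h9
  have hsumS : ∑ i ∈ S, c i • v i = 0 := by
    rw [← hsum]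
    refine Finset.sum_subset (Finset.subset_univ _) fun i _ hi => ?_
    rw [hmemS, not_not] at hi
    rw [hi, zero_smul]
  have hi₀S : i₀ ∈ S := (hmemS i₀).2 hc
  have hS2 : 2 ≤ S.card := by
    by_contra hcon
    have h0 : 0 < S.card := Finset.card_pos.2 ⟨i₀, hi₀S⟩
    have h1 : S.card = 1 := by omega
    obtain ⟨i, hi⟩ := Finset.card_eq_one.1 h1
    rw [hi, Finset.sum_singleton] at hsumS
    have h2 : c i ≠ 0 := (hmemS i).1 (by rw [hi]; simp)
    rcases smul_eq_zero.1 hsumS with h3 | h3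
    · exact h2 h3
    · exact hv i h3
  obtain ⟨m, hm⟩ : ∃ m, S.card = m + 1 := ⟨S.card - 1, by omega⟩
  obtain ⟨e, heS⟩ : ∃ e : Fin (m + 1) ≃ S, True :=
    ⟨(Finset.equivFinOfCardEq hm).symm, trivial⟩
  have heinj : Function.Injective fun i => (e i : ι) := fun i j h => e.injective (Subtype.ext h)
  have hcs : ∀ i : Fin (m + 1), c (e i) ≠ 0 := fun i => (hmemS _).1 (e i).2
  have hsume : ∑ i : Fin (m + 1), c (e i) • v (e i) = 0 := by
    rw [← hsumS, ← Finset.sum_coe_sort S (fun i => c i • v i)]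
    exact Equiv.sum_comp e (fun i : S => c i • v i)
  refine ⟨m, fun i => (e i : ι), by omega, heinj, ⟨e.symm ⟨i₀, hi₀S⟩, by
    simp only [Equiv.apply_symm_apply]⟩, ?_, ?_⟩
  · intro i
    rw [Fintype.linearIndependent_iff]
    intro g hg j
    obtain ⟨c', hc'⟩ : ∃ c' : ι → κ, c' = fun l => ∑ j : Fin m,
      if (e (i.succAbove j) : ι) = l then g j else 0 := ⟨_, rfl⟩
    have h1 : ∀ j, c' (e (i.succAbove j)) = g j := by
      intro j
      rw [hc']
      show ∑ j' : Fin m, (if (e (i.succAbove j') : ι) = (e (i.succAbove j) : ι) then g j' else 0) =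
        g j
      rw [Finset.sum_eq_single j]
      · rw [if_pos rfl]
      · intro j' _ hj'
        rw [if_neg]
        intro h2
        exact hj' (Fin.succAbove_right_injective (heinj h2))
      · intro h2
        exact absurd (Finset.mem_univ _) h2
    have h2 : ∑ l, c' l • v l = 0 := by
      rw [← hg, hc']
      simp only [Finset.sum_smul, ite_smul, zero_smul]
      rw [Finset.sum_comm]
      refine Finset.sum_congr rfl fun j _ => ?_
      rw [Finset.sum_ite_eq]
      simp
    have h3 : (Finset.univ.filter fun l => c' l ≠ 0) ⊆ S.erase (e i) := by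
      intro l hl
      rw [Finset.mem_filter] at hl
      obtain ⟨j', -, hj'⟩ := Finset.exists_ne_zero_of_sum_ne_zero (by
        rw [hc'] at hl
        exact hl.2 : ∑ j : Fin m, (if (e (i.succAbove j) : ι) = l then g j else 0) ≠ 0)
      have h5 : (e (i.succAbove j') : ι) = l := by
        by_contra h6
        rw [if_neg h6] at hj'
        exact hj' rfl
      rw [Finset.mem_erase, ← h5]
      refine ⟨fun h6 => ?_, (e (i.succAbove j')).2⟩
      exact Fin.succAbove_ne i j' (heinj h6)
    have h4 := hmin c' (e i) h2 (e i).2 h3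
    rw [← h1 j, h4]
    rfl
  · intro i
    rw [Fin.sum_univ_succAbove _ i] at hsume
    have h1 : v (e i) = -((c (e i))⁻¹ • ∑ j : Fin m, c (e (i.succAbove j)) •
        v (e (i.succAbove j))) := by
      have h2 : c (e i) • v (e i) = -∑ j : Fin m, c (e (i.succAbove j)) •
        v (e (i.succAbove j)) := by
        rw [eq_neg_iff_add_eq_zero]
        exact hsume
      rw [← smul_neg, ← h2, smul_smul, inv_mul_cancel₀ (hcs i), one_smul]
    rw [h1]
    refine Submodule.neg_mem _ (Submodule.smul_mem _ _ (Submodule.sum_mem _ fun j _ =>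
      Submodule.smul_mem _ _ (Submodule.subset_span ⟨j, rfl⟩)))

/-- **Every term has a partner.** -/
theorem exists_partner [IsAlgClosed κ] [CharZero κ] (h : IsFF κ L) (D : Derivation κ L L)
    (hD0 : ∀ y, D y = 0 → ∃ c, algebraMap κ L c = y) {β : Place κ L → ℕ}
    (hβ : (Function.support β).Finite)
    (hDβ : ∀ (w : Place κ L) (y : L), w.1 y ≤ 1 → w.1 (D y) ≤ exp (β w : ℤ)) {ι : Type*}
    [Fintype ι] {M u : ι → L} (hu : u ≠ 0) (hM : M ≠ 0) {e : ℕ}
    (hsum : ∑ i, M i * u i ^ e = 0) (he : 1 ≤ e) {i₀ : ι} (hi₀ : M i₀ ≠ 0) (hui₀ : u i₀ ≠ 0) :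
    ∃ j, i₀ ≠ j ∧ M j ≠ 0 ∧ u j ≠ 0 ∧ (e : ℤ) * height κ ![u i₀, u j] ≤ height κ M +
      tri (Fintype.card ι - 1) * (Fintype.card ι * (height κ M + height κ u) +
        ∑ᶠ w, (β w : ℤ)) := by
  classical
  obtain ⟨v, hv⟩ : ∃ v : ι → L, v = fun i => M i * u i ^ e := ⟨_, rfl⟩
  obtain ⟨m, ε, hm, hinj, ⟨t₀, ht₀⟩, hind, hspan⟩ := exists_min_at (κ := κ)
    (ι := {i // M i ≠ 0 ∧ u i ≠ 0}) (v := fun i => v i) (fun i => by
      rw [hv]
      exact mul_ne_zero i.2.1 (pow_ne_zero _ i.2.2)) (c := fun _ => 1) (i₀ := ⟨i₀, hi₀, hui₀⟩)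
    one_ne_zero (by
      simp only [one_smul]
      rw [← Finset.sum_subtype (Finset.univ.filter fun i => M i ≠ 0 ∧ u i ≠ 0) (by simp)
        (fun i => v i)]
      refine Eq.trans ?_ hsum
      rw [hv]
      refine Finset.sum_subset (Finset.subset_univ _) fun i _ hi => ?_
      rw [Finset.mem_filter, not_and] at hi
      have h1 := hi (Finset.mem_univ _)
      rw [not_and_or, not_not, not_not] at h1
      rcases h1 with h1 | h1
      · rw [h1, zero_mul]
      · rw [h1, zero_pow (by omega), mul_zero])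
  obtain ⟨q, hq⟩ : ∃ q : Fin (m + 1) → ι, q = fun i => (ε i : ι) := ⟨_, rfl⟩
  have hqi : Function.Injective q := by
    rw [hq]
    exact fun i j h1 => hinj (Subtype.ext h1)
  have hMq : ∀ i, M (q i) ≠ 0 := by
    intro i
    rw [hq]
    exact (ε i).2.1
  have huq : ∀ i, u (q i) ≠ 0 := by
    intro i
    rw [hq]
    exact (ε i).2.2
  have hqt : q t₀ = i₀ := by
    rw [hq]
    exact congrArg Subtype.val ht₀
  have hvq : ∀ i, v (q i) ≠ 0 := by
    intro i
    rw [hv]
    exact mul_ne_zero (hMq i) (pow_ne_zero _ (huq i))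
  have habc := abc_min h D hD0 hβ hDβ (v := fun i => v (q i)) hvq
    (by rw [hq]; exact hind) (by rw [hq]; exact hspan)
  have hcard : m + 1 ≤ Fintype.card ι := by
    have h1 := Fintype.card_le_of_injective q hqi
    rwa [Fintype.card_fin] at h1
  obtain ⟨hM1, hM2⟩ := ncard_unbal h (M := fun i => M (q i)) hMq
  obtain ⟨hu1, hu2⟩ := ncard_unbal h (M := fun i => u (q i)) huq
  have hMq0 : (fun i => M (q i)) ≠ 0 := fun h0 => hMq 0 (congrFun h0 0)
  have huq0 : (fun i => u (q i)) ≠ 0 := fun h0 => huq 0 (congrFun h0 0)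
  have hvq0 : (fun i => v (q i)) ≠ 0 := fun h0 => hvq 0 (congrFun h0 0)
  have hsub : {w : Place κ L | ∃ i, w.1 (v (q i)) ≠ vmax w.1 fun i => v (q i)} ⊆
      {w : Place κ L | ∃ i, w.1 (M (q i)) ≠ vmax w.1 fun i => M (q i)} ∪
      {w : Place κ L | ∃ i, w.1 (u (q i)) ≠ vmax w.1 fun i => u (q i)} := by
    intro w hw
    by_contra hcon
    rw [Set.mem_union, not_or, Set.mem_ofPred_eq, Set.mem_ofPred_eq] at hcon
    obtain ⟨h1, h2⟩ := hcon
    push Not at h1 h2
    obtain ⟨i, hi⟩ := hw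
    apply hi
    have h3 : ∀ j, w.1 (v (q j)) = w.1 (v (q i)) := by
      intro j
      rw [hv]
      show w.1 (M (q j) * u (q j) ^ e) = w.1 (M (q i) * u (q i) ^ e)
      rw [map_mul, map_mul, map_pow, map_pow, h1 j, h1 i, h2 j, h2 i]
    refine le_antisymm (le_vmax w.1 (fun i => v (q i)) i) (vmax_le w.1 fun j => ?_)
    rw [h3 j]
  have hcount : (({w : Place κ L | ∃ i, w.1 (v (q i)) ≠ vmax w.1 fun i => v (q i)}.ncard : ℕ) :
      ℤ) ≤ (m + 1) * (height κ (fun i => M (q i)) + height κ (fun i => u (q i))) := by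
    have h1 := (Set.ncard_le_ncard hsub (hM1.union hu1)).trans (Set.ncard_union_le _ _)
    have h2 : (({w : Place κ L | ∃ i, w.1 (v (q i)) ≠ vmax w.1 fun i => v (q i)}.ncard : ℕ) :
      ℤ) ≤ _ := Int.ofNat_le.2 h1
    rw [Nat.cast_add] at h2
    rw [Fintype.card_fin] at hM2 hu2
    push_cast at hM2 hu2
    linarith
  have hhM := height_comp_le h q hMq0
  have hhu := height_comp_le h q huq0
  have nM := h.height_nonneg hMq0
  have nu := h.height_nonneg huq0
  have nβ : 0 ≤ ∑ᶠ w, (β w : ℤ) := finsum_nonneg fun w => Int.natCast_nonneg _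
  obtain ⟨T, hT⟩ : ∃ T : ℤ, T = ((Fintype.card ι : ℕ) : ℤ) * (height κ M + height κ u) +
      ∑ᶠ w, (β w : ℤ) := ⟨_, rfl⟩
  have h1 : height κ (fun i => v (q i)) ≤ tri (Fintype.card ι - 1) * T := by
    refine habc.trans ?_
    have h2 : (tri m : ℤ) ≤ tri (Fintype.card ι - 1) := by
      exact_mod_cast tri_mono (by omega : m ≤ Fintype.card ι - 1)
    refine mul_le_mul h2 ?_ ?_ (Int.natCast_nonneg _)
    · rw [hT]
      refine add_le_add (hcount.trans ?_) le_rfl
      refine mul_le_mul ?_ (add_le_add hhM hhu) (add_nonneg nM nu) (Int.natCast_nonneg _)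
      exact_mod_cast hcard
    · exact add_nonneg (Int.natCast_nonneg _) nβ
  obtain ⟨l, hl⟩ : ∃ l : Fin (m + 1), l ≠ t₀ := by
    by_contra h2
    push Not at h2
    have h3 := (h2 0).trans (h2 ⟨1, by omega⟩).symm
    have h4 := congrArg Fin.val h3
    simp at h4
  refine ⟨q l, fun h2 => hl (hqi (by rw [hqt]; exact h2.symm)), hMq l, huq l, ?_⟩
  rw [← hT, ← hqt]
  have hpair0 : (![u (q t₀), u (q l)] : Fin 2 → L) ≠ 0 := by
    intro h2
    exact huq _ (congrFun h2 0)
  -- the local inequality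
  have hloc : ∀ w : Place κ L, (e : ℤ) * log (vmax w.1 ![u (q t₀), u (q l)]) ≤
      (log (vmax w.1 fun i => v (q i)) + log (vmax w.1 fun i => M (q i))) -
        (log (w.1 (M (q t₀))) + log (w.1 (M (q l)))) := by
    intro w
    have hw0 : w.1 (M (q t₀)) ≠ 0 := (Valuation.ne_zero_iff _).2 (hMq t₀)
    have hwl : w.1 (M (q l)) ≠ 0 := (Valuation.ne_zero_iff _).2 (hMq l)
    have hwv : vmax w.1 (fun i => v (q i)) ≠ 0 := fun h0 => hvq0 (vmax_eq_zero_iff w.1 |>.1 h0)
    have hwM : vmax w.1 (fun i => M (q i)) ≠ 0 := fun h0 => hMq0 (vmax_eq_zero_iff w.1 |>.1 h0)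
    have hwp : vmax w.1 ![u (q t₀), u (q l)] ≠ 0 := fun h0 => hpair0 (vmax_eq_zero_iff w.1 |>.1 h0)
    have h2 : ∀ i, w.1 (u (q i)) ^ e * w.1 (M (q i)) ≤ vmax w.1 fun i => v (q i) := by
      intro i
      have h3 := le_vmax w.1 (fun i => v (q i)) i
      rw [hv] at h3 ⊢
      simp only [map_mul, map_pow] at h3
      rw [mul_comm]
      exact h3
    have h4 : vmax w.1 ![u (q t₀), u (q l)] ^ e * (w.1 (M (q t₀)) * w.1 (M (q l))) ≤
        (vmax w.1 fun i => v (q i)) * (vmax w.1 fun i => M (q i)) := by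
      rw [vmax_two]
      rcases le_total (w.1 (u (q t₀))) (w.1 (u (q l))) with h5 | h5
      · rw [max_eq_right h5]
        calc w.1 (u (q l)) ^ e * (w.1 (M (q t₀)) * w.1 (M (q l))) =
            (w.1 (u (q l)) ^ e * w.1 (M (q l))) * w.1 (M (q t₀)) := by
              rw [mul_comm (w.1 (M (q t₀))), mul_assoc]
          _ ≤ _ := mul_le_mul' (h2 l) (le_vmax w.1 (fun i => M (q i)) t₀)
      · rw [max_eq_left h5]
        calc w.1 (u (q t₀)) ^ e * (w.1 (M (q t₀)) * w.1 (M (q l))) =
            (w.1 (u (q t₀)) ^ e * w.1 (M (q t₀))) * w.1 (M (q l)) := by rw [mul_assoc]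
          _ ≤ _ := mul_le_mul' (h2 t₀) (le_vmax w.1 (fun i => M (q i)) l)
    have h5 := (log_le_log (mul_ne_zero (pow_ne_zero _ hwp) (mul_ne_zero hw0 hwl))
      (mul_ne_zero hwv hwM)).2 h4
    rw [log_mul (pow_ne_zero _ hwp) (mul_ne_zero hw0 hwl), log_mul hw0 hwl, log_mul hwv hwM,
      log_pow, nsmul_eq_mul] at h5
    linarith
  have s1 := h.vmax_support hpair0
  have s1' : (Function.support fun w : Place κ L =>
      (e : ℤ) * log (vmax w.1 ![u (q t₀), u (q l)])).Finite := by
    refine s1.subset fun w hw h2 => hw ?_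
    simp only at h2 ⊢
    rw [h2, mul_zero]
  have s2 := (h.vmax_support hvq0).union (h.vmax_support hMq0)
  have s2' : (Function.support fun w : Place κ L => log (vmax w.1 fun i => v (q i)) +
      log (vmax w.1 fun i => M (q i))).Finite := s2.subset (Function.support_add _ _)
  have s3 := (h.place_support (hMq t₀)).union (h.place_support (hMq l))
  have s3' : (Function.support fun w : Place κ L => log (w.1 (M (q t₀))) +
      log (w.1 (M (q l)))).Finite := s3.subset (Function.support_add _ _)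
  have hmain := finsum_mono s1' ((s2'.union s3').subset (Function.support_sub _ _)) hloc
  rw [← mul_finsum _ _, finsum_sub_distrib s2' s3', finsum_add_distrib (h.vmax_support hvq0)
    (h.vmax_support hMq0), finsum_add_distrib (h.place_support (hMq t₀))
    (h.place_support (hMq l)), h.product_formula (hMq t₀), h.product_formula (hMq l),
    add_zero, sub_zero] at hmain
  have e1 : ∑ᶠ w : Place κ L, log (vmax w.1 ![u (q t₀), u (q l)]) =
      height κ ![u (q t₀), u (q l)] := rfl
  have e2 : ∑ᶠ w : Place κ L, log (vmax w.1 fun i => v (q i)) =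
      height κ fun i => v (q i) := rfl
  have e3 : ∑ᶠ w : Place κ L, log (vmax w.1 fun i => M (q i)) =
      height κ fun i => M (q i) := rfl
  rw [e1, e2, e3] at hmain
  linarith

end Pool.Agent.Lib.MP_44a246_ntFG
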