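import Mathlib
import Pool.Agent.Lib.MP_44a246_ntFP.FP12
import Pool.Agent.Lib.MP_44a246_ntFG.FG20

/-!
Partners: for every term of the relation between the powers of the values of the forms at a point
there is a second term such that the quotient of the two values has a small height.
-/

namespace Pool.Agent.Lib.MP_44a246_ntFG

open Pool.Agent.Lib.MP_44a246_nt
open Pool.Agent.Lib.MP_44a246_ntL
open Pool.Agent.Lib.MP_44a246_ntX
open Pool.Agent.Lib.MP_44a246_ntFP
open WithZero MvPolynomial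

/-- **Partners**, from a relation with coefficients of bounded height. -/
theorem partner_of_rel {κ K L : Type*} [Field κ] [IsAlgClosed κ] [CharZero κ] [Field K] [CharZero K]
    [Algebra κ K] (hK : IsFF κ K) [Field L] [CharZero L] [Algebra K L] [FiniteDimensional K L]
    [Algebra κ L] [IsScalarTower κ K L] {k₀ : Type*} [Field k₀] [CharZero k₀] [Algebra k₀ K]
    [Algebra k₀ L] [IsScalarTower k₀ K L] {ι : Type*} [Fintype ι] {E : ι → Derivation ℤ K K}
    {A B₀ : Place κ K → ℕ} (hA : (Function.support A).Finite) (hB₀ : (Function.support B₀).Finite)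
    {D₀ : Derivation κ K K} (hD₀ : D₀ ≠ 0) (hPB₀ : PoleBound κ (D₀.restrictScalars ℤ) B₀)
    {N q dP : ℕ} {P : Fin q → MvPolynomial (Fin N) k₀} (hP : ∀ j, (P j).IsHomogeneous dP)
    (hPA : ∀ j m (v : Place κ K), v.1 (algebraMap k₀ K (coeff m (P j))) ≤ exp (A v : ℤ))
    {a : Fin q → K} {e : ℕ} (he : 1 ≤ e) {ν : ℕ} (hq : q = ν + 1)
    (hEA : ∀ l j (v : Place κ K), v.1 (E l (a j)) ≤ exp (A v : ℤ))
    {j₀ : Fin N} {x : Fin N → L} (hx : x j₀ = 1) {M : ι → L} {M' : Fin q → L}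
    (hM' : ∀ j, M' j = ∑ l, M l * algebraMap K L (E l (a j)))
    (hrel : ∑ j, M' j * aeval x (P j) ^ e = 0)
    {c : ℕ} {φ : Place κ L → ℕ} (hφ : (Function.support φ).Finite)
    (hMle : ∀ l (w : Place κ L), w.1 (M l) ≤ vmax w.1 x ^ c * exp (φ w : ℤ)) :
    ∀ i₀, M' i₀ ≠ 0 → aeval x (P i₀) ≠ 0 → ∃ j, i₀ ≠ j ∧ M' j ≠ 0 ∧ aeval x (P j) ≠ 0 ∧
      (e : ℤ) * height κ ![aeval x (P i₀), aeval x (P j)] ≤
      ((c * (1 + tri ν * (ν + 1)) + tri ν * (ν + 1) * dP : ℕ) : ℤ) * height κ x +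
      ((1 + tri ν * (ν + 1) : ℕ) : ℤ) * ((∑ᶠ w, (φ w : ℤ)) +
        Module.finrank K L * ∑ᶠ v, (A v : ℤ)) +
      ((tri ν * (ν + 1) : ℕ) : ℤ) * (Module.finrank K L * ∑ᶠ v, (A v : ℤ)) +
      tri ν * (Module.finrank K L * ∑ᶠ v, (B₀ v : ℤ) + ramDeg κ L K) := by
  classical
  have hL : IsFF κ L := hK.of_finite
  have hx0 : x ≠ 0 := by
    intro h0
    rw [h0] at hx
    exact zero_ne_one hx
  intro i₀ hi₀ hui₀
  have hM'0 : M' ≠ 0 := fun h0 => hi₀ (congrFun h0 i₀)
  -- the derivation over the constants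
  obtain ⟨D₀', hD₀'⟩ := exists_extension (K := K) (L := L) (D₀.restrictScalars ℤ)
  have hDκ : ∀ c : κ, D₀' (algebraMap κ L c) = 0 := by
    intro c
    rw [IsScalarTower.algebraMap_apply κ K L, hD₀']
    have h1 : (D₀.restrictScalars ℤ) (algebraMap κ K c) = 0 := D₀.map_algebraMap c
    rw [h1, map_zero]
  obtain ⟨DL, hDL⟩ : ∃ DL : Derivation κ L L, ∀ y, DL y = D₀' y := ⟨toLinearDer D₀' hDκ,
    fun y => rfl⟩
  obtain ⟨z, hz⟩ : ∃ z, D₀ z ≠ 0 := by
    by_contra hcon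
    push Not at hcon
    exact hD₀ (Derivation.ext fun s => hcon s)
  have hDL0 : ∀ y, DL y = 0 → ∃ c, algebraMap κ L c = y := by
    intro y hy
    refine mason_const hL DL (s := algebraMap K L z) ?_ hy
    rw [hDL, hD₀']
    exact (_root_.map_ne_zero _).2 hz
  -- the supports and the sums
  obtain ⟨a3, a4⟩ := mason_sum_over (L := L) hL hA
  obtain ⟨a5, a6⟩ := mason_sum_over (L := L) hL hB₀
  obtain ⟨a7, a8⟩ := mason_sum_ram (K := K) hL
  have hcast : ∀ {φ : Place κ L → ℕ}, (Function.support fun w => ((φ w : ℕ) : ℤ)).Finite →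
      (Function.support φ).Finite := by
    intro φ hφ
    refine hφ.subset fun w hw => ?_
    rw [Function.mem_support] at hw ⊢
    exact_mod_cast hw
  have hcast' : ∀ {φ : Place κ K → ℕ}, (Function.support φ).Finite →
      ((∑ᶠ v, φ v : ℕ) : ℤ) = ∑ᶠ v, (φ v : ℤ) := by
    intro φ hφ
    exact map_finsum (Nat.castAddMonoidHom ℤ) hφ
  rw [hcast' hA] at a4
  rw [hcast' hB₀] at a6
  -- the heights
  have hu0 : (fun j => aeval x (P j)) ≠ 0 := fun h0 => hui₀ (congrFun h0 i₀)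
  have hAw : ∀ (w : Place κ L) (y : K), (below K w).1 y ≤ exp (A (below K w) : ℤ) →
      w.1 (algebraMap K L y) ≤ exp ((ramIdx K w.1 * A (below K w) : ℕ) : ℤ) := by
    intro w y hy
    rw [below_pow]
    refine (pow_le_pow_left' hy (ramIdx K w.1)).trans (le_of_eq ?_)
    rw [← exp_nsmul, nsmul_eq_mul]
    push_cast
    rfl
  have hφ1 : (Function.support fun w : Place κ L => φ w + ramIdx K w.1 * A (below K w)).Finite :=
    (hφ.union (hcast a3)).subset (Function.support_add _ _)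
  have hφz : (Function.support fun w : Place κ L => (φ w : ℤ)).Finite := by
    refine hφ.subset fun w hw h1 => hw ?_
    simp only at h1 ⊢
    rw [h1, Nat.cast_zero]
  have hhM : height κ M' ≤ (c : ℤ) * height κ x +
      ((∑ᶠ w, (φ w : ℤ)) + Module.finrank K L * ∑ᶠ v, (A v : ℤ)) := by
    refine (height_le_pow hL hM'0 hx0 (c := c) hφ1 fun w => ?_).trans (le_of_eq ?_)
    · refine vmax_le w.1 fun j => ?_
      rw [hM']
      refine Valuation.map_sum_le _ fun l _ => ?_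
      rw [map_mul]
      refine (mul_le_mul' (hMle l w) (hAw w _ (hEA l _ _))).trans (le_of_eq ?_)
      rw [mul_assoc, ← exp_add]
      congr 2
    · congr 1
      have e1 : ∑ᶠ w : Place κ L, ((φ w + ramIdx K w.1 * A (below K w) : ℕ) : ℤ) =
          ∑ᶠ w : Place κ L, ((φ w : ℤ) + ((ramIdx K w.1 * A (below K w) : ℕ) : ℤ)) := by
        refine finsum_congr fun w => ?_
        push_cast
        ring
      rw [e1, finsum_add_distrib hφz a3, a4]
      ring
  have hhu : height κ (fun j => aeval x (P j)) ≤ dP * height κ x +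
      Module.finrank K L * ∑ᶠ v, (A v : ℤ) := by
    refine (height_le_pow hL hu0 hx0 (c := dP) (hcast a3) fun w => ?_).trans (le_of_eq ?_)
    · refine vmax_le w.1 fun j => ?_
      refine form_le w.1 (hP j) fun m => ?_
      rw [IsScalarTower.algebraMap_apply k₀ K L]
      exact hAw w _ (hPA _ _ _)
    · rw [a4]
      ring
  -- the partner
  obtain ⟨j, hij, hMj, huj, hclose⟩ := exists_partner hL DL hDL0
    (β := fun w => ramIdx K w.1 * B₀ (below K w) + (ramIdx K w.1 - 1)) (by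
      refine ((hcast a5).union (hcast a7)).subset ?_
      intro w hw
      rw [Function.mem_support] at hw
      by_contra hcon
      rw [Set.mem_union, not_or, Function.notMem_support, Function.notMem_support] at hcon
      apply hw
      rw [hcon.1, hcon.2, add_zero])
    (fun w y hy => by
      rw [hDL]
      exact polar_over (K := K) hL hD₀' hPB₀ w hy)
    (M := M') (u := fun j => aeval x (P j)) hu0 hM'0 (e := e) hrel he hi₀ hui₀
  refine ⟨j, hij, hMj, huj, hclose.trans ?_⟩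
  have hβ : ∑ᶠ w : Place κ L, ((ramIdx K w.1 * B₀ (below K w) + (ramIdx K w.1 - 1) : ℕ) : ℤ) =
      Module.finrank K L * ∑ᶠ v, (B₀ v : ℤ) + ramDeg κ L K := by
    have e1 : ∑ᶠ w : Place κ L, ((ramIdx K w.1 * B₀ (below K w) + (ramIdx K w.1 - 1) : ℕ) : ℤ) =
        ∑ᶠ w : Place κ L, (((ramIdx K w.1 * B₀ (below K w) : ℕ) : ℤ) +
          ((ramIdx K w.1 - 1 : ℕ) : ℤ)) := by
      refine finsum_congr fun w => ?_
      push_cast
      ring
    rw [e1, finsum_add_distrib a5 a7, a6, a8]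
    ring
  have hcard : Fintype.card (Fin q) = ν + 1 := (Fintype.card_fin q).trans hq
  rw [hβ, hcard, Nat.add_sub_cancel]
  have hT : (0 : ℤ) ≤ (tri ν : ℤ) := Int.natCast_nonneg _
  obtain ⟨FA, hFA⟩ : ∃ FA : ℤ, FA = Module.finrank K L * ∑ᶠ v, (A v : ℤ) := ⟨_, rfl⟩
  obtain ⟨FB, hFB⟩ : ∃ FB : ℤ, FB = Module.finrank K L * ∑ᶠ v, (B₀ v : ℤ) := ⟨_, rfl⟩
  obtain ⟨Fφ, hFφ⟩ : ∃ Fφ : ℤ, Fφ = ∑ᶠ w, (φ w : ℤ) := ⟨_, rfl⟩
  rw [← hFA, ← hFφ] at hhM
  rw [← hFA] at hhu
  rw [← hFA, ← hFB, ← hFφ]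
  have h1 : height κ M' + (tri ν : ℤ) * (((ν + 1 : ℕ) : ℤ) *
      (height κ M' + height κ (fun j => aeval x (P j))) +
      (FB + ramDeg κ L K)) ≤
      ((c : ℤ) * height κ x + (Fφ + FA)) + (tri ν : ℤ) * (((ν + 1 : ℕ) : ℤ) *
      (((c : ℤ) * height κ x + (Fφ + FA)) + (dP * height κ x + FA)) +
      (FB + ramDeg κ L K)) := by
    refine add_le_add hhM (mul_le_mul_of_nonneg_left (add_le_add (mul_le_mul_of_nonneg_left
      (add_le_add hhM hhu) (Int.natCast_nonneg _)) le_rfl) hT)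
  refine h1.trans (le_of_eq ?_)
  push_cast
  ring

end Pool.Agent.Lib.MP_44a246_ntFG
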