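import Mathlib
import Pool.Agent.Lib.MP_44a246_ntFP.FP13
import Pool.Agent.Lib.MP_44a246_ntFG.FG25

/-!
Partners for a point, with the rank of the point.
-/

namespace Pool.Agent.Lib.MP_44a246_ntFG

open Pool.Agent.Lib.MP_44a246_nt
open Pool.Agent.Lib.MP_44a246_ntL
open Pool.Agent.Lib.MP_44a246_ntX
open Pool.Agent.Lib.MP_44a246_ntMS
open Pool.Agent.Lib.MP_44a246_ntFP
open Pool.Agent.Lib.MP_44a246_ntK (der_aevalG wtP)
open Pool.Agent.Lib.MP_44a246_ntU (exists_der_comb)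
open WithZero MvPolynomial

universe u v w x

/-- **Partners**, for the points of the divisor of the form. -/
theorem partner_rk0 {κ K L : Type*} [Field κ] [IsAlgClosed κ] [CharZero κ] [Field K] [CharZero K]
    [Algebra κ K] (hK : IsFF κ K) [Field L] [CharZero L] [Algebra K L] [FiniteDimensional K L]
    [Algebra κ L] [IsScalarTower κ K L] {k₀ : Type*} [Field k₀] [CharZero k₀] [Algebra k₀ K]
    [Algebra k₀ L] [IsScalarTower k₀ K L] {n : ℕ} {E : Fin (n + 1) → Derivation ℤ K K}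
    {B A B₀ : Place κ K → ℕ} (hB : (Function.support B).Finite)
    (hA : (Function.support A).Finite) (hB₀ : (Function.support B₀).Finite)
    (hPB : ∀ l, PoleBound κ (E l) B) (hEk : ∀ l, ∀ c : k₀, E l (algebraMap k₀ K c) = 0)
    {D₀ : Derivation κ K K} (hD₀ : D₀ ≠ 0) (hPB₀ : PoleBound κ (D₀.restrictScalars ℤ) B₀)
    {N q dP : ℕ}
    {P : Fin q → MvPolynomial (Fin N) k₀} (hP : ∀ j, (P j).IsHomogeneous dP)
    (hPA : ∀ j m (v : Place κ K), v.1 (algebraMap k₀ K (coeff m (P j))) ≤ exp (A v : ℤ))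
    {a : Fin q → K} {e : ℕ} (he : 1 ≤ e) {ν : ℕ} (hq : q = ν + 1)
    (hEA : ∀ l j (v : Place κ K), v.1 (E l (a j)) ≤ exp (A v : ℤ))
    {j₀ : Fin N} {x : Fin N → L} (hx : x j₀ = 1) {H₀ : MvPolynomial (Fin N) k₀}
    {H : L} (hH : H = aeval x H₀ + ∑ j, algebraMap K L (a j) * aeval x (P j) ^ e) (hH0 : H = 0)
    (hrk : ∀ (p : ℕ) (j : Fin p → Fin N), AlgebraicIndependent k₀ (fun i => x (j i)) → p ≤ n) :
    ∃ (M : Fin (n + 1) → L) (M' : Fin q → L), M ≠ 0 ∧
      (∀ j, M' j = ∑ l, M l * algebraMap K L (E l (a j))) ∧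
      ∀ i₀, M' i₀ ≠ 0 → aeval x (P i₀) ≠ 0 → ∃ j, i₀ ≠ j ∧ M' j ≠ 0 ∧ aeval x (P j) ≠ 0 ∧
      (e : ℤ) * height κ ![aeval x (P i₀), aeval x (P j)] ≤
      (((n + 1) * (1 + tri ν * (ν + 1)) + tri ν * (ν + 1) * dP : ℕ) : ℤ) * height κ x +
      ((1 + tri ν * (ν + 1) + tri ν : ℕ) : ℤ) * ramDeg κ L K +
      Module.finrank K L * (((1 + tri ν * (ν + 1) : ℕ) : ℤ) * (n * ∑ᶠ v, (B v : ℤ) +
        ∑ᶠ v, (A v : ℤ)) + ((tri ν * (ν + 1) : ℕ) : ℤ) * ∑ᶠ v, (A v : ℤ) +
        tri ν * ∑ᶠ v, (B₀ v : ℤ)) := by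
  classical
  have hL : IsFF κ L := hK.of_finite
  choose E' hE' using fun l => exists_extension (L := L) (E l)
  have hEk' : ∀ l, ∀ c : k₀, E' l (algebraMap k₀ L c) = 0 := by
    intro l c
    rw [IsScalarTower.algebraMap_apply k₀ K L, hE', hEk, map_zero]
  have hmb := minor_over hK (s := Set.univ) (fun l _ => hPB l) hE'
  have hx0 : x ≠ 0 := by
    intro h0
    rw [h0] at hx
    exact zero_ne_one hx
  -- the rank
  obtain ⟨q', jj, c, hq', hc⟩ := exists_der_comb (k := k₀) (γ := x) (r := n) hrk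
  obtain ⟨M, hM0, hMrel, hMle⟩ := exists_rel hmb hx hq' c jj fun l i => hc (E' l) (hEk' l) i
  have hMH : ∑ l, M l * E' l H = 0 := by
    refine Finset.sum_eq_zero fun l _ => ?_
    rw [hH0, map_zero, mul_zero]
  -- the relation between the powers
  have hrel : ∑ j, (∑ l, M l * algebraMap K L (E l (a j))) * aeval x (P j) ^ e = 0 := by
    have h1 : ∀ l, E' l H = ∑ j, algebraMap K L (E l (a j)) * aeval x (P j) ^ e +
        ∑ i, (aeval x (pderiv i H₀) + ∑ j, algebraMap K L (a j) *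
          (e * aeval x (P j) ^ (e - 1) * aeval x (pderiv i (P j)))) * E' l (x i) := by
      intro l
      have h2 : ∀ j, E' l (algebraMap K L (a j)) = algebraMap K L (E l (a j)) := fun j => hE' l _
      rw [hH, map_add, der_form (E' l) (hEk' l), der_aevalG (E' l) (hEk' l) x H₀]
      simp only [add_mul, Finset.sum_add_distrib, h2]
      ring
    have h3 : ∑ j, (∑ l, M l * algebraMap K L (E l (a j))) * aeval x (P j) ^ e =
        ∑ l, M l * ∑ j, algebraMap K L (E l (a j)) * aeval x (P j) ^ e := by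
      simp only [Finset.sum_mul, Finset.mul_sum]
      rw [Finset.sum_comm]
      refine Finset.sum_congr rfl fun l _ => Finset.sum_congr rfl fun j _ => ?_
      ring
    have h4 : ∀ l, M l * ∑ j, algebraMap K L (E l (a j)) * aeval x (P j) ^ e =
        M l * E' l H - ∑ i, (aeval x (pderiv i H₀) + ∑ j, algebraMap K L (a j) *
          (e * aeval x (P j) ^ (e - 1) * aeval x (pderiv i (P j)))) * (M l * E' l (x i)) := by
      intro l
      have h5 : ∑ i, (aeval x (pderiv i H₀) + ∑ j, algebraMap K L (a j) *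
          (e * aeval x (P j) ^ (e - 1) * aeval x (pderiv i (P j)))) * (M l * E' l (x i)) =
          M l * ∑ i, (aeval x (pderiv i H₀) + ∑ j, algebraMap K L (a j) *
          (e * aeval x (P j) ^ (e - 1) * aeval x (pderiv i (P j)))) * E' l (x i) := by
        rw [Finset.mul_sum]
        refine Finset.sum_congr rfl fun i _ => ?_
        ring
      rw [h5, h1 l]
      ring
    rw [h3, Finset.sum_congr rfl fun l _ => h4 l, Finset.sum_sub_distrib, hMH, zero_sub,
      neg_eq_zero, Finset.sum_comm]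
    refine Finset.sum_eq_zero fun i _ => ?_
    rw [← Finset.mul_sum, hMrel i, mul_zero]
  -- the sums
  obtain ⟨a1, a2⟩ := mason_sum_over (L := L) hL hB
  obtain ⟨a7, a8⟩ := mason_sum_ram (K := K) hL
  have hcastB : ((∑ᶠ v, B v : ℕ) : ℤ) = ∑ᶠ v, (B v : ℤ) := map_finsum (Nat.castAddMonoidHom ℤ) hB
  rw [hcastB] at a2
  have a1' : (Function.support fun w : Place κ L =>
      (n : ℤ) * ((ramIdx K w.1 * B (below K w) : ℕ) : ℤ)).Finite := by
    refine a1.subset fun w hw h1 => hw ?_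
    simp only at h1 ⊢
    rw [h1, mul_zero]
  have e1 : ∑ᶠ w : Place κ L, ((n * (ramIdx K w.1 * B (below K w)) +
      (ramIdx K w.1 - 1) : ℕ) : ℤ) =
      ∑ᶠ w : Place κ L, ((n : ℤ) * ((ramIdx K w.1 * B (below K w) : ℕ) : ℤ) +
      ((ramIdx K w.1 - 1 : ℕ) : ℤ)) := by
    refine finsum_congr fun w => ?_
    push_cast
    ring
  have hφf : (Function.support fun w : Place κ L => n * (ramIdx K w.1 * B (below K w)) +
      (ramIdx K w.1 - 1)).Finite := by
    refine (a1.union a7).subset ?_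
    intro w hw
    rw [Function.mem_support] at hw
    by_contra hcon
    rw [Set.mem_union, not_or, Function.notMem_support, Function.notMem_support] at hcon
    obtain ⟨h1, h2⟩ := hcon
    have h1' : ramIdx K w.1 * B (below K w) = 0 := Int.natCast_eq_zero.1 h1
    have h2' : ramIdx K w.1 - 1 = 0 := Int.natCast_eq_zero.1 h2
    apply hw
    rw [h1', h2', mul_zero, add_zero]
  refine ⟨M, fun j => ∑ l, M l * algebraMap K L (E l (a j)), hM0, fun j => rfl, ?_⟩
  intro i₀ hi₀ hui₀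
  obtain ⟨j, hij, hMj, huj, hclose⟩ := partner_of_rel hK hA hB₀ hD₀ hPB₀ hP hPA he hq hEA hx
    (fun j => rfl) hrel (c := n + 1) hφf hMle i₀ hi₀ hui₀
  refine ⟨j, hij, hMj, huj, hclose.trans (le_of_eq ?_)⟩
  rw [e1, finsum_add_distrib a1' a7, ← mul_finsum _ _, a2, a8]
  push_cast
  ring

/-- **Partners**, outside the divisor of the form. -/
theorem partner_rkL {κ K L : Type*} [Field κ] [IsAlgClosed κ] [CharZero κ] [Field K] [CharZero K]
    [Algebra κ K] (hK : IsFF κ K) [Field L] [CharZero L] [Algebra K L] [FiniteDimensional K L]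
    [Algebra κ L] [IsScalarTower κ K L] {k₀ : Type*} [Field k₀] [CharZero k₀] [Algebra k₀ K]
    [Algebra k₀ L] [IsScalarTower k₀ K L] {n : ℕ} {E : Fin (n + 2) → Derivation ℤ K K}
    {B A B₀ : Place κ K → ℕ} (hB : (Function.support B).Finite)
    (hA : (Function.support A).Finite) (hB₀ : (Function.support B₀).Finite)
    (hPB : ∀ l, PoleBound κ (E l) B) (hEk : ∀ l, ∀ c : k₀, E l (algebraMap k₀ K c) = 0)
    {D₀ : Derivation κ K K} (hD₀ : D₀ ≠ 0) (hPB₀ : PoleBound κ (D₀.restrictScalars ℤ) B₀)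
    {N q dP : ℕ}
    {P : Fin q → MvPolynomial (Fin N) k₀} (hP : ∀ j, (P j).IsHomogeneous dP)
    (hPA : ∀ j m (v : Place κ K), v.1 (algebraMap k₀ K (coeff m (P j))) ≤ exp (A v : ℤ))
    {a : Fin q → K} {e : ℕ} (he : 1 ≤ e) {ν : ℕ} (hq : q = ν + 1)
    (hEA : ∀ l j (v : Place κ K), v.1 (E l (a j)) ≤ exp (A v : ℤ))
    {j₀ : Fin N} {x : Fin N → L} (hx : x j₀ = 1) {H₀ : MvPolynomial (Fin N) k₀}
    {H : L} (hH : H = aeval x H₀ + ∑ j, algebraMap K L (a j) * aeval x (P j) ^ e) (hH0 : H ≠ 0)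
    (hrk : ∀ (p : ℕ) (j : Fin p → Fin N), AlgebraicIndependent k₀ (fun i => x (j i)) → p ≤ n)
    (dH : ℕ) :
    ∃ (M : Fin (n + 2) → L) (M' : Fin q → L), M ≠ 0 ∧
      (∀ j, M' j = ∑ l, M l * algebraMap K L (E l (a j))) ∧
      ∀ i₀, M' i₀ ≠ 0 → aeval x (P i₀) ≠ 0 → ∃ j, i₀ ≠ j ∧ M' j ≠ 0 ∧ aeval x (P j) ≠ 0 ∧
      (e : ℤ) * height κ ![aeval x (P i₀), aeval x (P j)] ≤
      (((n + 1) * (1 + tri ν * (ν + 1)) + tri ν * (ν + 1) * dP : ℕ) : ℤ) * height κ x +
      ((1 + tri ν * (ν + 1) : ℕ) : ℤ) *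
        (({w : Place κ L | w.1 H ≠ vmax w.1 x ^ dH}.ncard : ℕ) : ℤ) +
      ((1 + tri ν * (ν + 1) + tri ν : ℕ) : ℤ) * ramDeg κ L K +
      Module.finrank K L * (((1 + tri ν * (ν + 1) : ℕ) : ℤ) * ((n + 1) * ∑ᶠ v, (B v : ℤ) +
        ∑ᶠ v, (A v : ℤ)) + ((tri ν * (ν + 1) : ℕ) : ℤ) * ∑ᶠ v, (A v : ℤ) +
        tri ν * ∑ᶠ v, (B₀ v : ℤ)) := by
  classical
  have hL : IsFF κ L := hK.of_finite
  choose E' hE' using fun l => exists_extension (L := L) (E l)
  have hEk' : ∀ l, ∀ c : k₀, E' l (algebraMap k₀ L c) = 0 := by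
    intro l c
    rw [IsScalarTower.algebraMap_apply k₀ K L, hE', hEk, map_zero]
  have hmb := minor_over hK (s := Set.univ) (fun l _ => hPB l) hE'
  have hx0 : x ≠ 0 := by
    intro h0
    rw [h0] at hx
    exact zero_ne_one hx
  -- the rank
  obtain ⟨q', jj, c, hq', hc⟩ := exists_der_comb (k := k₀) (γ := x) (r := n) hrk
  obtain ⟨η, hηf, hη1, hηs⟩ := sum_eta hL hx0 hH0 dH
  obtain ⟨M, hM0, hMrel, hMH, hMle⟩ := exists_relL hmb hx hH0 hη1 hq' c jj
    fun l i => hc (E' l) (hEk' l) i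
  -- the relation between the powers
  have hrel : ∑ j, (∑ l, M l * algebraMap K L (E l (a j))) * aeval x (P j) ^ e = 0 := by
    have h1 : ∀ l, E' l H = ∑ j, algebraMap K L (E l (a j)) * aeval x (P j) ^ e +
        ∑ i, (aeval x (pderiv i H₀) + ∑ j, algebraMap K L (a j) *
          (e * aeval x (P j) ^ (e - 1) * aeval x (pderiv i (P j)))) * E' l (x i) := by
      intro l
      have h2 : ∀ j, E' l (algebraMap K L (a j)) = algebraMap K L (E l (a j)) := fun j => hE' l _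
      rw [hH, map_add, der_form (E' l) (hEk' l), der_aevalG (E' l) (hEk' l) x H₀]
      simp only [add_mul, Finset.sum_add_distrib, h2]
      ring
    have h3 : ∑ j, (∑ l, M l * algebraMap K L (E l (a j))) * aeval x (P j) ^ e =
        ∑ l, M l * ∑ j, algebraMap K L (E l (a j)) * aeval x (P j) ^ e := by
      simp only [Finset.sum_mul, Finset.mul_sum]
      rw [Finset.sum_comm]
      refine Finset.sum_congr rfl fun l _ => Finset.sum_congr rfl fun j _ => ?_
      ring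
    have h4 : ∀ l, M l * ∑ j, algebraMap K L (E l (a j)) * aeval x (P j) ^ e =
        M l * E' l H - ∑ i, (aeval x (pderiv i H₀) + ∑ j, algebraMap K L (a j) *
          (e * aeval x (P j) ^ (e - 1) * aeval x (pderiv i (P j)))) * (M l * E' l (x i)) := by
      intro l
      have h5 : ∑ i, (aeval x (pderiv i H₀) + ∑ j, algebraMap K L (a j) *
          (e * aeval x (P j) ^ (e - 1) * aeval x (pderiv i (P j)))) * (M l * E' l (x i)) =
          M l * ∑ i, (aeval x (pderiv i H₀) + ∑ j, algebraMap K L (a j) *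
          (e * aeval x (P j) ^ (e - 1) * aeval x (pderiv i (P j)))) * E' l (x i) := by
        rw [Finset.mul_sum]
        refine Finset.sum_congr rfl fun i _ => ?_
        ring
      rw [h5, h1 l]
      ring
    rw [h3, Finset.sum_congr rfl fun l _ => h4 l, Finset.sum_sub_distrib, hMH, zero_sub,
      neg_eq_zero, Finset.sum_comm]
    refine Finset.sum_eq_zero fun i _ => ?_
    rw [← Finset.mul_sum, hMrel i, mul_zero]
  -- the sums
  obtain ⟨a1, a2⟩ := mason_sum_over (L := L) hL hB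
  obtain ⟨a7, a8⟩ := mason_sum_ram (K := K) hL
  have hcastB : ((∑ᶠ v, B v : ℕ) : ℤ) = ∑ᶠ v, (B v : ℤ) := map_finsum (Nat.castAddMonoidHom ℤ) hB
  rw [hcastB] at a2
  have a1' : (Function.support fun w : Place κ L =>
      ((n + 1 : ℕ) : ℤ) * ((ramIdx K w.1 * B (below K w) : ℕ) : ℤ)).Finite := by
    refine a1.subset fun w hw h1 => hw ?_
    simp only at h1 ⊢
    rw [h1, mul_zero]
  have hηz : (Function.support fun w : Place κ L => (η w : ℤ)).Finite := by
    refine hηf.subset fun w hw h1 => hw ?_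
    simp only at h1 ⊢
    rw [h1, Nat.cast_zero]
  have e1 : ∑ᶠ w : Place κ L, (((n + 1) * (ramIdx K w.1 * B (below K w)) +
      (ramIdx K w.1 - 1) + η w : ℕ) : ℤ) =
      ∑ᶠ w : Place κ L, ((((n + 1 : ℕ) : ℤ) * ((ramIdx K w.1 * B (below K w) : ℕ) : ℤ) +
      ((ramIdx K w.1 - 1 : ℕ) : ℤ)) + (η w : ℤ)) := by
    refine finsum_congr fun w => ?_
    push_cast
    ring
  have hφf : (Function.support fun w : Place κ L => (n + 1) * (ramIdx K w.1 * B (below K w)) +
      (ramIdx K w.1 - 1) + η w).Finite := by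
    refine ((a1.union a7).union hηf).subset ?_
    intro w hw
    rw [Function.mem_support] at hw
    by_contra hcon
    rw [Set.mem_union, Set.mem_union, not_or, not_or, Function.notMem_support,
      Function.notMem_support, Function.notMem_support] at hcon
    obtain ⟨⟨h1, h2⟩, h3⟩ := hcon
    have h1' : ramIdx K w.1 * B (below K w) = 0 := Int.natCast_eq_zero.1 h1
    have h2' : ramIdx K w.1 - 1 = 0 := Int.natCast_eq_zero.1 h2
    apply hw
    rw [h1', h2', h3, mul_zero, add_zero, add_zero]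
  refine ⟨M, fun j => ∑ l, M l * algebraMap K L (E l (a j)), hM0, fun j => rfl, ?_⟩
  intro i₀ hi₀ hui₀
  obtain ⟨j, hij, hMj, huj, hclose⟩ := partner_of_rel hK hA hB₀ hD₀ hPB₀ hP hPA he hq hEA hx
    (fun j => rfl) hrel (c := n + 1) hφf hMle i₀ hi₀ hui₀
  refine ⟨j, hij, hMj, huj, hclose.trans (le_of_eq ?_)⟩
  rw [e1, finsum_add_distrib ((a1'.union a7).subset (Function.support_add _ _)) hηz,
    finsum_add_distrib a1' a7, ← mul_finsum _ _, a2, a8, hηs]
  push_cast
  ring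

end Pool.Agent.Lib.MP_44a246_ntFG
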