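import Mathlib
import Pool.Agent.Lib.MP_44a246_ntY.Y30
import Pool.Agent.Lib.MP_44a246_ntMS.MS06
import Pool.Agent.Lib.MP_44a246_ntFG.FG23
import Pool.Agent.Lib.MP_44a246_ntFG.FG26

/-!
Partners for a point, with the rank of the point, for a field of definition of finite transcendence
degree.
-/

namespace Pool.Agent.Lib.MP_44a246_ntFG

open Pool.Agent.Lib.MP_44a246_nt
open Pool.Agent.Lib.MP_44a246_ntL
open Pool.Agent.Lib.MP_44a246_ntX
open Pool.Agent.Lib.MP_44a246_ntTV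
open Pool.Agent.Lib.MP_44a246_ntMS
open Pool.Agent.Lib.MP_44a246_ntFP
open WithZero MvPolynomial

universe u v w x

/-- the derivations and the bounds for the poles -/
theorem exists_data_gen {κ : Type u} {K : Type v} [Field κ] [IsAlgClosed κ] [CharZero κ]
    [Field K] [CharZero K] [Algebra κ K] (hK : IsFF κ K) {k : Type x} [Field k] [CharZero k]
    [Algebra k K] (hk : Algebra.trdeg ℚ k < Cardinal.aleph0) {N q : ℕ} (τ : ℕ)
    (P : Fin q → MvPolynomial (Fin N) k) (a : Fin q → K) :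
    ∃ (E : Fin τ → Derivation ℤ K K) (B A B₀ : Place κ K → ℕ)
      (D₀ : Derivation κ K K), (Function.support B).Finite ∧ (Function.support A).Finite ∧
      (Function.support B₀).Finite ∧ D₀ ≠ 0 ∧ PoleBound κ (D₀.restrictScalars ℤ) B₀ ∧
      (∀ j μ (v : Place κ K), v.1 (algebraMap k K (coeff μ (P j))) ≤ exp (A v : ℤ)) ∧
      (∀ l, PoleBound κ (E l) B) ∧ (∀ l, ∀ u : k, E l (algebraMap k K u) = 0) ∧
      (∀ l j (v : Place κ K), v.1 (E l (a j)) ≤ exp (A v : ℤ)) ∧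
      ∀ (i : ℕ) (hi : i ≤ τ) (S : Finset (Fin q)),
        (i : Cardinal) ≤ Algebra.trdeg k (IntermediateField.adjoin k (a '' (S : Set (Fin q)))) →
        ∃ σ : Fin i → Fin q, (∀ j, σ j ∈ S) ∧
          (Matrix.of fun l l' : Fin i => E (Fin.castLE hi l) (a (σ l'))).det ≠ 0 := by
  classical
  obtain ⟨D₀, B₀, ⟨s, hs⟩, hB₀, hPB₀⟩ := Pool.Agent.Lib.MP_44a246_ntY.exists_kder hK
  obtain ⟨E, B, hB, hE1, hE2, hE3⟩ := exists_ders_gen hK hk (τ := τ) a
  obtain ⟨A₁, hA₁, hA₁b⟩ := exists_poly_bound hK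
    (fun j => map (algebraMap k K) (P j))
  obtain ⟨A₂, hA₂, hA₂b⟩ := exists_poly_bound hK
    (fun t : Fin τ × Fin q => (C (E t.1 (a t.2)) : MvPolynomial (Fin 1) K))
  refine ⟨E, B, fun v => A₁ v + A₂ v, B₀, D₀, hB, ?_, hB₀, ?_, hPB₀, ?_, hE1, hE2, ?_, hE3⟩
  · exact (hA₁.union hA₂).subset (Function.support_add _ _)
  · rintro rfl
    exact hs rfl
  · intro j μ v
    have h1 := hA₁b j μ v
    rw [coeff_map] at h1
    refine h1.trans ?_
    rw [exp_le_exp]
    have h2 : A₁ v ≤ A₁ v + A₂ v := Nat.le_add_right _ _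
    exact_mod_cast h2
  · intro l j v
    have h5 := hA₂b (l, j) 0 v
    rw [coeff_C, if_pos rfl] at h5
    refine h5.trans ?_
    rw [exp_le_exp]
    have h6 : A₂ v ≤ A₁ v + A₂ v := Nat.le_add_left _ _
    exact_mod_cast h6

/-- the independence of the derivations -/
theorem ind_of_det_at {K L : Type*} [Field K] [Field L] [Algebra K L] {m q : ℕ}
    {E : Fin m → Derivation ℤ K K} {a : Fin q → K} {σ : Fin m → Fin q}
    (h : (Matrix.of fun l l' => E l (a (σ l'))).det ≠ 0) (M : Fin m → L)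
    (hM : ∀ l', ∑ l, M l * algebraMap K L (E l (a (σ l'))) = 0) : M = 0 := by
  classical
  by_contra h0
  have h1 : (Matrix.of fun l l' => algebraMap K L (E l (a (σ l')))).det = 0 := by
    refine Matrix.exists_vecMul_eq_zero_iff.1 ⟨M, h0, ?_⟩
    funext l'
    exact hM l'
  apply h
  apply (algebraMap K L).injective
  rw [map_zero, ← h1, RingHom.map_det]
  congr 1

/-- few of the terms of the relation vanish -/
theorem card_zero_lt {k K L : Type*} [Field k] [Field K] [Field L] [Algebra k K] [Algebra K L]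
    {m q i : ℕ} {E : Fin i → Derivation ℤ K K} {a : Fin q → K}
    (hE : ∀ S : Finset (Fin q),
      (i : Cardinal) ≤ Algebra.trdeg k (IntermediateField.adjoin k (a '' (S : Set (Fin q)))) →
        ∃ σ : Fin i → Fin q, (∀ j, σ j ∈ S) ∧
          (Matrix.of fun l l' : Fin i => E l (a (σ l'))).det ≠ 0)
    (hm : ∀ S : Finset (Fin q), S.card = m →
      (i : Cardinal) ≤ Algebra.trdeg k (IntermediateField.adjoin k (a '' (S : Set (Fin q)))))
    {M : Fin i → L} (hM : M ≠ 0) {Z : Finset (Fin q)}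
    (hZ : ∀ j ∈ Z, ∑ l, M l * algebraMap K L (E l (a j)) = 0) : Z.card < m := by
  by_contra hcon
  push Not at hcon
  obtain ⟨S, hSZ, hS⟩ := Finset.exists_subset_card_eq hcon
  obtain ⟨σ, hσ, hdet⟩ := hE S (hm S hS)
  exact hM (ind_of_det_at hdet M fun l' => hZ _ (hSZ (hσ l')))

/-- **Partners** with the rank of the point, for a field of definition of finite transcendence
degree. -/
theorem partner_rk_core {κ : Type u} {K : Type v} [Field κ] [IsAlgClosed κ] [CharZero κ]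
    [Field K] [CharZero K] [Algebra κ K] (hK : IsFF κ K) {k : Type x} [Field k] [CharZero k]
    [Algebra k K] (hk : Algebra.trdeg ℚ k < Cardinal.aleph0) {N q dP ν : ℕ} (hq : q = ν + 1)
    (n : ℕ) {P : Fin q → MvPolynomial (Fin N) k} (hP : ∀ j, (P j).IsHomogeneous dP)
    (H₀ : MvPolynomial (Fin N) k) (a : Fin q → K) :
    ∃ W : ℕ, ∀ (L : Type w) [Field L] [Algebra K L] [FiniteDimensional K L] [Algebra κ L]
      [IsScalarTower κ K L] [Algebra k L] [IsScalarTower k K L] (x : Fin N → L) (j₀ : Fin N),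
      x j₀ = 1 → ∀ r ≤ n,
      (∀ (p : ℕ) (j : Fin p → Fin N), AlgebraicIndependent k (fun i => x (j i)) → p ≤ r) →
      ∀ (e : ℕ), 1 ≤ e →
      (aeval x H₀ + ∑ j, algebraMap K L (a j) * aeval x (P j) ^ e = 0 → ∀ m,
        (∀ S : Finset (Fin q), S.card = m → ((r + 1 : ℕ) : Cardinal) ≤
          Algebra.trdeg k (IntermediateField.adjoin k (a '' (S : Set (Fin q))))) →
        ∃ M : Finset (Fin q), M.card < m ∧ ∀ i₀ ∉ M, aeval x (P i₀) ≠ 0 →
        ∃ j ∉ M, i₀ ≠ j ∧ aeval x (P j) ≠ 0 ∧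
          (e : ℤ) * height κ ![aeval x (P i₀), aeval x (P j)] ≤
          (((r + 1) * (1 + tri ν * (ν + 1)) + tri ν * (ν + 1) * dP : ℕ) : ℤ) * height κ x +
          ((1 + tri ν * (ν + 1) + tri ν : ℕ) : ℤ) * ramDeg κ L K + W * Module.finrank K L) ∧
      (aeval x H₀ + ∑ j, algebraMap K L (a j) * aeval x (P j) ^ e ≠ 0 → ∀ m dH,
        (∀ S : Finset (Fin q), S.card = m → ((r + 2 : ℕ) : Cardinal) ≤
          Algebra.trdeg k (IntermediateField.adjoin k (a '' (S : Set (Fin q))))) →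
        ∃ M : Finset (Fin q), M.card < m ∧ ∀ i₀ ∉ M, aeval x (P i₀) ≠ 0 →
        ∃ j ∉ M, i₀ ≠ j ∧ aeval x (P j) ≠ 0 ∧
          (e : ℤ) * height κ ![aeval x (P i₀), aeval x (P j)] ≤
          (((r + 1) * (1 + tri ν * (ν + 1)) + tri ν * (ν + 1) * dP : ℕ) : ℤ) * height κ x +
          ((1 + tri ν * (ν + 1) : ℕ) : ℤ) *
            (({w : Place κ L | w.1 (aeval x H₀ + ∑ j, algebraMap K L (a j) * aeval x (P j) ^ e) ≠
              vmax w.1 x ^ dH}.ncard : ℕ) : ℤ) +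
          ((1 + tri ν * (ν + 1) + tri ν : ℕ) : ℤ) * ramDeg κ L K + W * Module.finrank K L) := by
  classical
  obtain ⟨E, B, A, B₀, D₀, hB, hA, hB₀, hD₀, hPB₀, hPA, hE1, hE2, hE3, hE4⟩ :=
    exists_data_gen hK hk (n + 2) P a
  obtain ⟨sA, hsA⟩ : ∃ sA : ℤ, sA = ∑ᶠ v, (A v : ℤ) := ⟨_, rfl⟩
  obtain ⟨sB, hsB⟩ : ∃ sB : ℤ, sB = ∑ᶠ v, (B v : ℤ) := ⟨_, rfl⟩
  obtain ⟨sB₀, hsB₀⟩ : ∃ sB₀ : ℤ, sB₀ = ∑ᶠ v, (B₀ v : ℤ) := ⟨_, rfl⟩
  have nB : 0 ≤ sB := by
    rw [hsB]
    exact finsum_nonneg fun v => Int.natCast_nonneg _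
  obtain ⟨W, hW⟩ : ∃ W : ℤ, W = ((1 + tri ν * (ν + 1) : ℕ) : ℤ) *
        ((n + 1) * sB + sA) + ((tri ν * (ν + 1) : ℕ) : ℤ) * sA + tri ν * sB₀ := ⟨_, rfl⟩
  have hWW : ∀ {F T : ℤ}, 0 ≤ F → T ≤ W → F * T ≤ (W.toNat : ℕ) * F := by
    intro F T hF hT
    rw [mul_comm]
    exact mul_le_mul_of_nonneg_right (hT.trans (Int.self_le_toNat W)) hF
  refine ⟨W.toNat, fun L _ _ _ _ _ _ _ x j₀ hx r hr hrk e he => ⟨?_, ?_⟩⟩
  · intro hH0 m hm
    have hLc : CharZero L := charZero_of_injective_algebraMap (algebraMap K L).injective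
    obtain ⟨M, M', hM0, hM', hpart⟩ := partner_rk0 hK (n := r)
      (E := fun l => E (Fin.castLE (by omega : r + 1 ≤ n + 2) l)) hB hA hB₀ (fun l => hE1 _)
      (fun l => hE2 _) hD₀ hPB₀ hP hPA he hq (fun l => hE3 _) hx (e := e) rfl hH0 hrk
    refine ⟨Finset.univ.filter fun j => M' j = 0, ?_, ?_⟩
    · refine card_zero_lt (k := k) (E := fun l => E (Fin.castLE (by omega : r + 1 ≤ n + 2) l))
        (fun S hS => hE4 (r + 1) (by omega) S hS) hm hM0 fun j hj => ?_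
      rw [← hM']
      exact (Finset.mem_filter.1 hj).2
    · intro i₀ hi₀ hui₀
      have h1 : M' i₀ ≠ 0 := fun h => hi₀ (Finset.mem_filter.2 ⟨Finset.mem_univ _, h⟩)
      obtain ⟨j, hij, hMj, huj, hle⟩ := hpart i₀ h1 hui₀
      refine ⟨j, fun h => hMj (Finset.mem_filter.1 h).2, hij, huj, hle.trans ?_⟩
      rw [← hsA, ← hsB, ← hsB₀]
      have h7 := hWW (F := Module.finrank K L) (T := ((1 + tri ν * (ν + 1) : ℕ) : ℤ) *
        (r * sB + sA) + ((tri ν * (ν + 1) : ℕ) : ℤ) * sA + tri ν * sB₀)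
        (Int.natCast_nonneg _) (by
        rw [hW]
        have h8 : (r : ℤ) * sB ≤ (n + 1) * sB :=
          mul_le_mul_of_nonneg_right (by exact_mod_cast (by omega : r ≤ n + 1)) nB
        have h9 := mul_le_mul_of_nonneg_left h8
          (Int.natCast_nonneg (1 + tri ν * (ν + 1)))
        linarith)
      linarith
  · intro hH0 m dH hm
    have hLc : CharZero L := charZero_of_injective_algebraMap (algebraMap K L).injective
    obtain ⟨M, M', hM0, hM', hpart⟩ := partner_rkL hK (n := r)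
      (E := fun l => E (Fin.castLE (by omega : r + 2 ≤ n + 2) l)) hB hA hB₀ (fun l => hE1 _)
      (fun l => hE2 _) hD₀ hPB₀ hP hPA he hq (fun l => hE3 _) hx (e := e) rfl hH0 hrk dH
    refine ⟨Finset.univ.filter fun j => M' j = 0, ?_, ?_⟩
    · refine card_zero_lt (k := k) (E := fun l => E (Fin.castLE (by omega : r + 2 ≤ n + 2) l))
        (fun S hS => hE4 (r + 2) (by omega) S hS) hm hM0 fun j hj => ?_
      rw [← hM']
      exact (Finset.mem_filter.1 hj).2
    · intro i₀ hi₀ hui₀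
      have h1 : M' i₀ ≠ 0 := fun h => hi₀ (Finset.mem_filter.2 ⟨Finset.mem_univ _, h⟩)
      obtain ⟨j, hij, hMj, huj, hle⟩ := hpart i₀ h1 hui₀
      refine ⟨j, fun h => hMj (Finset.mem_filter.1 h).2, hij, huj, hle.trans ?_⟩
      rw [← hsA, ← hsB, ← hsB₀]
      have h7 := hWW (F := Module.finrank K L) (T := ((1 + tri ν * (ν + 1) : ℕ) : ℤ) *
        ((r + 1) * sB + sA) + ((tri ν * (ν + 1) : ℕ) : ℤ) * sA + tri ν * sB₀)
        (Int.natCast_nonneg _) (by
        rw [hW]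
        have h8 : ((r : ℤ) + 1) * sB ≤ (n + 1) * sB :=
          mul_le_mul_of_nonneg_right (by
            have h10 : (r : ℤ) ≤ n := by exact_mod_cast hr
            linarith) nB
        have h9 := mul_le_mul_of_nonneg_left h8
          (Int.natCast_nonneg (1 + tri ν * (ν + 1)))
        linarith)
      linarith

end Pool.Agent.Lib.MP_44a246_ntFG
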