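import Mathlib
import Pool.Agent.Lib.MP_44a246_ntFP.FP32
import Pool.Agent.Lib.MP_44a246_ntFG.FG27

/-!
Partners for a point, with the rank of the point, for all fields of definition of the form.
-/

namespace Pool.Agent.Lib.MP_44a246_ntFG

open Pool.Agent.Lib.MP_44a246_nt
open Pool.Agent.Lib.MP_44a246_ntL
open Pool.Agent.Lib.MP_44a246_ntX
open Pool.Agent.Lib.MP_44a246_ntTV
open Pool.Agent.Lib.MP_44a246_ntMS
open Pool.Agent.Lib.MP_44a246_ntFP
open Pool.Agent.Lib.MP_44a246_ntMU (ncard_le_trunc)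
open WithZero MvPolynomial

universe u v w x y

/-- the transcendence degree over a smaller field -/
theorem trdeg_image_le {k₀ k K : Type*} [Field k₀] [Field k] [Field K] [Algebra k₀ k]
    [Algebra k K] [Algebra k₀ K] [IsScalarTower k₀ k K] {q : ℕ} (a : Fin q → K)
    (S : Finset (Fin q)) :
    Algebra.trdeg k (IntermediateField.adjoin k (a '' (S : Set (Fin q)))) ≤
      Algebra.trdeg k₀ (IntermediateField.adjoin k₀ (a '' (S : Set (Fin q)))) := by
  rw [Set.image_eq_range]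
  exact trdeg_adjoin_le (k₀ := k₀) (k := k) _

/-- fewer elements, larger rank -/
theorem le_of_add_le {i c : ℕ} {α : Cardinal.{v}} (h : ((i + c : ℕ) : Cardinal.{v}) ≤ α + c) :
    (i : Cardinal.{v}) ≤ α := by
  rw [Nat.cast_add] at h
  exact (Cardinal.add_le_add_iff_of_lt_aleph0 (Cardinal.natCast_lt_aleph0)).1 h

/-- **Partners** with the rank of the point over `k₁`. -/
theorem partner_rk {κ : Type u} {K : Type v} [Field κ] [IsAlgClosed κ] [CharZero κ]
    [Field K] [CharZero K] [Algebra κ K] (hK : IsFF κ K) {k₁ : Type y} [Field k₁] [CharZero k₁]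
    (htk : Algebra.trdeg ℚ k₁ < Cardinal.aleph0)
    {k : Type x} [Field k] [CharZero k] [Algebra k₁ k] [Algebra k K]
    {N n c c' q e dP ν : ℕ} (hc' : c' = c ∨ c' = c + 1) (hq : q = ν + 1) (he : 1 ≤ e)
    {P : Fin q → MvPolynomial (Fin (N + 1)) k₁} (hP : ∀ j, (P j).IsHomogeneous dP)
    {H₀ : MvPolynomial (Fin (N + 1)) k} (hH₀ : H₀.IsHomogeneous (e * dP)) (a : Fin q → K)
    (hgen : ∀ S : Finset (Fin q), S.card ≤ n + c' + 1 → (S.card : Cardinal) ≤
      Algebra.trdeg k (IntermediateField.adjoin k (a '' (S : Set (Fin q)))) + c)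
    {S₀ : Set (Place κ K)} (hS₀ : S₀.Finite) :
    ∃ W : ℕ, ∀ (L : Type w) [Field L] [Algebra K L] [FiniteDimensional K L] [Algebra κ L]
        [IsScalarTower κ K L] [Algebra k L] [IsScalarTower k K L] [Algebra k₁ L]
        [IsScalarTower k₁ k L] (z : Fin (N + 1) → L) (l₀ : Fin (N + 1)), z l₀ = 1 →
        (hval H₀ P e a z = 0 ∨ c' = c + 1) → ∀ r ≤ n,
        (∀ (p : ℕ) (j : Fin p → Fin (N + 1)), AlgebraicIndependent k₁ (fun i => z (j i)) →
          p ≤ r) →
        ∃ M : Finset (Fin q), M.card ≤ r + c' ∧ ∀ i₀ ∉ M, aeval z (P i₀) ≠ 0 →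
        ∃ j ∉ M, i₀ ≠ j ∧ aeval z (P j) ≠ 0 ∧
          (e : ℤ) * height κ ![aeval z (P i₀), aeval z (P j)] ≤
          (((n + 1) * (1 + tri ν * (ν + 1)) + tri ν * (ν + 1) * dP : ℕ) : ℤ) * height κ z +
          ((1 + tri ν * (ν + 1) + tri ν : ℕ) : ℤ) *
            (trunc₁ S₀ (e * dP) (hval H₀ P e a z) z + ramDeg κ L K) +
          W * Module.finrank K L := by
  classical
  let _ : Algebra k₁ K := ((algebraMap k K).comp (algebraMap k₁ k)).toAlgebra
  have t0 : IsScalarTower k₁ k K := IsScalarTower.of_algebraMap_eq fun _ => rfl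
  obtain ⟨k₀, _, _, _, _, _, htk₀, G₀, hG₀⟩ := exists_base_over htk H₀
  let _ : Algebra k₀ K := ((algebraMap k K).comp (algebraMap k₀ k)).toAlgebra
  have t1 : IsScalarTower k₀ k K := IsScalarTower.of_algebraMap_eq fun _ => rfl
  have t2 : IsScalarTower k₁ k₀ K := IsScalarTower.of_algebraMap_eq fun c => by
    rw [IsScalarTower.algebraMap_apply k₁ k K, IsScalarTower.algebraMap_apply k₁ k₀ k]
    rfl
  have hgen' : ∀ S : Finset (Fin q), S.card ≤ n + c' + 1 → (S.card : Cardinal) ≤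
      Algebra.trdeg k₀ (IntermediateField.adjoin k₀ (a '' (S : Set (Fin q)))) + c := by
    intro S hS
    refine (hgen S hS).trans ?_
    gcongr
    exact trdeg_image_le (k₀ := k₀) (k := k) a S
  obtain ⟨W, hW⟩ := partner_rk_core.{u, v, w, x} hK (k := k₀) htk₀ hq n
    (P := fun j => map (algebraMap k₁ k₀) (P j)) (fun j => (hP j).map _) G₀ a
  -- the counting function
  have hHh : (hform H₀ P e a).IsHomogeneous (e * dP) := by
    unfold hform
    refine (hH₀.map _).add (IsHomogeneous.sum _ _ _ fun j _ => ?_)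
    have h1 := (isHomogeneous_C (Fin (N + 1)) (a j)).mul (((hP j).map (algebraMap k₁ K)).pow e)
    rw [zero_add, mul_comm dP e] at h1
    exact h1
  obtain ⟨C₂, hC₂⟩ := ncard_le_trunc.{u, v, w} hK (B' := Unit) (F := fun _ => hform H₀ P e a)
    (d := fun _ => e * dP) (fun _ => hHh) hS₀
  refine ⟨W + (1 + tri ν * (ν + 1) + tri ν) * C₂, ?_⟩
  intro L _ _ _ _ _ _ _ _ _ z l₀ hz hH r hr hrk
  have hLc : CharZero L := charZero_of_injective_algebraMap (algebraMap K L).injective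
  have hL : IsFF κ L := hK.of_finite
  have hz0 : z ≠ 0 := by
    intro h0
    rw [h0] at hz
    exact zero_ne_one hz
  let _ : Algebra k₀ L := ((algebraMap k L).comp (algebraMap k₀ k)).toAlgebra
  have s1 : IsScalarTower k₀ k L := IsScalarTower.of_algebraMap_eq fun _ => rfl
  have s2 : IsScalarTower k₀ K L := IsScalarTower.of_algebraMap_eq fun c => by
    rw [IsScalarTower.algebraMap_apply k₀ k L, IsScalarTower.algebraMap_apply k K L,
      IsScalarTower.algebraMap_apply k₀ k K]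
  have s3 : IsScalarTower k₁ K L := IsScalarTower.of_algebraMap_eq fun c => by
    rw [IsScalarTower.algebraMap_apply k₁ k L, IsScalarTower.algebraMap_apply k K L,
      IsScalarTower.algebraMap_apply k₁ k K]
  have s4 : IsScalarTower k₁ k₀ L := IsScalarTower.of_algebraMap_eq fun c => by
    rw [IsScalarTower.algebraMap_apply k₁ k L, IsScalarTower.algebraMap_apply k₁ k₀ k]
    rfl
  have hval1 : aeval z G₀ + ∑ j, algebraMap K L (a j) *
      aeval z (map (algebraMap k₁ k₀) (P j)) ^ e = hval H₀ P e a z := by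
    unfold hval
    rw [← hG₀, aeval_map_algebraMap]
    simp only [aeval_map_algebraMap]
  have hrk₀ : ∀ (p : ℕ) (j : Fin p → Fin (N + 1)), AlgebraicIndependent k₀ (fun i => z (j i)) →
      p ≤ r := fun p j hj => hrk p j
        (AlgebraicIndependent.restrictScalars (algebraMap k₁ k₀).injective hj)
  obtain ⟨hW1, hW2⟩ := hW L z l₀ hz r hr hrk₀ e he
  rw [hval1] at hW1 hW2
  simp only [aeval_map_algebraMap] at hW1 hW2
  have hh : 0 ≤ height κ z := hL.height_nonneg hz0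
  have hF : (0 : ℤ) ≤ Module.finrank K L := Int.natCast_nonneg _
  have hR : (0 : ℤ) ≤ ramDeg κ L K := Int.natCast_nonneg _
  have hM : (0 : ℤ) ≤ trunc₁ S₀ (e * dP) (hval H₀ P e a z) z := Int.natCast_nonneg _
  obtain ⟨T, hT⟩ : ∃ T : ℕ, T = 1 + tri ν * (ν + 1) + tri ν := ⟨_, rfl⟩
  rw [← hT]
  have hT0 : (0 : ℤ) ≤ T := Int.natCast_nonneg _
  by_cases hH0 : hval H₀ P e a z = 0
  · obtain ⟨M, hM', hpart⟩ := hW1 hH0 (r + c + 1) fun S hS => le_of_add_le (c := c) (by
      rw [show r + 1 + c = S.card by omega]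
      exact hgen' S (by omega))
    refine ⟨M, by omega, fun i₀ hi₀ hui₀ => ?_⟩
    obtain ⟨j, hj, hij, huj, hle⟩ := hpart i₀ hi₀ hui₀
    refine ⟨j, hj, hij, huj, hle.trans ?_⟩
    obtain ⟨h1, -, -⟩ := const_mono₂ (dP := dP) hr (le_refl ν)
    have h2 : 1 + tri ν * (ν + 1) + tri ν ≤ T := hT.ge
    refine add_le_add (add_le_add (mul_le_mul_of_nonneg_right (by exact_mod_cast h1) hh) ?_) ?_
    · calc _ ≤ (T : ℤ) * ramDeg κ L K :=
          mul_le_mul_of_nonneg_right (by exact_mod_cast h2) hR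
        _ ≤ _ := mul_le_mul_of_nonneg_left (by linarith) hT0
    · refine mul_le_mul_of_nonneg_right ?_ hF
      have h3 : (0 : ℤ) ≤ (T : ℤ) * C₂ := mul_nonneg hT0 (Int.natCast_nonneg _)
      push_cast
      linarith
  · obtain rfl : c' = c + 1 := by
      rcases hH with h | h
      · exact absurd h hH0
      · exact h
    obtain ⟨M, hM', hpart⟩ := hW2 hH0 (r + c + 2) (e * dP) fun S hS => le_of_add_le (c := c) (by
      rw [show r + 2 + c = S.card by omega]
      exact hgen' S (by omega))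
    refine ⟨M, by omega, fun i₀ hi₀ hui₀ => ?_⟩
    obtain ⟨j, hj, hij, huj, hle⟩ := hpart i₀ hi₀ hui₀
    refine ⟨j, hj, hij, huj, hle.trans ?_⟩
    have h5 := hC₂ L z hz0 (fun _ => by
      rw [aeval_hform]
      exact hH0)
    have h4 : {w : Place κ L | w.1 (hval H₀ P e a z) ≠ vmax w.1 z ^ (e * dP)} =
        {w : Place κ L | ∃ _ : Unit, w.1 (aeval z (hform H₀ P e a)) ≠
          vmax w.1 z ^ (e * dP)} := by
      ext w
      rw [aeval_hform]
      exact ⟨fun h => ⟨(), h⟩, fun ⟨_, h⟩ => h⟩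
    have h6 : {w : Place κ L | (∀ v ∈ S₀, ¬ (w.1.comap (algebraMap K L)).IsEquiv v.1) ∧
        ∃ _ : Unit, w.1 (aeval z (hform H₀ P e a)) < vmax w.1 z ^ (e * dP)} =
        {w : Place κ L | (∀ v ∈ S₀, ¬ (w.1.comap (algebraMap K L)).IsEquiv v.1) ∧
          w.1 (hval H₀ P e a z) < vmax w.1 z ^ (e * dP)} := by
      ext w
      rw [aeval_hform]
      exact ⟨fun ⟨h7, _, h8⟩ => ⟨h7, h8⟩, fun ⟨h7, h8⟩ => ⟨h7, (), h8⟩⟩
    rw [← h4, h6] at h5
    have h7 : (({w : Place κ L | w.1 (hval H₀ P e a z) ≠ vmax w.1 z ^ (e * dP)}.ncard : ℕ) : ℤ) ≤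
        trunc₁ S₀ (e * dP) (hval H₀ P e a z) z + C₂ * Module.finrank K L := by
      unfold trunc₁
      exact_mod_cast h5
    obtain ⟨h1, -, h3⟩ := const_mono₂ (dP := dP) hr (le_refl ν)
    have h2 : 1 + tri ν * (ν + 1) + tri ν ≤ T := hT.ge
    rw [← hT] at h3
    obtain ⟨Y, hY⟩ : ∃ Y : ℤ, Y = (({w : Place κ L | w.1 (hval H₀ P e a z) ≠
      vmax w.1 z ^ (e * dP)}.ncard : ℕ) : ℤ) := ⟨_, rfl⟩
    rw [← hY] at h7 ⊢
    have hY0 : 0 ≤ Y := by
      rw [hY]
      exact Int.natCast_nonneg _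
    obtain ⟨M, hMd⟩ : ∃ M : ℤ, M = trunc₁ S₀ (e * dP) (hval H₀ P e a z) z := ⟨_, rfl⟩
    rw [← hMd] at h7 hM ⊢
    obtain ⟨F, hFd⟩ : ∃ F : ℤ, F = (Module.finrank K L : ℤ) := ⟨_, rfl⟩
    rw [← hFd] at h7 hF ⊢
    obtain ⟨R, hRd⟩ : ∃ R : ℤ, R = (ramDeg κ L K : ℤ) := ⟨_, rfl⟩
    rw [← hRd] at hR ⊢
    have e1 := mul_le_mul_of_nonneg_right (a := height κ z)
      (by exact_mod_cast h1 : (((r + 1) * (1 + tri ν * (ν + 1)) +
        tri ν * (ν + 1) * dP : ℕ) : ℤ) ≤
        (((n + 1) * (1 + tri ν * (ν + 1)) + tri ν * (ν + 1) * dP : ℕ) : ℤ)) hh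
    have e2 := mul_le_mul_of_nonneg_right (a := Y)
      (by exact_mod_cast h3 : ((1 + tri ν * (ν + 1) : ℕ) : ℤ) ≤ T) hY0
    have e3 := mul_le_mul_of_nonneg_right (a := R)
      (by exact_mod_cast h2 : ((1 + tri ν * (ν + 1) + tri ν : ℕ) : ℤ) ≤ T) hR
    have e4 := mul_le_mul_of_nonneg_left h7 hT0
    have e6 : (((W + T * C₂ : ℕ) : ℤ)) * F = (W : ℤ) * F + T * (C₂ * F) := by
      push_cast
      ring
    rw [e6]
    linarith

end Pool.Agent.Lib.MP_44a246_ntFG
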