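import Mathlib
import Pool.Agent.Lib.MP_44a246_ntFP.FP32
import Pool.Agent.Lib.MP_44a246_ntFG.FG4

/-!
The height inequality for forms which are general linear combinations of forms without common zero,
for a field of definition of finite transcendence degree.
-/

namespace Pool.Agent.Lib.MP_44a246_ntFG

open Pool.Agent.Lib.MP_44a246_nt
open Pool.Agent.Lib.MP_44a246_ntL
open Pool.Agent.Lib.MP_44a246_ntX
open Pool.Agent.Lib.MP_44a246_ntMS
open Pool.Agent.Lib.MP_44a246_ntFP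
open Pool.Agent.Lib.MP_e52354_ntMR
open Pool.Agent.Lib.MP_44a246_ntR (imI mem_imI card_le_of_dimI_norm)
open WithZero MvPolynomial

universe u v w x

/-- a maximal family of independent coordinates -/
theorem exists_rank {k L : Type*} [Field k] [Field L] [Algebra k L] {N n : ℕ} {z : Fin N → L}
    (h : ∀ (p : ℕ) (j : Fin p → Fin N), AlgebraicIndependent k (fun i => z (j i)) → p ≤ n) :
    ∃ (w : ℕ) (T : Fin w → Fin N), w ≤ n ∧ AlgebraicIndependent k (fun i => z (T i)) ∧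
      ∀ (p : ℕ) (j : Fin p → Fin N), AlgebraicIndependent k (fun i => z (j i)) → p ≤ w := by
  classical
  let Q : ℕ → Prop := fun p => ∃ j : Fin p → Fin N, AlgebraicIndependent k (fun i => z (j i))
  have hQ0 : Q 0 := ⟨Fin.elim0, by
    have : IsEmpty (Fin 0) := inferInstance
    rw [algebraicIndependent_empty_type_iff]
    exact (algebraMap k L).injective⟩
  obtain ⟨p, hpr, ⟨j, hj⟩, hgr⟩ : ∃ p, p ≤ n ∧ Q p ∧ ∀ q, q ≤ n → Q q → q ≤ p :=
    ⟨Nat.findGreatest Q n, Nat.findGreatest_le n,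
      Nat.findGreatest_spec (P := Q) (Nat.zero_le n) hQ0,
      fun q hq hQ => Nat.le_findGreatest hq hQ⟩
  exact ⟨p, j, hpr, hj, fun q j' hj' => hgr q (h q j' hj') ⟨j', hj'⟩⟩

/-- the rank of a point of a variety -/
theorem rank_le_dim {k L : Type*} [Field k] [Field L] [Algebra k L] [CharZero k] {N m n : ℕ}
    {g : Fin m → MvPolynomial (Fin (N + 1)) k} {dg : Fin m → ℕ}
    (hg : ∀ i, (g i).IsHomogeneous (dg i))
    (hdim : ringKrullDim (MvPolynomial (Fin (N + 1)) k ⧸ Ideal.span (Set.range g)) ≤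
      ((n + 1 : ℕ) : WithBot ℕ∞)) {z : Fin (N + 1) → L} {j₀ : Fin (N + 1)} (hz : z j₀ = 1)
    (hzg : ∀ i, aeval z (g i) = 0) (p : ℕ) (j : Fin p → Fin (N + 1))
    (hj : AlgebraicIndependent k (fun i => z (j i))) : p ≤ n := by
  classical
  obtain ⟨f, hf⟩ : ∃ f : Fin m → MvPolynomial (Fin 0 ⊕ Fin (N + 1)) k,
      f = fun i => rename Sum.inr (g i) := ⟨_, rfl⟩
  have hwf : ∀ i, (f i).IsWeightedHomogeneous
      (Sum.elim (fun _ : Fin 0 => 0) fun _ => 1) (dg i) := by
    intro i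
    rw [hf]
    exact rename_weighted (w := 1) (f := (Sum.inr : Fin (N + 1) → Fin 0 ⊕ Fin (N + 1)))
      (fun _ => rfl) (hg i)
  have hI : imI f = Ideal.span (Set.range g) := by
    have h1 := comap_rename_span (σ := Fin 0) g
    rw [← h1, hf]
    rfl
  refine card_le_of_dimI_norm (d := fun _ : Fin 0 => 0) hwf (r := n) (by
    rw [hI]
    exact hdim) (γ := z) (η := fun _ => 0) (fun i => ?_) (ξ := Pi.single j₀ 1) ?_ hj
  · rw [hf, aeval_rename]
    exact hzg i
  · rw [Finset.sum_eq_single j₀]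
    · rw [Pi.single_eq_same, Nat.cast_one, one_mul, hz]
    · intro j _ hj
      rw [Pi.single_eq_of_ne hj, Nat.cast_zero, zero_mul]
    · intro h
      exact absurd (Finset.mem_univ _) h

/-- the truncated counting function does not depend on the coordinates of the point -/
theorem trunc₁_smul {κ K L : Type*} [Field κ] [Field K] [Field L] [Algebra κ K] [Algebra κ L]
    [Algebra K L] (S : Set (Place κ K)) (d : ℕ) {N : ℕ} (h : L) (z : Fin (N + 1) → L) {t : L}
    (ht : t ≠ 0) : trunc₁ S d (t ^ d * h) (fun i => t * z i) = trunc₁ S d h z := by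
  unfold trunc₁
  congr 1
  ext w
  have hw0 : w.1 t ≠ 0 := (Valuation.ne_zero_iff _).2 ht
  have h5 : vmax w.1 (fun i => t * z i) = w.1 t * vmax w.1 z := vmax_smul _ _ _
  rw [Set.mem_ofPred_eq, Set.mem_ofPred_eq, h5, map_mul, map_pow, mul_pow,
    mul_lt_mul_iff_right₀ (zero_lt_iff.2 (pow_ne_zero d hw0))]

/-- the value of the form at proportional points -/
theorem hval_smul {k K L : Type*} [Field k] [Field K] [Field L] [Algebra k L] [Algebra K L]
    {N q e δ : ℕ} {H₀ : MvPolynomial (Fin (N + 1)) k} (hH₀ : H₀.IsHomogeneous (e * δ))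
    {P : Fin q → MvPolynomial (Fin (N + 1)) k} (hP : ∀ j, (P j).IsHomogeneous δ) (a : Fin q → K)
    (z : Fin (N + 1) → L) (t : L) :
    hval H₀ P e a (fun i => t * z i) = t ^ (e * δ) * hval H₀ P e a z := by
  have hhom : ∀ {Q : MvPolynomial (Fin (N + 1)) k} {E : ℕ}, Q.IsHomogeneous E →
      aeval (fun i => t * z i) Q = t ^ E * aeval z Q := by
    intro Q E hQ
    have h1 := aeval_smul_weighted (k₀ := k) (k := L) (w := 1) (n := E) hQ t z
    simp only [Pi.one_apply, pow_one] at h1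
    exact h1
  unfold hval
  rw [hhom hH₀, mul_add, Finset.mul_sum]
  congr 1
  refine Finset.sum_congr rfl fun j _ => ?_
  rw [hhom (hP j), mul_pow, ← pow_mul, mul_comm δ e]
  ring

/-- **The height inequality**, for a field of definition of finite transcendence degree. -/
theorem few_lin_core {k : Type x} [Field k] [CharZero k]
    (htk : Algebra.trdeg ℚ k < Cardinal.aleph0) {N m q r n c c' δ θ : ℕ} (hr : 1 ≤ r)
    (hδ : 1 ≤ δ) (hc' : c' = c ∨ c' = c + 1)
    {g : Fin m → MvPolynomial (Fin (N + 1)) k} {dg : Fin m → ℕ}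
    (hg : ∀ i, (g i).IsHomogeneous (dg i))
    (hdim : ringKrullDim (MvPolynomial (Fin (N + 1)) k ⧸ Ideal.span (Set.range g)) ≤
      ((n + 1 : ℕ) : WithBot ℕ∞)) {Z : Fin (r + 1) → MvPolynomial (Fin (N + 1)) k}
    (hZ : ∀ l, (Z l).IsHomogeneous δ)
    (hZ0 : ∀ y : Fin (N + 1) → AlgebraicClosure k, (∀ i, aeval y (g i) = 0) →
      (∀ l, aeval y (Z l) = 0) → y = 0)
    (hAlg : ∀ (E : Type w) [Field E] [Algebra k E] (x : Fin (N + 1) → E) (j₀ : Fin (N + 1))
      (l₀ : Fin (r + 1)), x j₀ = 1 → (∀ i, aeval x (g i) = 0) → aeval x (Z l₀) ≠ 0 →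
      ∀ i, IsAlgebraic (IntermediateField.adjoin k
        (Set.range fun l => aeval x (Z l) / aeval x (Z l₀))) (x i))
    {Φ : MvPolynomial (Fin q × Fin (r + 1)) ℚ} (hΦ : DataOK.{w} q r c' Φ)
    {A : Fin q → Fin (r + 1) → k}
    (hA : aeval (fun p : Fin q × Fin (r + 1) => A p.1 p.2) Φ ≠ 0)
    {κ : Type u} {K : Type v} [Field κ] [IsAlgClosed κ] [CharZero κ] [Field K] [CharZero K]
    [Algebra κ K] (hK : IsFF κ K) [Algebra k K] {e : ℕ}
    (he : r * (n + c' + 1) ^ 3 * (n + θ + 2) ≤ e)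
    {H₀ : MvPolynomial (Fin (N + 1)) k} (hH₀ : H₀.IsHomogeneous (e * δ)) (a : Fin q → K)
    (hgen : (q : Cardinal) ≤ Algebra.trdeg k (IntermediateField.adjoin k (Set.range a)) + c)
    {S₀ : Set (Place κ K)} (hS₀ : S₀.Finite) :
    ∃ C : ℕ, ∀ (L : Type w) [Field L] [Algebra K L] [FiniteDimensional K L] [Algebra κ L]
      [IsScalarTower κ K L] [Algebra k L] [IsScalarTower k K L] (z : Fin (N + 1) → L), z ≠ 0 →
      (∀ i, aeval z (g i) = 0) → (hval H₀ (linP Z A) e a z = 0 ∨ c' = c + 1) →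
      (θ : ℤ) * height κ z ≤ trunc₁ S₀ (e * δ) (hval H₀ (linP Z A) e a z) z +
        ramDeg κ L K + C * Module.finrank K L := by
  classical
  obtain ⟨W, hW⟩ := close_rk.{u, v, w, x, x} hK (k₁ := k) htk (k := k) (n := n) hc'
    (P := linP Z A) (linP_hom hZ A) hH₀ a hgen hS₀
  obtain ⟨C₂, hC₂⟩ := lin_height.{u, v, w, x} hg hZ hZ0 hAlg hΦ hA hK
  refine ⟨W + e * δ * C₂, ?_⟩
  intro L _ _ _ _ _ _ _ z hz hzg hH
  have hL : IsFF κ L := hK.of_finite
  obtain ⟨j₀, hj₀⟩ : ∃ j₀, z j₀ ≠ 0 := by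
    by_contra hcon
    push Not at hcon
    exact hz (funext hcon)
  obtain ⟨t, ht⟩ : ∃ t, t = (z j₀)⁻¹ := ⟨_, rfl⟩
  have ht0 : t ≠ 0 := by rw [ht]; exact inv_ne_zero hj₀
  obtain ⟨x, hx⟩ : ∃ x : Fin (N + 1) → L, x = fun i => t * z i := ⟨_, rfl⟩
  have hx1 : x j₀ = 1 := by
    rw [hx, ht]
    exact inv_mul_cancel₀ hj₀
  have hHx : hval H₀ (linP Z A) e a x = t ^ (e * δ) * hval H₀ (linP Z A) e a z := by
    rw [hx]
    exact hval_smul hH₀ (linP_hom hZ A) a z t
  have hhx : height κ x = height κ z := by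
    rw [hx]
    exact hL.height_smul ht0
  have htr : trunc₁ S₀ (e * δ) (hval H₀ (linP Z A) e a x) x =
      trunc₁ S₀ (e * δ) (hval H₀ (linP Z A) e a z) z := by
    rw [hHx, hx]
    exact trunc₁_smul S₀ (e * δ) _ z ht0
  have hxg : ∀ i, aeval x (g i) = 0 := by
    intro i
    have h1 := aeval_smul_weighted (k₀ := k) (k := L) (w := 1) (n := dg i) (hg i) t z
    simp only [Pi.one_apply, pow_one] at h1
    rw [hx]
    refine h1.trans ?_
    rw [hzg, mul_zero]
  have hHx' : hval H₀ (linP Z A) e a x = 0 ∨ c' = c + 1 := by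
    rcases hH with h | h
    · left
      rw [hHx, h, mul_zero]
    · exact Or.inr h
  rw [← hhx, ← htr]
  have hx0 : x ≠ 0 := by
    intro h0
    rw [h0] at hx1
    exact zero_ne_one hx1
  obtain ⟨w, T, hwn, hT, hmax⟩ := exists_rank (rank_le_dim hg hdim hx1 hxg)
  have hh : 0 ≤ height κ x := hL.height_nonneg hx0
  have hF : (0 : ℤ) ≤ Module.finrank K L := Int.natCast_nonneg _
  obtain ⟨M, hM⟩ : ∃ M : ℤ, M = trunc₁ S₀ (e * δ) (hval H₀ (linP Z A) e a x) x := ⟨_, rfl⟩
  have hM0 : 0 ≤ M := by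
    rw [hM]
    exact Int.natCast_nonneg _
  rw [← hM]
  have h1 := hC₂ L x j₀ hx1 hxg w T hT e ((((n + 1) * (1 + tri (n + c') * (n + c' + 1)) +
            tri (n + c') * (n + c' + 1) * δ : ℕ) : ℤ) * height κ x +
          ((1 + tri (n + c') * (n + c' + 1) + tri (n + c') : ℕ) : ℤ) * (M + ramDeg κ L K) +
          W * Module.finrank K L) (by positivity) (fun S hS hSx => by
      obtain ⟨i, hi, j, hj, hij, hle⟩ := hW L x j₀ hx1 hHx' w hwn hmax S hS hSx
      refine ⟨i, hi, j, hj, hij, hle.trans (le_of_eq ?_)⟩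
      rw [hM])
  have h2 := final_arith_gp (θ := θ) (n := n) (ν := n + c') hr hδ he hh
    (Int.natCast_nonneg W) hF (Int.natCast_nonneg C₂) h1
  push_cast at h2 ⊢
  exact h2

end Pool.Agent.Lib.MP_44a246_ntFG
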