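import Mathlib
import Pool.Agent.Lib.MP_44a246_ntFG.FG5
import Pool.Agent.Lib.MP_44a246_ntFG.FG21
import Pool.Agent.Lib.MP_44a246_ntFG.FG24
import Pool.Agent.Lib.MP_44a246_ntFG.FG28

/-!
The height inequality for forms which are general linear combinations of forms without common zero,
if any few of the parameters are independent, for a field of definition of finite transcendence
degree.
-/

namespace Pool.Agent.Lib.MP_44a246_ntFG

open Pool.Agent.Lib.MP_44a246_nt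
open Pool.Agent.Lib.MP_44a246_ntL
open Pool.Agent.Lib.MP_44a246_ntX
open Pool.Agent.Lib.MP_44a246_ntMS
open Pool.Agent.Lib.MP_44a246_ntFP
open Pool.Agent.Lib.MP_e52354_ntMR
open WithZero MvPolynomial

universe u v w x

/-- **The height inequality**, for a field of definition of finite transcendence degree. -/
theorem few_part_core {k : Type x} [Field k] [CharZero k]
    (htk : Algebra.trdeg ℚ k < Cardinal.aleph0) {N m q r n c c' δ θ : ℕ} (hr : 1 ≤ r)
    (hδ : 1 ≤ δ) (hc' : c' = c ∨ c' = c + 1) (hrq : 4 * r + c' ≤ q + 1)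
    {g : Fin m → MvPolynomial (Fin (N + 1)) k} {dg : Fin m → ℕ}
    (hg : ∀ i, (g i).IsHomogeneous (dg i))
    (hdim : ringKrullDim (MvPolynomial (Fin (N + 1)) k ⧸ Ideal.span (Set.range g)) ≤
      ((n + 1 : ℕ) : WithBot ℕ∞)) {Z : Fin (r + 1) → MvPolynomial (Fin (N + 1)) k}
    (hZ : ∀ l, (Z l).IsHomogeneous δ)
    (hZ0 : ∀ y : Fin (N + 1) → AlgebraicClosure k, (∀ i, aeval y (g i) = 0) →
      (∀ l, aeval y (Z l) = 0) → y = 0)
    (hAlg : ∀ (E : Type w) [Field E] [Algebra k E] (x : Fin (N + 1) → E) (j₀ : Fin (N + 1))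
      (l₀ : Fin (r + 1)), x j₀ = 1 → (∀ i, aeval x (g i) = 0) → aeval x (Z l₀) ≠ 0 →
      ∀ i, IsAlgebraic (IntermediateField.adjoin k
        (Set.range fun l => aeval x (Z l) / aeval x (Z l₀))) (x i))
    {Φ : MvPolynomial (Fin q × Fin (r + 1)) ℚ} (hΦ : DataSub.{w} q r Φ)
    {A : Fin q → Fin (r + 1) → k}
    (hA : aeval (fun p : Fin q × Fin (r + 1) => A p.1 p.2) Φ ≠ 0)
    {κ : Type u} {K : Type v} [Field κ] [IsAlgClosed κ] [CharZero κ] [Field K] [CharZero K]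
    [Algebra κ K] (hK : IsFF κ K) [Algebra k K] {e : ℕ}
    (he : r * q ^ 3 * (n + θ + 2) ≤ e)
    {H₀ : MvPolynomial (Fin (N + 1)) k} (hH₀ : H₀.IsHomogeneous (e * δ)) (a : Fin q → K)
    (hgen : ∀ S : Finset (Fin q), S.card ≤ n + c' + 1 → (S.card : Cardinal) ≤
      Algebra.trdeg k (IntermediateField.adjoin k (a '' (S : Set (Fin q)))) + c)
    {S₀ : Set (Place κ K)} (hS₀ : S₀.Finite) :
    ∃ C : ℕ, ∀ (L : Type w) [Field L] [Algebra K L] [FiniteDimensional K L] [Algebra κ L]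
      [IsScalarTower κ K L] [Algebra k L] [IsScalarTower k K L] (z : Fin (N + 1) → L), z ≠ 0 →
      (∀ i, aeval z (g i) = 0) → (hval H₀ (linP Z A) e a z = 0 ∨ c' = c + 1) →
      (θ : ℤ) * height κ z ≤ trunc₁ S₀ (e * δ) (hval H₀ (linP Z A) e a z) z +
        ramDeg κ L K + C * Module.finrank K L := by
  classical
  obtain ⟨ν, hν⟩ : ∃ ν, q = ν + 1 := ⟨q - 1, by omega⟩
  have he1 : 1 ≤ e := by
    refine le_trans ?_ he
    have h1 : 1 ≤ q ^ 3 := Nat.one_le_pow _ _ (by omega)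
    exact Nat.mul_pos (Nat.mul_pos hr h1) (by omega)
  obtain ⟨W, hW⟩ := partner_rk.{u, v, w, x, x} hK (k₁ := k) htk (k := k) (n := n) hc' hν he1
    (P := linP Z A) (linP_hom hZ A) hH₀ a hgen hS₀
  obtain ⟨C₂, hC₂⟩ := lin_height_centres.{u, v, w, x} hg hZ hZ0 hAlg hΦ hA hK
  refine ⟨W + e * δ * C₂, ?_⟩
  intro L _ _ _ _ _ _ _ z hz hzg hH
  have hL : IsFF κ L := hK.of_finite
  obtain ⟨j₀, hj₀⟩ : ∃ j₀, z j₀ ≠ 0 := by
    by_contra hcon
    push Not at hcon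
    exact hz (funext hcon)
  obtain ⟨t, ht⟩ : ∃ t, t = (z j₀)⁻¹ := ⟨_, rfl⟩
  have ht0 : t ≠ 0 := by rw [ht]; exact inv_ne_zero hj₀
  obtain ⟨x, hx⟩ : ∃ x : Fin (N + 1) → L, x = fun i => t * z i := ⟨_, rfl⟩
  have hx1 : x j₀ = 1 := by
    rw [hx, ht]
    exact inv_mul_cancel₀ hj₀
  have hHx : hval H₀ (linP Z A) e a x = t ^ (e * δ) * hval H₀ (linP Z A) e a z := by
    rw [hx]
    exact hval_smul hH₀ (linP_hom hZ A) a z t
  have hhx : height κ x = height κ z := by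
    rw [hx]
    exact hL.height_smul ht0
  have htr : trunc₁ S₀ (e * δ) (hval H₀ (linP Z A) e a x) x =
      trunc₁ S₀ (e * δ) (hval H₀ (linP Z A) e a z) z := by
    rw [hHx, hx]
    exact trunc₁_smul S₀ (e * δ) _ z ht0
  have hxg : ∀ i, aeval x (g i) = 0 := by
    intro i
    have h1 := aeval_smul_weighted (k₀ := k) (k := L) (w := 1) (n := dg i) (hg i) t z
    simp only [Pi.one_apply, pow_one] at h1
    rw [hx]
    refine h1.trans ?_
    rw [hzg, mul_zero]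
  have hHx' : hval H₀ (linP Z A) e a x = 0 ∨ c' = c + 1 := by
    rcases hH with h | h
    · left
      rw [hHx, h, mul_zero]
    · exact Or.inr h
  rw [← hhx, ← htr]
  have hx0 : x ≠ 0 := by
    intro h0
    rw [h0] at hx1
    exact zero_ne_one hx1
  obtain ⟨w, T, hwn, hT, hmax⟩ := exists_rank (rank_le_dim hg hdim hx1 hxg)
  have hh : 0 ≤ height κ x := hL.height_nonneg hx0
  have hF : (0 : ℤ) ≤ Module.finrank K L := Int.natCast_nonneg _
  obtain ⟨M, hM⟩ : ∃ M : ℤ, M = trunc₁ S₀ (e * δ) (hval H₀ (linP Z A) e a x) x := ⟨_, rfl⟩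
  have hM0 : 0 ≤ M := by
    rw [hM]
    exact Int.natCast_nonneg _
  rw [← hM]
  obtain ⟨E₁, hE₁⟩ : ∃ E₁ : ℤ, E₁ = (((n + 1) * (1 + tri ν * (ν + 1)) +
      tri ν * (ν + 1) * δ : ℕ) : ℤ) * height κ x +
    ((1 + tri ν * (ν + 1) + tri ν : ℕ) : ℤ) * (M + ramDeg κ L K) +
    W * Module.finrank K L := ⟨_, rfl⟩
  have hE₁0 : 0 ≤ E₁ := by
    rw [hE₁]
    positivity
  obtain ⟨Mx, hMx, hpart⟩ := hW L x j₀ hx1 hHx' w hwn hmax
  rw [← hM, ← hE₁] at hpart
  obtain ⟨J, hJ⟩ : ∃ J : Finset (Fin q), J = Finset.univ.filter fun j =>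
    j ∉ Mx ∧ aeval x (linP Z A j) ≠ 0 := ⟨_, rfl⟩
  have hmemJ : ∀ j, j ∈ J ↔ j ∉ Mx ∧ aeval x (linP Z A j) ≠ 0 := by
    intro j
    rw [hJ]
    simp
  have hJc : J.card + Mx.card ≤ q := by
    have h1 : J ⊆ Mxᶜ := fun j hj => Finset.mem_compl.2 ((hmemJ j).1 hj).1
    have h2 := Finset.card_le_card h1
    rw [Finset.card_compl, Fintype.card_fin] at h2
    have h3 := Finset.card_le_univ Mx
    rw [Fintype.card_fin] at h3
    omega
  obtain ⟨I, s, hIc, hIJ, hs⟩ := exists_centres J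
    (fun i j => (e : ℤ) * height κ ![aeval x (linP Z A i), aeval x (linP Z A j)] ≤ E₁)
    (fun i j h1 => by
      rw [height_pair_comm]
      exact h1) (fun j hj => by
      obtain ⟨i, hi, hij, hui, hle⟩ := hpart j ((hmemJ j).1 hj).1 ((hmemJ j).1 hj).2
      refine ⟨i, (hmemJ i).2 ⟨hi, hui⟩, fun h => hij h.symm, ?_⟩
      rw [height_pair_comm]
      exact hle)
  have h1 := hC₂ L x j₀ hx1 hxg w T hT e E₁ hE₁0 Mx I s (by omega)
    (fun i hi => (hmemJ i).1 (hIJ hi)) (fun j hjM hju => by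
      obtain ⟨h2, h3⟩ := hs j ((hmemJ j).2 ⟨hjM, hju⟩)
      refine ⟨h2, ?_⟩
      rcases h3 with h3 | h3
      · rw [h3, height_pair_self hL hju, mul_zero]
        exact hE₁0
      · exact h3)
  rw [hE₁] at h1
  have h2 := final_arith_gp (θ := θ) (n := n) (ν := ν) hr hδ (by rw [← hν]; exact he) hh
    (Int.natCast_nonneg W) hF (Int.natCast_nonneg C₂) h1
  push_cast at h2 ⊢
  exact h2

end Pool.Agent.Lib.MP_44a246_ntFG
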