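import Mathlib
import Pool.Agent.Lib.MP_44a246_ntFP.FP14
import Pool.Agent.Lib.MP_44a246_ntFG.FG6
import Pool.Agent.Lib.MP_44a246_ntFG.FG29

/-!
The height inequality for forms which are general linear combinations of forms without common zero,
if any few of the parameters are independent, for all fields of definition.
-/

namespace Pool.Agent.Lib.MP_44a246_ntFG

open Pool.Agent.Lib.MP_44a246_nt
open Pool.Agent.Lib.MP_44a246_ntL
open Pool.Agent.Lib.MP_44a246_ntTV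
open Pool.Agent.Lib.MP_44a246_ntMS
open Pool.Agent.Lib.MP_44a246_ntFP
open WithZero MvPolynomial

universe u v w x

/-- **The height inequality** for general linear combinations of forms without common zero, if any
few of the parameters are independent. -/
theorem few_part (hAlg : AlgOK.{w, x}) {k : Type x} [Field k] [CharZero k]
    {N m q r n c c' δ θ : ℕ} (hr : 1 ≤ r)
    (hδ : 1 ≤ δ) (hc' : c' = c ∨ c' = c + 1) (hrq : 4 * r + c' ≤ q + 1)
    {g : Fin m → MvPolynomial (Fin (N + 1)) k} {dg : Fin m → ℕ}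
    (hg : ∀ i, (g i).IsHomogeneous (dg i))
    (hdim : ringKrullDim (MvPolynomial (Fin (N + 1)) k ⧸ Ideal.span (Set.range g)) ≤
      ((n + 1 : ℕ) : WithBot ℕ∞)) {Z : Fin (r + 1) → MvPolynomial (Fin (N + 1)) k}
    (hZ : ∀ l, (Z l).IsHomogeneous δ)
    (hZ0 : ∀ y : Fin (N + 1) → AlgebraicClosure k, (∀ i, aeval y (g i) = 0) →
      (∀ l, aeval y (Z l) = 0) → y = 0)
    {Φ : MvPolynomial (Fin q × Fin (r + 1)) ℚ} (hΦ : DataSub.{w} q r Φ)
    {A : Fin q → Fin (r + 1) → k}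
    (hA : aeval (fun p : Fin q × Fin (r + 1) => A p.1 p.2) Φ ≠ 0)
    {κ : Type u} {K : Type v} [Field κ] [IsAlgClosed κ] [CharZero κ] [Field K] [CharZero K]
    [Algebra κ K] (hK : IsFF κ K) [Algebra k K] {e : ℕ}
    (he : r * q ^ 3 * (n + θ + 2) ≤ e)
    {H₀ : MvPolynomial (Fin (N + 1)) k} (hH₀ : H₀.IsHomogeneous (e * δ)) (a : Fin q → K)
    (hgen : ∀ S : Finset (Fin q), S.card ≤ n + c' + 1 → (S.card : Cardinal) ≤
      Algebra.trdeg k (IntermediateField.adjoin k (a '' (S : Set (Fin q)))) + c)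
    {S₀ : Set (Place κ K)} (hS₀ : S₀.Finite) :
    ∃ C : ℕ, ∀ (L : Type w) [Field L] [Algebra K L] [FiniteDimensional K L] [Algebra κ L]
      [IsScalarTower κ K L] [Algebra k L] [IsScalarTower k K L] (z : Fin (N + 1) → L), z ≠ 0 →
      (∀ i, aeval z (g i) = 0) → (hval H₀ (linP Z A) e a z = 0 ∨ c' = c + 1) →
      (θ : ℤ) * height κ z ≤ trunc₁ S₀ (e * δ) (hval H₀ (linP Z A) e a z) z +
        ramDeg κ L K + C * Module.finrank K L := by
  classical
  obtain ⟨k₀, _, _, _, htk, F, hF⟩ := exists_base_fld (k := k)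
    (Sum.elim g (Sum.elim Z (Sum.elim (fun _ : Unit => H₀)
      (fun p : Fin q × Fin (r + 1) => (C (A p.1 p.2) : MvPolynomial (Fin (N + 1)) k)))))
  obtain ⟨g₀, hg₀d⟩ : ∃ g₀ : Fin m → MvPolynomial (Fin (N + 1)) k₀,
    g₀ = fun i => F (Sum.inl i) := ⟨_, rfl⟩
  obtain ⟨Z₀, hZ₀d⟩ : ∃ Z₀ : Fin (r + 1) → MvPolynomial (Fin (N + 1)) k₀,
    Z₀ = fun l => F (Sum.inr (Sum.inl l)) := ⟨_, rfl⟩
  obtain ⟨G₀, hG₀d⟩ : ∃ G₀ : MvPolynomial (Fin (N + 1)) k₀,
    G₀ = F (Sum.inr (Sum.inr (Sum.inl ()))) := ⟨_, rfl⟩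
  obtain ⟨A₀, hA₀d⟩ : ∃ A₀ : Fin q → Fin (r + 1) → k₀,
    A₀ = fun j l => coeff 0 (F (Sum.inr (Sum.inr (Sum.inr (j, l))))) := ⟨_, rfl⟩
  have hg₀ : ∀ i, map (algebraMap k₀ k) (g₀ i) = g i := fun i => by
    rw [hg₀d]
    exact hF (Sum.inl i)
  have hZ₀ : ∀ l, map (algebraMap k₀ k) (Z₀ l) = Z l := fun l => by
    rw [hZ₀d]
    exact hF (Sum.inr (Sum.inl l))
  have hG₀ : map (algebraMap k₀ k) G₀ = H₀ := by
    rw [hG₀d]
    exact hF (Sum.inr (Sum.inr (Sum.inl ())))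
  have hA₀ : ∀ j l, algebraMap k₀ k (A₀ j l) = A j l := by
    intro j l
    have h1 := congrArg (coeff 0) (hF (Sum.inr (Sum.inr (Sum.inr (j, l)))))
    rw [coeff_map] at h1
    rw [hA₀d]
    refine h1.trans ?_
    show coeff 0 (C (A j l)) = A j l
    rw [coeff_C, if_pos rfl]
  let _ : Algebra k₀ K := ((algebraMap k K).comp (algebraMap k₀ k)).toAlgebra
  have s0 : IsScalarTower k₀ k K := IsScalarTower.of_algebraMap_eq fun _ => rfl
  have hhom : ∀ {Q : MvPolynomial (Fin (N + 1)) k₀} {Q' : MvPolynomial (Fin (N + 1)) k} {d : ℕ},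
      map (algebraMap k₀ k) Q = Q' → Q'.IsHomogeneous d → Q.IsHomogeneous d := by
    intro Q Q' d h1 h2 m hm
    refine h2 ?_
    rw [← h1, coeff_map]
    exact fun h0 => hm ((map_eq_zero _).1 h0)
  have hdim₀ : ringKrullDim (MvPolynomial (Fin (N + 1)) k₀ ⧸ Ideal.span (Set.range g₀)) ≤
      ((n + 1 : ℕ) : WithBot ℕ∞) := by
    refine (dim_descent (k := k) g₀).trans ?_
    have h1 : (fun i => map (algebraMap k₀ k) (g₀ i)) = g := funext hg₀
    rw [h1]
    exact hdim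
  have hZ0₀ : ∀ y : Fin (N + 1) → AlgebraicClosure k₀, (∀ i, aeval y (g₀ i) = 0) →
      (∀ l, aeval y (Z₀ l) = 0) → y = 0 := by
    intro y hy1 hy2
    obtain ⟨φ, -⟩ : ∃ φ : AlgebraicClosure k₀ →ₐ[k₀] AlgebraicClosure k, True :=
      ⟨IsAlgClosed.lift, trivial⟩
    have h1 : ∀ {Q : MvPolynomial (Fin (N + 1)) k₀} {Q' : MvPolynomial (Fin (N + 1)) k},
        map (algebraMap k₀ k) Q = Q' → aeval y Q = 0 → aeval (fun i => φ (y i)) Q' = 0 := by
      intro Q Q' h2 h3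
      rw [← h2, aeval_map_algebraMap]
      have h4 : aeval (fun i => φ (y i)) Q = φ (aeval y Q) := by
        rw [← AlgHom.comp_apply, comp_aeval]
      rw [h4, h3, map_zero]
    have h2 := hZ0 (fun i => φ (y i)) (fun i => h1 (hg₀ i) (hy1 i)) fun l =>
      h1 (hZ₀ l) (hy2 l)
    funext i
    have h3 := congrFun h2 i
    exact (map_eq_zero_iff φ φ.toRingHom.injective).1 h3
  have hgen' : ∀ S : Finset (Fin q), S.card ≤ n + c' + 1 → (S.card : Cardinal) ≤
      Algebra.trdeg k₀ (IntermediateField.adjoin k₀ (a '' (S : Set (Fin q)))) + c := by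
    intro S hS
    refine (hgen S hS).trans ?_
    gcongr
    exact trdeg_image_le (k₀ := k₀) (k := k) a S
  have hAΦ : aeval (fun p : Fin q × Fin (r + 1) => A₀ p.1 p.2) Φ ≠ 0 := by
    intro h0
    apply hA
    have h1 : (fun p : Fin q × Fin (r + 1) => A p.1 p.2) =
        algebraMap k₀ k ∘ fun p : Fin q × Fin (r + 1) => A₀ p.1 p.2 :=
      funext fun p => (hA₀ p.1 p.2).symm
    rw [h1, aeval_algebraMap_apply, h0, map_zero]
  have hZh₀ : ∀ l, (Z₀ l).IsHomogeneous δ := fun l => hhom (hZ₀ l) (hZ l)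
  have hgh₀ : ∀ i, (g₀ i).IsHomogeneous (dg i) := fun i => hhom (hg₀ i) (hg i)
  obtain ⟨C, hC⟩ := few_part_core.{u, v, w, x} (k := k₀) htk (n := n) (θ := θ) hr hδ hc' hrq hgh₀
    hdim₀ hZh₀ hZ0₀ (hAlg k₀ N m r δ g₀ dg hgh₀ Z₀ hδ hZh₀ hZ0₀) hΦ hAΦ hK he
    (hhom hG₀ hH₀) a hgen' hS₀
  refine ⟨C, ?_⟩
  intro L _ _ _ _ _ _ _ z hz hzg hH
  let _ : Algebra k₀ L := ((algebraMap k L).comp (algebraMap k₀ k)).toAlgebra
  have s1 : IsScalarTower k₀ k L := IsScalarTower.of_algebraMap_eq fun _ => rfl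
  have s2 : IsScalarTower k₀ K L := IsScalarTower.of_algebraMap_eq fun c => by
    rw [IsScalarTower.algebraMap_apply k₀ k L, IsScalarTower.algebraMap_apply k K L,
      IsScalarTower.algebraMap_apply k₀ k K]
  have hval : hval H₀ (linP Z A) e a z = hval G₀ (linP Z₀ A₀) e a z := by
    unfold hval
    rw [← hG₀, aeval_map_algebraMap]
    congr 1
    refine Finset.sum_congr rfl fun j _ => ?_
    congr 2
    rw [aeval_linP, aeval_linP]
    refine Finset.sum_congr rfl fun l _ => ?_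
    rw [← hA₀, ← hZ₀, aeval_map_algebraMap, ← IsScalarTower.algebraMap_apply]
  rw [hval] at hH ⊢
  exact hC L z hz (fun i => by
    have h1 := hzg i
    rwa [← hg₀, aeval_map_algebraMap] at h1) hH

end Pool.Agent.Lib.MP_44a246_ntFG
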