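import Mathlib
import Pool.Agent.Lib.MP_44a246_ntFP.FP05

/-!
The coordinates of a point of a projective variety are algebraic over the field generated by the
quotients of the values of forms without common zero on the variety.
-/

namespace Pool.Agent.Lib.MP_44a246_ntFG

open Pool.Agent.Lib.MP_44a246_ntFP (exists_null)
open MvPolynomial

section

variable {k E : Type*} [Field k] [Field E] [Algebra k E]

open Classical in
/-- the space of the values of the forms of degree `d` over `F` at `x` -/
noncomputable def valSp (F : IntermediateField k E) {N : ℕ} (x : Fin N → E) (d : ℕ) :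
    Submodule F E :=
  Submodule.span F ((fun m : Fin N → ℕ => ∏ i, x i ^ m i) ''
    ((Finset.univ : Finset (Fin N)).piAntidiag d : Set (Fin N → ℕ)))

theorem mono_mem_valSp (F : IntermediateField k E) {N : ℕ} (x : Fin N → E) {d : ℕ}
    {m : Fin N → ℕ} (hm : ∑ i, m i = d) : ∏ i, x i ^ m i ∈ valSp F x d := by
  classical
  refine Submodule.subset_span ⟨m, ?_, rfl⟩
  rw [Finset.mem_coe, Finset.mem_piAntidiag]
  exact ⟨hm, fun _ _ => Finset.mem_univ _⟩

/-- the values of the forms over `k` -/
theorem form_mem_valSp (F : IntermediateField k E) {N : ℕ} (x : Fin N → E) {d : ℕ}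
    {G : MvPolynomial (Fin N) k} (hG : G.IsHomogeneous d) : aeval x G ∈ valSp F x d := by
  classical
  rw [aeval_def, eval₂_eq']
  refine Submodule.sum_mem _ fun m hm => ?_
  have h1 : ∑ i, m i = d := by
    have h3 := hG (mem_support_iff.1 hm)
    rw [Finsupp.weight_apply, Finsupp.sum_fintype _ _ (fun _ => by simp)] at h3
    rw [← h3]
    exact Finset.sum_congr rfl fun i _ => by simp
  have h2 := (valSp F x d).smul_mem (algebraMap k F (G.coeff m)) (mono_mem_valSp F x h1)
  rw [Algebra.smul_def] at h2
  exact h2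

/-- the product with a monomial -/
theorem mul_mono_mem_valSp (F : IntermediateField k E) {N : ℕ} (x : Fin N → E) {d d' : ℕ}
    {v : E} (hv : v ∈ valSp F x d) {m : Fin N → ℕ} (hm : ∑ i, m i = d') :
    v * ∏ i, x i ^ m i ∈ valSp F x (d + d') := by
  classical
  unfold valSp at hv
  induction hv using Submodule.span_induction with
  | mem v hv =>
    obtain ⟨m', hm', rfl⟩ := hv
    rw [Finset.mem_coe, Finset.mem_piAntidiag] at hm'
    have h1 : (∏ i, x i ^ m' i) * ∏ i, x i ^ m i = ∏ i, x i ^ (m' i + m i) := by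
      rw [← Finset.prod_mul_distrib]
      exact Finset.prod_congr rfl fun i _ => by rw [pow_add]
    show (∏ i, x i ^ m' i) * ∏ i, x i ^ m i ∈ _
    rw [h1]
    refine mono_mem_valSp F x ?_
    rw [Finset.sum_add_distrib, hm'.1, hm]
  | zero =>
    rw [zero_mul]
    exact Submodule.zero_mem _
  | add u v _ _ hu hv =>
    rw [add_mul]
    exact Submodule.add_mem _ hu hv
  | smul a v _ hv =>
    rw [smul_mul_assoc]
    exact Submodule.smul_mem _ _ hv

theorem valSp_fg (F : IntermediateField k E) {N : ℕ} (x : Fin N → E) (d : ℕ) :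
    (valSp F x d).FG := by
  classical
  unfold valSp
  exact Submodule.fg_span ((Finset.finite_toSet _).image _)

end

/-- **The coordinates of a point are algebraic over the quotients** of the values of forms without
common zero. -/
theorem isAlgebraic_of_noCommonZero {k E : Type*} [Field k] [Field E] [Algebra k E]
    {N m r δ : ℕ} (hδ : 1 ≤ δ) {g : Fin m → MvPolynomial (Fin (N + 1)) k} {dg : Fin m → ℕ}
    (hg : ∀ i, (g i).IsHomogeneous (dg i)) {Z : Fin (r + 1) → MvPolynomial (Fin (N + 1)) k}
    (hZ : ∀ l, (Z l).IsHomogeneous δ)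
    (hZ0 : ∀ y : Fin (N + 1) → AlgebraicClosure k, (∀ i, aeval y (g i) = 0) →
      (∀ l, aeval y (Z l) = 0) → y = 0) (x : Fin (N + 1) → E) (j₀ : Fin (N + 1))
    (l₀ : Fin (r + 1)) (hx : x j₀ = 1) (hxg : ∀ i, aeval x (g i) = 0)
    (hl₀ : aeval x (Z l₀) ≠ 0) (i : Fin (N + 1)) :
    IsAlgebraic (IntermediateField.adjoin k
      (Set.range fun l => aeval x (Z l) / aeval x (Z l₀))) (x i) := by
  classical
  obtain ⟨F, hF⟩ : ∃ F : IntermediateField k E, F = IntermediateField.adjoin k
    (Set.range fun l => aeval x (Z l) / aeval x (Z l₀)) := ⟨_, rfl⟩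
  rw [← hF]
  obtain ⟨ρ, hρ⟩ : ∃ ρ, ρ = aeval x (Z l₀) := ⟨_, rfl⟩
  have hρ0 : ρ ≠ 0 := by rw [hρ]; exact hl₀
  have hη : ∀ l, ∃ c : F, aeval x (Z l) = ρ * c := by
    intro l
    refine ⟨⟨aeval x (Z l) / aeval x (Z l₀), ?_⟩, ?_⟩
    · rw [hF]
      exact IntermediateField.subset_adjoin _ _ ⟨l, rfl⟩
    · show _ = ρ * (aeval x (Z l) / aeval x (Z l₀))
      rw [← hρ, mul_div_cancel₀ _ hρ0]
  choose η hη using hη
  choose b A B hb hA hAB using fun l : Fin (N + 1) => exists_null hg hZ hZ0 l
  -- the monomials of large degree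
  have key : ∀ μ : Fin (N + 1) → ℕ, ∀ D, ∑ l, b l ≤ D + δ → ∑ l, μ l = D + δ →
      ∃ v ∈ valSp F x D, ∏ l, x l ^ μ l = ρ * v := by
    intro μ D hD hμ
    obtain ⟨l, hl⟩ : ∃ l, b l ≤ μ l := by
      by_contra hcon
      push Not at hcon
      have h1 : ∑ l, μ l < ∑ l, b l :=
        Finset.sum_lt_sum_of_nonempty Finset.univ_nonempty fun l _ => hcon l
      omega
    obtain ⟨μ', hμ'⟩ : ∃ μ' : Fin (N + 1) → ℕ, μ' = Function.update μ l (μ l - b l) := ⟨_, rfl⟩
    have h1 : ∏ l', x l' ^ μ l' = x l ^ b l * ∏ l', x l' ^ μ' l' := by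
      rw [← Finset.mul_prod_erase Finset.univ (fun l' => x l' ^ μ l') (Finset.mem_univ l),
        ← Finset.mul_prod_erase Finset.univ (fun l' => x l' ^ μ' l') (Finset.mem_univ l),
        ← mul_assoc]
      congr 1
      · rw [hμ', Function.update_self, ← pow_add]
        congr 1
        omega
      · refine Finset.prod_congr rfl fun l' hl' => ?_
        rw [hμ', Function.update_of_ne (Finset.ne_of_mem_erase hl')]
    have h2 : ∑ l', μ' l' + b l = D + δ := by
      rw [← hμ, hμ', Finset.sum_update_of_mem (Finset.mem_univ _),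
        ← Finset.add_sum_erase Finset.univ μ (Finset.mem_univ l), Finset.sdiff_singleton_eq_erase]
      omega
    have h3 : x l ^ b l = ρ * ∑ j, (η j : E) * aeval x (A l j) := by
      have h4 := congrArg (aeval x) (hAB l)
      rw [map_pow, aeval_X, map_add, map_sum, map_sum] at h4
      have h5 : ∑ t, aeval x (B l t * g t) = 0 :=
        Finset.sum_eq_zero fun t _ => by rw [map_mul, hxg, mul_zero]
      rw [h4, h5, zero_add, Finset.mul_sum]
      refine Finset.sum_congr rfl fun j _ => ?_
      rw [map_mul, hη j]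
      ring
    refine ⟨(∑ j, (η j : E) * aeval x (A l j)) * ∏ l', x l' ^ μ' l', ?_, ?_⟩
    · have h6 : b l - δ + ∑ l', μ' l' = D := by
        have := hb l
        omega
      rw [← h6]
      refine mul_mono_mem_valSp F x ?_ rfl
      refine Submodule.sum_mem _ fun j _ => ?_
      have h7 := (valSp F x (b l - δ)).smul_mem (η j) (form_mem_valSp F x (hA l j))
      rw [Algebra.smul_def] at h7
      exact h7
    · rw [h1, h3]
      ring
  -- the operators of multiplication
  have hint : ∀ l, IsAlgebraic F (x l ^ δ / ρ) := by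
    intro l
    refine IsIntegral.isAlgebraic ?_
    refine isIntegral_of_smul_mem_submodule (valSp F x (∑ l, b l)) ?_ (valSp_fg F x _) _ ?_
    · intro h0
      have h1 : ∏ l', x l' ^ (Pi.single j₀ (∑ l, b l) : Fin (N + 1) → ℕ) l' ∈
          valSp F x (∑ l, b l) := by
        refine mono_mem_valSp F x ?_
        rw [Finset.sum_eq_single j₀]
        · rw [Pi.single_eq_same]
        · intro l' _ hl'
          rw [Pi.single_eq_of_ne hl']
        · intro h
          exact absurd (Finset.mem_univ _) h
      rw [h0, Submodule.mem_bot, Finset.prod_eq_single j₀] at h1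
      · rw [hx, one_pow] at h1
        exact one_ne_zero h1
      · intro l' _ hl'
        rw [Pi.single_eq_of_ne hl', pow_zero]
      · intro h
        exact absurd (Finset.mem_univ _) h
    · intro v hv
      unfold valSp at hv
      induction hv using Submodule.span_induction with
      | mem v hv =>
        obtain ⟨μ, hμ, rfl⟩ := hv
        rw [Finset.mem_coe, Finset.mem_piAntidiag] at hμ
        obtain ⟨μ', hμ'⟩ : ∃ μ' : Fin (N + 1) → ℕ, μ' = Function.update μ l (μ l + δ) := ⟨_, rfl⟩
        have h1 : x l ^ δ * ∏ l', x l' ^ μ l' = ∏ l', x l' ^ μ' l' := by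
          rw [← Finset.mul_prod_erase Finset.univ (fun l' => x l' ^ μ l') (Finset.mem_univ l),
            ← Finset.mul_prod_erase Finset.univ (fun l' => x l' ^ μ' l') (Finset.mem_univ l),
            ← mul_assoc]
          congr 1
          · rw [hμ', Function.update_self, ← pow_add]
            congr 1
            omega
          · refine Finset.prod_congr rfl fun l' hl' => ?_
            rw [hμ', Function.update_of_ne (Finset.ne_of_mem_erase hl')]
        have h2 : ∑ l', μ' l' = ∑ l, b l + δ := by
          rw [← hμ.1, hμ', Finset.sum_update_of_mem (Finset.mem_univ _),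
            ← Finset.add_sum_erase Finset.univ μ (Finset.mem_univ l),
            Finset.sdiff_singleton_eq_erase]
          omega
        obtain ⟨v, hv, h3⟩ := key μ' _ (Nat.le_add_right _ _) h2
        have h4 : (x l ^ δ / ρ) • ∏ l', x l' ^ μ l' = v := by
          rw [smul_eq_mul, div_mul_eq_mul_div, h1, h3, mul_div_cancel_left₀ _ hρ0]
        show (x l ^ δ / ρ) • ∏ l', x l' ^ μ l' ∈ _
        rw [h4]
        exact hv
      | zero =>
        rw [smul_zero]
        exact Submodule.zero_mem _
      | add u v _ _ hu hv =>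
        rw [smul_add]
        exact Submodule.add_mem _ hu hv
      | smul a v _ hv =>
        rw [smul_comm]
        exact Submodule.smul_mem _ _ hv
  have h1 : IsAlgebraic F ρ := by
    have h2 := hint j₀
    rw [hx, one_pow, one_div] at h2
    have h3 := h2.inv
    rwa [inv_inv] at h3
  have h2 : IsAlgebraic F (x i ^ δ) := by
    have h3 := (hint i).mul h1
    rwa [div_mul_cancel₀ _ hρ0] at h3
  exact IsAlgebraic.of_pow (by omega) h2

end Pool.Agent.Lib.MP_44a246_ntFG
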