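import Mathlib
import Pool.Agent.Lib.MP_44a246_ntFP.FP29
import Pool.Agent.Lib.MP_44a246_ntFG.FG6
import Pool.Agent.Lib.MP_44a246_ntFG.FG10
import Pool.Agent.Lib.MP_44a246_ntFG.FG12

/-!
The height inequality with few parameters, the final form with an explicit exponent.
-/

namespace Pool.Agent.Lib.MP_44a246_ntFG

open Pool.Agent.Lib.MP_44a246_nt
open Pool.Agent.Lib.MP_44a246_ntL
open Pool.Agent.Lib.MP_44a246_ntX
open Pool.Agent.Lib.MP_44a246_ntMS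
open Pool.Agent.Lib.MP_44a246_ntFP
open WithZero MvPolynomial

universe u v w x

theorem algOK : AlgOK.{w, x} := fun _ _ _ _ _ _ _ _ _ hg _ hδ hZ hZ0 _ _ _ x j₀ l₀ hx hxg hl₀ i =>
  isAlgebraic_of_noCommonZero hδ hg hZ hZ0 x j₀ l₀ hx hxg hl₀ i

/-- **The height inequality with few parameters**, with an explicit exponent. -/
theorem few_final₃ (q r : ℕ) :
    ∃ Φ : MvPolynomial (Fin q × Fin (r + 1)) ℚ, Φ ≠ 0 ∧
    ∀ {k : Type x} [Field k] [CharZero k] {N m n c ν δ θ : ℕ}, 1 ≤ n → 1 ≤ δ →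
      (ν = n + c ∨ ν = n + c + 1) →
      ∀ {g : Fin m → MvPolynomial (Fin (N + 1)) k} {dg : Fin m → ℕ},
      (∀ i, (g i).IsHomogeneous (dg i)) →
      ringKrullDim (MvPolynomial (Fin (N + 1)) k ⧸ Ideal.span (Set.range g)) ≤
        ((n + 1 : ℕ) : WithBot ℕ∞) →
      ∀ {Z : Fin (r + 1) → MvPolynomial (Fin (N + 1)) k}, (∀ l, (Z l).IsHomogeneous δ) →
      ∀ {A : Fin q → Fin (r + 1) → k}
        {κ : Type u} {K : Type v} [Field κ] [IsAlgClosed κ] [CharZero κ] [Field K] [CharZero K]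
        [Algebra κ K] (_ : IsFF κ K) [Algebra k K] {e : ℕ}
        {H₀ : MvPolynomial (Fin (N + 1)) k} (_ : H₀.IsHomogeneous (e * δ)) (a : Fin q → K),
      (q : Cardinal) ≤ Algebra.trdeg k (IntermediateField.adjoin k (Set.range a)) + c →
      (1 ≤ r ∧ 2 * r + ν ≤ q + n ∧ r * (ν + 1) ^ 3 * (n + θ + 2) ≤ e ∧
        aeval (fun p : Fin q × Fin (r + 1) => A p.1 p.2) Φ ≠ 0 ∧
        (∀ y : Fin (N + 1) → AlgebraicClosure k, (∀ i, aeval y (g i) = 0) →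
          (∀ l, aeval y (Z l) = 0) → y = 0) ∨
      ∃ s, 1 ≤ s ∧ s * ν < q ∧ s * (ν + 1) ^ 3 * (n + θ + 2) ≤ e ∧
        ∀ J : Finset (Fin q), J.card = s + 1 → ∀ y : Fin (N + 1) → AlgebraicClosure K, y ≠ 0 →
          (∀ i, aeval y (g i) = 0) → (hval H₀ (linP Z A) e a y = 0 ∨ ν = n + c + 1) →
          ∃ j ∈ J, aeval y (linP Z A j) ≠ 0) →
      ∀ {S₀ : Set (Place κ K)}, S₀.Finite →
      ∃ C : ℕ, ∀ (L : Type w) [Field L] [Algebra K L] [FiniteDimensional K L] [Algebra κ L]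
        [IsScalarTower κ K L] [Algebra k L] [IsScalarTower k K L] (z : Fin (N + 1) → L), z ≠ 0 →
        (∀ i, aeval z (g i) = 0) → (hval H₀ (linP Z A) e a z = 0 ∨ ν = n + c + 1) →
        (θ : ℤ) * height κ z ≤ trunc₁ S₀ (e * δ) (hval H₀ (linP Z A) e a z) z +
          ramDeg κ L K + C * Module.finrank K L ∧
        (pointField K z = ⊤ → ((θ : ℤ) - 2 * ((Module.finrank K L : ℤ) - 1)) * height κ z ≤
          trunc₁ S₀ (e * δ) (hval H₀ (linP Z A) e a z) z + C * Module.finrank K L) := by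
  classical
  obtain ⟨Φ, hΦ0, hΦ⟩ := exists_data.{w} q r
  refine ⟨Φ, hΦ0, ?_⟩
  intro k _ _ N m n c ν δ θ hn hδ hν g dg hg hdim Z hZ A κ K _ _ _ _ _ _ hK _ e H₀ hH₀ a hgen
    hcase S₀ hS₀
  rcases hcase with ⟨hr, hq, he, hA, hZ0⟩ | ⟨s, hs, hsq, he, hno⟩
  · obtain ⟨c', hc'⟩ : ∃ c', ν = n + c' := ⟨ν - n, by omega⟩
    subst hc'
    obtain ⟨C, hC⟩ := few_lin.{u, v, w, x} algOK (θ := θ) (n := n) (c := c) (c' := c') hr hδ
      (by omega) hg hdim hZ hZ0 (fun E _ _ A => hΦ c' (by omega) E A) hA hK he hH₀ a hgen hS₀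
    refine ⟨C, ?_⟩
    intro L _ _ _ _ _ _ _ z hz hzg hH
    have h1 := hC L z hz hzg (by
      rcases hH with h | h
      · exact Or.inl h
      · right
        omega)
    refine ⟨h1, fun hpt => ?_⟩
    have h2 := ramDeg_point hK z hz hpt
    linarith
  · obtain ⟨e₀, hmain⟩ := few_final₂.{u, v, w, x, x} (θ := θ) hn hδ hν hg
      (P := linP Z A) (linP_hom hZ A)
    obtain ⟨C, hC⟩ := hmain κ K hK k e g hg hdim H₀ hH₀ a hgen (Or.inr ⟨s, hs, hsq, he,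
      fun J hJ y h1 h2 _ h4 => hno J hJ y h1 h2 h4⟩) S₀ hS₀
    exact ⟨C, fun L _ _ _ _ _ _ _ z hz hzg hH => hC L z hz hzg hzg hH⟩

end Pool.Agent.Lib.MP_44a246_ntFG
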