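import Mathlib
import Pool.Agent.Lib.MP_44a246_ntFG.FG7
import Pool.Agent.Lib.MP_44a246_ntFG.FG30

/-!
The height inequality with few parameters, the final form with an explicit exponent, and the form
for which only few of the parameters have to be independent.
-/

namespace Pool.Agent.Lib.MP_44a246_ntFG

open Pool.Agent.Lib.MP_44a246_nt
open Pool.Agent.Lib.MP_44a246_ntL
open Pool.Agent.Lib.MP_44a246_ntX
open Pool.Agent.Lib.MP_44a246_ntMS
open Pool.Agent.Lib.MP_44a246_ntFP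
open WithZero MvPolynomial

universe u v w x

/-- any `s` of the `a j` generate a field whose transcendence degree is by at most `c` smaller than
their number -/
def IndepUpTo (k : Type*) {K : Type*} [Field k] [Field K] [Algebra k K] {q : ℕ} (a : Fin q → K)
    (c s : ℕ) : Prop :=
  ∀ S : Finset (Fin q), S.card ≤ s → (S.card : Cardinal) ≤
    Algebra.trdeg k (IntermediateField.adjoin k (a '' (S : Set (Fin q)))) + c

theorem IndepUpTo.all {k K : Type*} [Field k] [Field K] [Algebra k K] {q : ℕ} {a : Fin q → K}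
    {c : ℕ} (h : IndepUpTo k a c q) :
    (q : Cardinal) ≤ Algebra.trdeg k (IntermediateField.adjoin k (Set.range a)) + c := by
  have h1 := h Finset.univ (by rw [Finset.card_univ, Fintype.card_fin])
  rw [Finset.card_univ, Fintype.card_fin, Finset.coe_univ, Set.image_univ] at h1
  exact h1

/-- **The height inequality with few parameters**, with an explicit exponent. -/
theorem few_final₄ (q r : ℕ) :
    ∃ Φ : MvPolynomial (Fin q × Fin (r + 1)) ℚ, Φ ≠ 0 ∧
    ∀ {k : Type x} [Field k] [CharZero k] {N m n c ν δ θ s : ℕ}, 1 ≤ n → 1 ≤ δ →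
      (ν = n + c ∨ ν = n + c + 1) →
      ∀ {g : Fin m → MvPolynomial (Fin (N + 1)) k} {dg : Fin m → ℕ},
      (∀ i, (g i).IsHomogeneous (dg i)) →
      ringKrullDim (MvPolynomial (Fin (N + 1)) k ⧸ Ideal.span (Set.range g)) ≤
        ((n + 1 : ℕ) : WithBot ℕ∞) →
      ∀ {Z : Fin (r + 1) → MvPolynomial (Fin (N + 1)) k}, (∀ l, (Z l).IsHomogeneous δ) →
      ∀ {A : Fin q → Fin (r + 1) → k}
        {κ : Type u} {K : Type v} [Field κ] [IsAlgClosed κ] [CharZero κ] [Field K] [CharZero K]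
        [Algebra κ K] (_ : IsFF κ K) [Algebra k K] {e : ℕ}
        {H₀ : MvPolynomial (Fin (N + 1)) k} (_ : H₀.IsHomogeneous (e * δ)) (a : Fin q → K),
      IndepUpTo k a c s →
      ((∀ y : Fin (N + 1) → AlgebraicClosure k, (∀ i, aeval y (g i) = 0) →
          (∀ l, aeval y (Z l) = 0) → y = 0) ∧ 1 ≤ r ∧
        aeval (fun p : Fin q × Fin (r + 1) => A p.1 p.2) Φ ≠ 0 ∧
        (s = q ∧ 2 * r + ν ≤ q + n ∧ r * (ν + 1) ^ 3 * (n + θ + 2) ≤ e ∨
          s = ν + 1 ∧ 4 * r + ν ≤ q + n + 1 ∧ r * q ^ 3 * (n + θ + 2) ≤ e) ∨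
      s = q ∧ ∃ t, 1 ≤ t ∧ t * ν < q ∧ t * (ν + 1) ^ 3 * (n + θ + 2) ≤ e ∧
        ∀ J : Finset (Fin q), J.card = t + 1 → ∀ y : Fin (N + 1) → AlgebraicClosure K, y ≠ 0 →
          (∀ i, aeval y (g i) = 0) → (hval H₀ (linP Z A) e a y = 0 ∨ ν = n + c + 1) →
          ∃ j ∈ J, aeval y (linP Z A j) ≠ 0) →
      ∀ {S₀ : Set (Place κ K)}, S₀.Finite →
      ∃ C : ℕ, ∀ (L : Type w) [Field L] [Algebra K L] [FiniteDimensional K L] [Algebra κ L]
        [IsScalarTower κ K L] [Algebra k L] [IsScalarTower k K L] (z : Fin (N + 1) → L), z ≠ 0 →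
        (∀ i, aeval z (g i) = 0) → (hval H₀ (linP Z A) e a z = 0 ∨ ν = n + c + 1) →
        (θ : ℤ) * height κ z ≤ trunc₁ S₀ (e * δ) (hval H₀ (linP Z A) e a z) z +
          ramDeg κ L K + C * Module.finrank K L ∧
        (pointField K z = ⊤ → ((θ : ℤ) - 2 * ((Module.finrank K L : ℤ) - 1)) * height κ z ≤
          trunc₁ S₀ (e * δ) (hval H₀ (linP Z A) e a z) z + C * Module.finrank K L) := by
  classical
  obtain ⟨Φ, hΦ0, hΦ⟩ := exists_dataSub.{w} q r
  refine ⟨Φ, hΦ0, ?_⟩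
  intro k _ _ N m n c ν δ θ s hn hδ hν g dg hg hdim Z hZ A κ K _ _ _ _ _ _ hK _ e H₀ hH₀ a hgen
    hcase S₀ hS₀
  obtain ⟨c', hc'⟩ : ∃ c', ν = n + c' := ⟨ν - n, by omega⟩
  rcases hcase with ⟨hZ0, hr, hA, ⟨hs, hq, he⟩ | ⟨hs, hq, he⟩⟩ | ⟨hs, t, ht, htq, he, hno⟩
  · subst hc'
    subst hs
    obtain ⟨C, hC⟩ := few_lin.{u, v, w, x} algOK (θ := θ) (n := n) (c := c) (c' := c') hr hδ
      (by omega) hg hdim hZ hZ0 (hΦ.dataOK (by omega)) hA hK he hH₀ a hgen.all hS₀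
    refine ⟨C, ?_⟩
    intro L _ _ _ _ _ _ _ z hz hzg hH
    have h1 := hC L z hz hzg (by
      rcases hH with h | h
      · exact Or.inl h
      · right
        omega)
    refine ⟨h1, fun hpt => ?_⟩
    have h2 := ramDeg_point hK z hz hpt
    linarith
  · subst hc'
    subst hs
    obtain ⟨C, hC⟩ := few_part.{u, v, w, x} algOK (θ := θ) (n := n) (c := c) (c' := c') hr hδ
      (by omega) (by omega) hg hdim hZ hZ0 hΦ hA hK he hH₀ a hgen hS₀
    refine ⟨C, ?_⟩
    intro L _ _ _ _ _ _ _ z hz hzg hH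
    have h1 := hC L z hz hzg (by
      rcases hH with h | h
      · exact Or.inl h
      · right
        omega)
    refine ⟨h1, fun hpt => ?_⟩
    have h2 := ramDeg_point hK z hz hpt
    linarith
  · subst hs
    obtain ⟨e₀, hmain⟩ := few_final₂.{u, v, w, x, x} (θ := θ) hn hδ hν hg
      (P := linP Z A) (linP_hom hZ A)
    obtain ⟨C, hC⟩ := hmain κ K hK k e g hg hdim H₀ hH₀ a hgen.all (Or.inr ⟨t, ht, htq, he,
      fun J hJ y h1 h2 _ h4 => hno J hJ y h1 h2 h4⟩) S₀ hS₀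
    exact ⟨C, fun L _ _ _ _ _ _ _ z hz hzg hH => hC L z hz hzg hzg hH⟩

end Pool.Agent.Lib.MP_44a246_ntFG
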