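import Mathlib
import Pool.Agent.Lib.MP_44a246_ntFG.FG32

/-!
The height inequality for general linear combinations of forms without common zero, with few
parameters.
-/

namespace Pool.Agent.Lib.MP_44a246_ntFG

open Pool.Agent.Lib.MP_44a246_nt
open Pool.Agent.Lib.MP_44a246_ntL
open Pool.Agent.Lib.MP_44a246_ntX
open Pool.Agent.Lib.MP_44a246_ntMS
open Pool.Agent.Lib.MP_44a246_ntFP
open WithZero MvPolynomial

universe u v w x

/-- **The height inequality with few parameters**, with an explicit exponent. -/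
theorem few_final₅ (q r : ℕ) :
    ∃ Φ : MvPolynomial (Fin q × Fin (r + 1)) ℚ, Φ ≠ 0 ∧
    ∀ {k : Type x} [Field k] [CharZero k] {N m n c ν δ θ s : ℕ}, 1 ≤ r → 1 ≤ δ →
      (ν = n + c ∨ ν = n + c + 1) →
      ∀ {g : Fin m → MvPolynomial (Fin (N + 1)) k} {dg : Fin m → ℕ},
      (∀ i, (g i).IsHomogeneous (dg i)) →
      ringKrullDim (MvPolynomial (Fin (N + 1)) k ⧸ Ideal.span (Set.range g)) ≤
        ((n + 1 : ℕ) : WithBot ℕ∞) →
      ∀ {Z : Fin (r + 1) → MvPolynomial (Fin (N + 1)) k}, (∀ l, (Z l).IsHomogeneous δ) →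
      (∀ y : Fin (N + 1) → AlgebraicClosure k, (∀ i, aeval y (g i) = 0) →
        (∀ l, aeval y (Z l) = 0) → y = 0) →
      ∀ {A : Fin q → Fin (r + 1) → k},
        aeval (fun p : Fin q × Fin (r + 1) => A p.1 p.2) Φ ≠ 0 →
      ∀ {κ : Type u} {K : Type v} [Field κ] [IsAlgClosed κ] [CharZero κ] [Field K] [CharZero K]
        [Algebra κ K] (_ : IsFF κ K) [Algebra k K] {e : ℕ}
        {H₀ : MvPolynomial (Fin (N + 1)) k} (_ : H₀.IsHomogeneous (e * δ)) (a : Fin q → K),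
      IndepUpTo k a c s →
      (s = ν + 1 ∧ 4 * r + ν ≤ q + n + 1 ∧ r * q ^ 3 * (n + θ + 2) ≤ e ∨
        s = q ∧ 2 * r + ν ≤ q + n ∧ r * (ν + 1) ^ 3 * (n + θ + 2) ≤ e) →
      ∀ {S₀ : Set (Place κ K)}, S₀.Finite →
      ∃ C : ℕ, ∀ (L : Type w) [Field L] [Algebra K L] [FiniteDimensional K L] [Algebra κ L]
        [IsScalarTower κ K L] [Algebra k L] [IsScalarTower k K L] (z : Fin (N + 1) → L), z ≠ 0 →
        (∀ i, aeval z (g i) = 0) → (hval H₀ (linP Z A) e a z = 0 ∨ ν = n + c + 1) →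
        (θ : ℤ) * height κ z ≤ trunc₁ S₀ (e * δ) (hval H₀ (linP Z A) e a z) z +
          ramDeg κ L K + C * Module.finrank K L ∧
        (pointField K z = ⊤ → ((θ : ℤ) - 2 * ((Module.finrank K L : ℤ) - 1)) * height κ z ≤
          trunc₁ S₀ (e * δ) (hval H₀ (linP Z A) e a z) z + C * Module.finrank K L) := by
  classical
  obtain ⟨Φ, hΦ0, hΦ⟩ := exists_dataSub.{w} q r
  refine ⟨Φ, hΦ0, ?_⟩
  intro k _ _ N m n c ν δ θ s hr hδ hν g dg hg hdim Z hZ hZ0 A hA κ K _ _ _ _ _ _ hK _ e H₀ hH₀ a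
    hgen hcase S₀ hS₀
  obtain ⟨c', hc'⟩ : ∃ c', ν = n + c' := ⟨ν - n, by omega⟩
  subst hc'
  have hkey : ∃ C : ℕ, ∀ (L : Type w) [Field L] [Algebra K L] [FiniteDimensional K L] [Algebra κ L]
      [IsScalarTower κ K L] [Algebra k L] [IsScalarTower k K L] (z : Fin (N + 1) → L), z ≠ 0 →
      (∀ i, aeval z (g i) = 0) → (hval H₀ (linP Z A) e a z = 0 ∨ c' = c + 1) →
      (θ : ℤ) * height κ z ≤ trunc₁ S₀ (e * δ) (hval H₀ (linP Z A) e a z) z +
        ramDeg κ L K + C * Module.finrank K L := by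
    rcases hcase with ⟨hs, hq, he⟩ | ⟨hs, hq, he⟩
    · subst hs
      exact few_part.{u, v, w, x} algOK (θ := θ) (n := n) (c := c) (c' := c') hr hδ
        (by omega) (by omega) hg hdim hZ hZ0 hΦ hA hK he hH₀ a hgen hS₀
    · subst hs
      exact few_lin.{u, v, w, x} algOK (θ := θ) (n := n) (c := c) (c' := c') hr hδ
        (by omega) hg hdim hZ hZ0 (hΦ.dataOK (by omega)) hA hK he hH₀ a hgen.all hS₀
  obtain ⟨C, hC⟩ := hkey
  refine ⟨C, ?_⟩
  intro L _ _ _ _ _ _ _ z hz hzg hH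
  have h1 := hC L z hz hzg (by
    rcases hH with h | h
    · exact Or.inl h
    · right
      omega)
  refine ⟨h1, fun hpt => ?_⟩
  have h2 := ramDeg_point hK z hz hpt
  linarith

end Pool.Agent.Lib.MP_44a246_ntFG
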