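import Mathlib
import Pool.Agent.Lib.MP_44a246_ntFG.FG27
import Pool.Agent.Lib.MP_44a246_ntFG.FG40

/-!
Partners and close indices for a point, for a field of definition of finite transcendence degree,
where the form of the constants is replaced by an element which is algebraic over the coordinates of
the point.
-/

namespace Pool.Agent.Lib.MP_44a246_ntFG

open Pool.Agent.Lib.MP_44a246_nt
open Pool.Agent.Lib.MP_44a246_ntL
open Pool.Agent.Lib.MP_44a246_ntX
open Pool.Agent.Lib.MP_44a246_ntTV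
open Pool.Agent.Lib.MP_44a246_ntMS
open Pool.Agent.Lib.MP_44a246_ntFP
open WithZero MvPolynomial

universe u v w x

/-- **Partners** with the rank of the point, for a field of definition of finite transcendence
degree. -/
theorem partner_rk_coreG {κ : Type u} {K : Type v} [Field κ] [IsAlgClosed κ] [CharZero κ]
    [Field K] [CharZero K] [Algebra κ K] (hK : IsFF κ K) {k : Type x} [Field k] [CharZero k]
    [Algebra k K] (hk : Algebra.trdeg ℚ k < Cardinal.aleph0) {N q dP ν : ℕ} (hq : q = ν + 1)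
    (n : ℕ) {P : Fin q → MvPolynomial (Fin N) k} (hP : ∀ j, (P j).IsHomogeneous dP)
    (a : Fin q → K) :
    ∃ W : ℕ, ∀ (L : Type w) [Field L] [Algebra K L] [FiniteDimensional K L] [Algebra κ L]
      [IsScalarTower κ K L] [Algebra k L] [IsScalarTower k K L] (x : Fin N → L) (j₀ : Fin N),
      x j₀ = 1 → ∀ r ≤ n,
      (∀ (p : ℕ) (j : Fin p → Fin N), AlgebraicIndependent k (fun i => x (j i)) → p ≤ r) →
      ∀ (e : ℕ), 1 ≤ e → ∀ G : L, IsAlgebraic (IntermediateField.adjoin k (Set.range x)) G →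
      (G + ∑ j, algebraMap K L (a j) * aeval x (P j) ^ e = 0 → ∀ m,
        (∀ S : Finset (Fin q), S.card = m → ((r + 1 : ℕ) : Cardinal) ≤
          Algebra.trdeg k (IntermediateField.adjoin k (a '' (S : Set (Fin q))))) →
        ∃ M : Finset (Fin q), M.card < m ∧ ∀ i₀ ∉ M, aeval x (P i₀) ≠ 0 →
        ∃ j ∉ M, i₀ ≠ j ∧ aeval x (P j) ≠ 0 ∧
          (e : ℤ) * height κ ![aeval x (P i₀), aeval x (P j)] ≤
          (((r + 1) * (1 + tri ν * (ν + 1)) + tri ν * (ν + 1) * dP : ℕ) : ℤ) * height κ x +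
          ((1 + tri ν * (ν + 1) + tri ν : ℕ) : ℤ) * ramDeg κ L K + W * Module.finrank K L) ∧
      (G + ∑ j, algebraMap K L (a j) * aeval x (P j) ^ e ≠ 0 → ∀ m dH,
        (∀ S : Finset (Fin q), S.card = m → ((r + 2 : ℕ) : Cardinal) ≤
          Algebra.trdeg k (IntermediateField.adjoin k (a '' (S : Set (Fin q))))) →
        ∃ M : Finset (Fin q), M.card < m ∧ ∀ i₀ ∉ M, aeval x (P i₀) ≠ 0 →
        ∃ j ∉ M, i₀ ≠ j ∧ aeval x (P j) ≠ 0 ∧
          (e : ℤ) * height κ ![aeval x (P i₀), aeval x (P j)] ≤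
          (((r + 1) * (1 + tri ν * (ν + 1)) + tri ν * (ν + 1) * dP : ℕ) : ℤ) * height κ x +
          ((1 + tri ν * (ν + 1) : ℕ) : ℤ) *
            (({w : Place κ L | w.1 (G + ∑ j, algebraMap K L (a j) * aeval x (P j) ^ e) ≠
              vmax w.1 x ^ dH}.ncard : ℕ) : ℤ) +
          ((1 + tri ν * (ν + 1) + tri ν : ℕ) : ℤ) * ramDeg κ L K + W * Module.finrank K L) := by
  classical
  obtain ⟨E, B, A, B₀, D₀, hB, hA, hB₀, hD₀, hPB₀, hPA, hE1, hE2, hE3, hE4⟩ :=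
    exists_data_gen hK hk (n + 2) P a
  obtain ⟨sA, hsA⟩ : ∃ sA : ℤ, sA = ∑ᶠ v, (A v : ℤ) := ⟨_, rfl⟩
  obtain ⟨sB, hsB⟩ : ∃ sB : ℤ, sB = ∑ᶠ v, (B v : ℤ) := ⟨_, rfl⟩
  obtain ⟨sB₀, hsB₀⟩ : ∃ sB₀ : ℤ, sB₀ = ∑ᶠ v, (B₀ v : ℤ) := ⟨_, rfl⟩
  have nB : 0 ≤ sB := by
    rw [hsB]
    exact finsum_nonneg fun v => Int.natCast_nonneg _
  obtain ⟨W, hW⟩ : ∃ W : ℤ, W = ((1 + tri ν * (ν + 1) : ℕ) : ℤ) *
        ((n + 1) * sB + sA) + ((tri ν * (ν + 1) : ℕ) : ℤ) * sA + tri ν * sB₀ := ⟨_, rfl⟩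
  have hWW : ∀ {F T : ℤ}, 0 ≤ F → T ≤ W → F * T ≤ (W.toNat : ℕ) * F := by
    intro F T hF hT
    rw [mul_comm]
    exact mul_le_mul_of_nonneg_right (hT.trans (Int.self_le_toNat W)) hF
  refine ⟨W.toNat, fun L _ _ _ _ _ _ _ x j₀ hx r hr hrk e he G hG => ⟨?_, ?_⟩⟩
  · intro hH0 m hm
    have hLc : CharZero L := charZero_of_injective_algebraMap (algebraMap K L).injective
    obtain ⟨M, M', hM0, hM', hpart⟩ := partner_rk0G hK (n := r)
      (E := fun l => E (Fin.castLE (by omega : r + 1 ≤ n + 2) l)) hB hA hB₀ (fun l => hE1 _)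
      (fun l => hE2 _) hD₀ hPB₀ hP hPA he hq (fun l => hE3 _) hx (e := e) hG rfl hH0 hrk
    refine ⟨Finset.univ.filter fun j => M' j = 0, ?_, ?_⟩
    · refine card_zero_lt (k := k) (E := fun l => E (Fin.castLE (by omega : r + 1 ≤ n + 2) l))
        (fun S hS => hE4 (r + 1) (by omega) S hS) hm hM0 fun j hj => ?_
      rw [← hM']
      exact (Finset.mem_filter.1 hj).2
    · intro i₀ hi₀ hui₀
      have h1 : M' i₀ ≠ 0 := fun h => hi₀ (Finset.mem_filter.2 ⟨Finset.mem_univ _, h⟩)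
      obtain ⟨j, hij, hMj, huj, hle⟩ := hpart i₀ h1 hui₀
      refine ⟨j, fun h => hMj (Finset.mem_filter.1 h).2, hij, huj, hle.trans ?_⟩
      rw [← hsA, ← hsB, ← hsB₀]
      have h7 := hWW (F := Module.finrank K L) (T := ((1 + tri ν * (ν + 1) : ℕ) : ℤ) *
        (r * sB + sA) + ((tri ν * (ν + 1) : ℕ) : ℤ) * sA + tri ν * sB₀)
        (Int.natCast_nonneg _) (by
        rw [hW]
        have h8 : (r : ℤ) * sB ≤ (n + 1) * sB :=
          mul_le_mul_of_nonneg_right (by exact_mod_cast (by omega : r ≤ n + 1)) nB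
        have h9 := mul_le_mul_of_nonneg_left h8
          (Int.natCast_nonneg (1 + tri ν * (ν + 1)))
        linarith)
      linarith
  · intro hH0 m dH hm
    have hLc : CharZero L := charZero_of_injective_algebraMap (algebraMap K L).injective
    obtain ⟨M, M', hM0, hM', hpart⟩ := partner_rkLG hK (n := r)
      (E := fun l => E (Fin.castLE (by omega : r + 2 ≤ n + 2) l)) hB hA hB₀ (fun l => hE1 _)
      (fun l => hE2 _) hD₀ hPB₀ hP hPA he hq (fun l => hE3 _) hx (e := e) hG rfl hH0 hrk dH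
    refine ⟨Finset.univ.filter fun j => M' j = 0, ?_, ?_⟩
    · refine card_zero_lt (k := k) (E := fun l => E (Fin.castLE (by omega : r + 2 ≤ n + 2) l))
        (fun S hS => hE4 (r + 2) (by omega) S hS) hm hM0 fun j hj => ?_
      rw [← hM']
      exact (Finset.mem_filter.1 hj).2
    · intro i₀ hi₀ hui₀
      have h1 : M' i₀ ≠ 0 := fun h => hi₀ (Finset.mem_filter.2 ⟨Finset.mem_univ _, h⟩)
      obtain ⟨j, hij, hMj, huj, hle⟩ := hpart i₀ h1 hui₀
      refine ⟨j, fun h => hMj (Finset.mem_filter.1 h).2, hij, huj, hle.trans ?_⟩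
      rw [← hsA, ← hsB, ← hsB₀]
      have h7 := hWW (F := Module.finrank K L) (T := ((1 + tri ν * (ν + 1) : ℕ) : ℤ) *
        ((r + 1) * sB + sA) + ((tri ν * (ν + 1) : ℕ) : ℤ) * sA + tri ν * sB₀)
        (Int.natCast_nonneg _) (by
        rw [hW]
        have h8 : ((r : ℤ) + 1) * sB ≤ (n + 1) * sB :=
          mul_le_mul_of_nonneg_right (by
            have h10 : (r : ℤ) ≤ n := by exact_mod_cast hr
            linarith) nB
        have h9 := mul_le_mul_of_nonneg_left h8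
          (Int.natCast_nonneg (1 + tri ν * (ν + 1)))
        linarith)
      linarith

/-- **Close indices** with the rank of the point, for a field of definition of finite
transcendence degree. -/
theorem close_rk_coreG {κ : Type u} {K : Type v} [Field κ] [IsAlgClosed κ] [CharZero κ]
    [Field K] [CharZero K] [Algebra κ K] (hK : IsFF κ K) {k : Type x} [Field k] [CharZero k]
    [Algebra k K] (hk : Algebra.trdeg ℚ k < Cardinal.aleph0) {N q c dP : ℕ} (n : ℕ)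
    {P : Fin q → MvPolynomial (Fin N) k} (hP : ∀ j, (P j).IsHomogeneous dP)
    (a : Fin q → K)
    (hgen : (q : Cardinal) ≤ Algebra.trdeg k (IntermediateField.adjoin k (Set.range a)) + c) :
    ∃ W : ℕ, ∀ (L : Type w) [Field L] [Algebra K L] [FiniteDimensional K L] [Algebra κ L]
      [IsScalarTower κ K L] [Algebra k L] [IsScalarTower k K L] (x : Fin N → L) (j₀ : Fin N),
      x j₀ = 1 →
      (∀ (p : ℕ) (j : Fin p → Fin N), AlgebraicIndependent k (fun i => x (j i)) → p ≤ n) →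
      ∀ (e : ℕ) (G : L), IsAlgebraic (IntermediateField.adjoin k (Set.range x)) G →
      (G + ∑ j, algebraMap K L (a j) * aeval x (P j) ^ e = 0 →
        ∀ (ν : ℕ), ν = n + c → ∀ S : Finset (Fin q), S.card = ν + 1 →
        (∀ j ∈ S, aeval x (P j) ≠ 0) →
        ∃ i ∈ S, ∃ j ∈ S, i ≠ j ∧ (e : ℤ) * height κ ![aeval x (P i), aeval x (P j)] ≤
          (((n + 1) * (1 + tri ν * (ν + 1)) + tri ν * (ν + 1) * dP : ℕ) : ℤ) * height κ x +
          ((1 + tri ν * (ν + 1) + tri ν : ℕ) : ℤ) * ramDeg κ L K + W * Module.finrank K L) ∧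
      (G + ∑ j, algebraMap K L (a j) * aeval x (P j) ^ e ≠ 0 →
        ∀ (ν dH : ℕ), ν = n + c + 1 → ∀ S : Finset (Fin q), S.card = ν + 1 →
        (∀ j ∈ S, aeval x (P j) ≠ 0) →
        ∃ i ∈ S, ∃ j ∈ S, i ≠ j ∧ (e : ℤ) * height κ ![aeval x (P i), aeval x (P j)] ≤
          (((n + 1) * (1 + tri ν * (ν + 1)) + tri ν * (ν + 1) * dP : ℕ) : ℤ) * height κ x +
          ((1 + tri ν * (ν + 1) : ℕ) : ℤ) *
            (({w : Place κ L | w.1 (G + ∑ j, algebraMap K L (a j) * aeval x (P j) ^ e) ≠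
              vmax w.1 x ^ dH}.ncard : ℕ) : ℤ) +
          ((1 + tri ν * (ν + 1) + tri ν : ℕ) : ℤ) * ramDeg κ L K + W * Module.finrank K L) := by
  classical
  obtain ⟨E, B, A, B₀, D₀, hB, hA, hB₀, hD₀, hPB₀, hPA, hES⟩ := Pool.Agent.Lib.MP_44a246_ntFP.exists_data hK hk (m := n) P
    hgen
  obtain ⟨E', B', A', B₀', D₀', hB', hA', hB₀', hD₀', hPB₀', hPA', hES'⟩ := Pool.Agent.Lib.MP_44a246_ntFP.exists_data hK hk
    (m := n + 1) P hgen
  obtain ⟨W, hW⟩ : ∃ W : ℤ, W = ((1 + tri (n + c) * (n + c + 1) : ℕ) : ℤ) *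
        (n * ∑ᶠ v, (B v : ℤ) + ∑ᶠ v, (A v : ℤ)) +
        ((tri (n + c) * (n + c + 1) : ℕ) : ℤ) * ∑ᶠ v, (A v : ℤ) +
        tri (n + c) * ∑ᶠ v, (B₀ v : ℤ) := ⟨_, rfl⟩
  obtain ⟨W', hW'⟩ : ∃ W : ℤ, W = ((1 + tri (n + c + 1) * (n + c + 1 + 1) : ℕ) : ℤ) *
        ((n + 1) * ∑ᶠ v, (B' v : ℤ) + ∑ᶠ v, (A' v : ℤ)) +
        ((tri (n + c + 1) * (n + c + 1 + 1) : ℕ) : ℤ) * ∑ᶠ v, (A' v : ℤ) +
        tri (n + c + 1) * ∑ᶠ v, (B₀' v : ℤ) := ⟨_, rfl⟩
  have hWW : ∀ {F : ℤ}, 0 ≤ F → F * W ≤ (W.toNat + W'.toNat : ℕ) * F := by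
    intro F hF
    rw [mul_comm]
    refine mul_le_mul_of_nonneg_right ?_ hF
    have h1 := Int.self_le_toNat W
    push_cast
    have h2 : (0 : ℤ) ≤ (W'.toNat : ℤ) := Int.natCast_nonneg _
    linarith
  have hWW' : ∀ {F : ℤ}, 0 ≤ F → F * W' ≤ (W.toNat + W'.toNat : ℕ) * F := by
    intro F hF
    rw [mul_comm]
    refine mul_le_mul_of_nonneg_right ?_ hF
    have h1 := Int.self_le_toNat W'
    push_cast
    have h2 : (0 : ℤ) ≤ (W.toNat : ℤ) := Int.natCast_nonneg _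
    linarith
  refine ⟨W.toNat + W'.toNat, fun L _ _ _ _ _ _ _ x j₀ hx hrk e G hG => ⟨?_, ?_⟩⟩
  · intro hH0 ν hν S hS hu
    subst hν
    have hLc : CharZero L := charZero_of_injective_algebraMap (algebraMap K L).injective
    obtain ⟨h1, h2, h3, h4, σ, h5⟩ := hES S hS
    obtain ⟨i, hi, j, hj, hij, h6⟩ := close_rk0G hK hB hA hB₀ h1 h2 hD₀ hPB₀ hP hPA hS h3 h4
      (fun M hM => ind_of_det h5 M hM) hx (e := e) hG rfl hH0 hrk hu
    refine ⟨i, hi, j, hj, hij, h6.trans ?_⟩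
    rw [← hW]
    have h7 := hWW (F := Module.finrank K L) (Int.natCast_nonneg _)
    linarith
  · intro hH0 ν dH hν S hS hu
    subst hν
    have hLc : CharZero L := charZero_of_injective_algebraMap (algebraMap K L).injective
    obtain ⟨h1, h2, h3, h4, σ, h5⟩ := hES' S (by omega)
    obtain ⟨i, hi, j, hj, hij, h6⟩ := close_rkLG hK hB' hA' hB₀' h1 h2 hD₀' hPB₀' hP hPA' hS h3 h4
      (fun M hM => ind_of_det h5 M hM) hx (e := e) hG rfl hH0 hrk hu dH
    refine ⟨i, hi, j, hj, hij, h6.trans ?_⟩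
    rw [← hW']
    have h7 := hWW' (F := Module.finrank K L) (Int.natCast_nonneg _)
    linarith

end Pool.Agent.Lib.MP_44a246_ntFG
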