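import Mathlib
import Pool.Agent.Lib.MP_44a246_ntP.P07
import Pool.Agent.Lib.MP_44a246_ntFP.FP32
import Pool.Agent.Lib.MP_44a246_ntFG.FG28
import Pool.Agent.Lib.MP_44a246_ntFG.FG41

/-!
Partners and close indices for a point, with the truncated counting function.
-/

namespace Pool.Agent.Lib.MP_44a246_ntFG

open Pool.Agent.Lib.MP_44a246_nt
open Pool.Agent.Lib.MP_44a246_ntL
open Pool.Agent.Lib.MP_44a246_ntX
open Pool.Agent.Lib.MP_44a246_ntTV
open Pool.Agent.Lib.MP_44a246_ntMS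
open Pool.Agent.Lib.MP_44a246_ntFP
open Pool.Agent.Lib.MP_44a246_ntML (finite_ne_vmax)
open Pool.Agent.Lib.MP_44a246_ntP (ncard_over_le)
open WithZero MvPolynomial

universe u v w x

/-- the number of the places where a value does not have the maximal size -/
noncomputable def truncNe {κ K L : Type*} [Field κ] [Field K] [Field L] [Algebra κ K] [Algebra κ L]
    [Algebra K L] (S : Set (Place κ K)) (d : ℕ) {N : ℕ} (h : L) (x : Fin N → L) : ℕ :=
  Set.ncard {w : Place κ L | (∀ v ∈ S, ¬ (w.1.comap (algebraMap K L)).IsEquiv v.1) ∧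
    w.1 h ≠ vmax w.1 x ^ d}

theorem ncard_le_truncNe {κ K L : Type*} [Field κ] [IsAlgClosed κ] [CharZero κ] [Field K]
    [CharZero K] [Algebra κ K] (hK : IsFF κ K) [Field L] [CharZero L] [Algebra K L]
    [FiniteDimensional K L] [Algebra κ L] [IsScalarTower κ K L] {S : Set (Place κ K)}
    (hS : S.Finite) {N : ℕ} {x : Fin N → L} (hx : x ≠ 0) {H : L} (hH : H ≠ 0) (d : ℕ) :
    {w : Place κ L | w.1 H ≠ vmax w.1 x ^ d}.ncard ≤
      truncNe S d H x + S.ncard * Module.finrank K L := by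
  classical
  have hL : IsFF κ L := hK.of_finite
  obtain ⟨hover, hcard⟩ := ncard_over_le (K := K) hL hS
  have hsub : {w : Place κ L | w.1 H ≠ vmax w.1 x ^ d} ⊆
      {w : Place κ L | (∀ v ∈ S, ¬ (w.1.comap (algebraMap K L)).IsEquiv v.1) ∧
        w.1 H ≠ vmax w.1 x ^ d} ∪ {w : Place κ L | below K w ∈ S} := by
    intro w hw
    by_cases h1 : below K w ∈ S
    · exact Or.inr h1
    · refine Or.inl ⟨fun v hv h => h1 ?_, hw⟩
      rw [(below_equiv w v).1 h]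
      exact hv
  have hf : {w : Place κ L | (∀ v ∈ S, ¬ (w.1.comap (algebraMap K L)).IsEquiv v.1) ∧
      w.1 H ≠ vmax w.1 x ^ d}.Finite :=
    (finite_ne_vmax hL hx hH d).subset fun w hw => hw.2
  refine (Set.ncard_le_ncard hsub (hf.union hover)).trans ?_
  exact (Set.ncard_union_le _ _).trans (Nat.add_le_add_left hcard _)

/-- **Close indices**, uniformly in the constants. -/
theorem close_G {κ : Type u} {K : Type v} [Field κ] [IsAlgClosed κ] [CharZero κ]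
    [Field K] [CharZero K] [Algebra κ K] (hK : IsFF κ K) {k : Type x} [Field k] [CharZero k]
    [Algebra k K] (hk : Algebra.trdeg ℚ k < Cardinal.aleph0) {N q n c c' dP : ℕ}
    (hc' : c' = c ∨ c' = c + 1) {P : Fin q → MvPolynomial (Fin N) k}
    (hP : ∀ j, (P j).IsHomogeneous dP) (a : Fin q → K)
    (hgen : (q : Cardinal) ≤ Algebra.trdeg k (IntermediateField.adjoin k (Set.range a)) + c)
    {S₀ : Set (Place κ K)} (hS₀ : S₀.Finite) :
    ∃ W : ℕ, ∀ (L : Type w) [Field L] [Algebra K L] [FiniteDimensional K L] [Algebra κ L]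
      [IsScalarTower κ K L] [Algebra k L] [IsScalarTower k K L] (x : Fin N → L) (j₀ : Fin N),
      x j₀ = 1 → ∀ (e dH : ℕ) (G : L), IsAlgebraic (IntermediateField.adjoin k (Set.range x)) G →
      (G + ∑ j, algebraMap K L (a j) * aeval x (P j) ^ e = 0 ∨ c' = c + 1) → ∀ r ≤ n,
      (∀ (p : ℕ) (j : Fin p → Fin N), AlgebraicIndependent k (fun i => x (j i)) → p ≤ r) →
      ∀ S : Finset (Fin q), S.card = r + c' + 1 → (∀ j ∈ S, aeval x (P j) ≠ 0) →
      ∃ i ∈ S, ∃ j ∈ S, i ≠ j ∧ (e : ℤ) * height κ ![aeval x (P i), aeval x (P j)] ≤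
        (((n + 1) * (1 + tri (n + c') * (n + c' + 1)) +
          tri (n + c') * (n + c' + 1) * dP : ℕ) : ℤ) * height κ x +
        ((1 + tri (n + c') * (n + c' + 1) + tri (n + c') : ℕ) : ℤ) *
          (truncNe S₀ dH (G + ∑ j, algebraMap K L (a j) * aeval x (P j) ^ e) x +
            ramDeg κ L K) + W * Module.finrank K L := by
  classical
  have hcore := fun r : ℕ => close_rk_coreG.{u, v, w, x} hK (k := k) hk (c := c) r hP a hgen
  choose W hW using hcore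
  refine ⟨∑ r ∈ Finset.range (n + 1), W r +
    (1 + tri (n + c') * (n + c' + 1) + tri (n + c')) * S₀.ncard, ?_⟩
  intro L _ _ _ _ _ _ _ x j₀ hx e dH G hG hH r hr hrk S hS hSz
  have hLc : CharZero L := charZero_of_injective_algebraMap (algebraMap K L).injective
  have hL : IsFF κ L := hK.of_finite
  have hx0 : x ≠ 0 := by
    intro h0
    rw [h0] at hx
    exact zero_ne_one hx
  obtain ⟨hW1, hW2⟩ := hW r L x j₀ hx hrk e G hG
  obtain ⟨H, hHd⟩ : ∃ H : L, H = G + ∑ j, algebraMap K L (a j) * aeval x (P j) ^ e := ⟨_, rfl⟩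
  rw [← hHd] at hH hW1 hW2 ⊢
  have hh : 0 ≤ height κ x := hL.height_nonneg hx0
  have hF : (0 : ℤ) ≤ Module.finrank K L := Int.natCast_nonneg _
  have hR : (0 : ℤ) ≤ ramDeg κ L K := Int.natCast_nonneg _
  have hM : (0 : ℤ) ≤ truncNe S₀ dH H x := Int.natCast_nonneg _
  have hWr : (W r : ℤ) ≤ (∑ r ∈ Finset.range (n + 1), W r : ℕ) := by
    exact_mod_cast Finset.single_le_sum (f := W) (fun _ _ => Nat.zero_le _)
      (Finset.mem_range.2 (by omega : r < n + 1))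
  obtain ⟨T, hT⟩ : ∃ T : ℕ, T = 1 + tri (n + c') * (n + c' + 1) + tri (n + c') := ⟨_, rfl⟩
  rw [← hT]
  have hT0 : (0 : ℤ) ≤ T := Int.natCast_nonneg _
  by_cases hH0 : H = 0
  · obtain ⟨S', hS', hSc'⟩ := Finset.exists_subset_card_eq (by omega : r + c + 1 ≤ S.card)
    obtain ⟨i, hi, j, hj, hij, hle⟩ := hW1 hH0 (r + c) rfl S' hSc' fun j hj => hSz j (hS' hj)
    refine ⟨i, hS' hi, j, hS' hj, hij, hle.trans ?_⟩
    obtain ⟨h1, h2, -⟩ := const_mono₂ (dP := dP) hr (by omega : r + c ≤ n + c')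
    rw [← hT] at h2
    refine add_le_add (add_le_add (mul_le_mul_of_nonneg_right (by exact_mod_cast h1) hh) ?_) ?_
    · calc _ ≤ (T : ℤ) * ramDeg κ L K :=
          mul_le_mul_of_nonneg_right (by exact_mod_cast h2) hR
        _ ≤ _ := mul_le_mul_of_nonneg_left (by linarith) hT0
    · refine mul_le_mul_of_nonneg_right ?_ hF
      have h3 : (0 : ℤ) ≤ (T : ℤ) * S₀.ncard := mul_nonneg hT0 (Int.natCast_nonneg _)
      push_cast at hWr ⊢
      linarith
  · obtain rfl : c' = c + 1 := by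
      rcases hH with h | h
      · exact absurd h hH0
      · exact h
    obtain ⟨i, hi, j, hj, hij, hle⟩ := hW2 hH0 (r + c + 1) dH rfl S (by omega) hSz
    refine ⟨i, hi, j, hj, hij, hle.trans ?_⟩
    have h7 : (({w : Place κ L | w.1 H ≠ vmax w.1 x ^ dH}.ncard : ℕ) : ℤ) ≤
        truncNe S₀ dH H x + S₀.ncard * Module.finrank K L := by
      exact_mod_cast ncard_le_truncNe hK hS₀ hx0 hH0 dH
    obtain ⟨h1, h2, h3⟩ := const_mono₂ (dP := dP) hr (by omega : r + c + 1 ≤ n + (c + 1))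
    rw [← hT] at h2 h3
    obtain ⟨Y, hY⟩ : ∃ Y : ℤ, Y = (({w : Place κ L | w.1 H ≠ vmax w.1 x ^ dH}.ncard : ℕ) : ℤ) :=
      ⟨_, rfl⟩
    rw [← hY] at h7 ⊢
    have hY0 : 0 ≤ Y := by
      rw [hY]
      exact Int.natCast_nonneg _
    obtain ⟨M, hMd⟩ : ∃ M : ℤ, M = truncNe S₀ dH H x := ⟨_, rfl⟩
    rw [← hMd] at h7 hM ⊢
    obtain ⟨F, hFd⟩ : ∃ F : ℤ, F = (Module.finrank K L : ℤ) := ⟨_, rfl⟩
    rw [← hFd] at h7 hF ⊢
    obtain ⟨R, hRd⟩ : ∃ R : ℤ, R = (ramDeg κ L K : ℤ) := ⟨_, rfl⟩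
    rw [← hRd] at hR ⊢
    have e1 := mul_le_mul_of_nonneg_right (a := height κ x)
      (by exact_mod_cast h1 : (((r + 1) * (1 + tri (r + c + 1) * (r + c + 1 + 1)) +
        tri (r + c + 1) * (r + c + 1 + 1) * dP : ℕ) : ℤ) ≤
        (((n + 1) * (1 + tri (n + (c + 1)) * (n + (c + 1) + 1)) +
          tri (n + (c + 1)) * (n + (c + 1) + 1) * dP : ℕ) : ℤ)) hh
    have e2 := mul_le_mul_of_nonneg_right (a := Y)
      (by exact_mod_cast h3 : ((1 + tri (r + c + 1) * (r + c + 1 + 1) : ℕ) : ℤ) ≤ T) hY0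
    have e3 := mul_le_mul_of_nonneg_right (a := R)
      (by exact_mod_cast h2 : ((1 + tri (r + c + 1) * (r + c + 1 + 1) + tri (r + c + 1) : ℕ) : ℤ) ≤
        T) hR
    have e4 := mul_le_mul_of_nonneg_left h7 hT0
    have e5 := mul_le_mul_of_nonneg_right hWr hF
    have e6 : (((∑ r ∈ Finset.range (n + 1), W r + T * S₀.ncard : ℕ) : ℤ)) * F =
        ((∑ r ∈ Finset.range (n + 1), W r : ℕ) : ℤ) * F + T * (S₀.ncard * F) := by
      push_cast
      ring
    rw [e6]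
    linarith

/-- **Partners**, uniformly in the constants. -/
theorem partner_G {κ : Type u} {K : Type v} [Field κ] [IsAlgClosed κ] [CharZero κ]
    [Field K] [CharZero K] [Algebra κ K] (hK : IsFF κ K) {k : Type x} [Field k] [CharZero k]
    [Algebra k K] (hk : Algebra.trdeg ℚ k < Cardinal.aleph0) {N q n c c' dP ν : ℕ}
    (hc' : c' = c ∨ c' = c + 1) (hq : q = ν + 1) {P : Fin q → MvPolynomial (Fin N) k}
    (hP : ∀ j, (P j).IsHomogeneous dP) (a : Fin q → K)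
    (hgen : ∀ S : Finset (Fin q), S.card ≤ n + c' + 1 → (S.card : Cardinal) ≤
      Algebra.trdeg k (IntermediateField.adjoin k (a '' (S : Set (Fin q)))) + c)
    {S₀ : Set (Place κ K)} (hS₀ : S₀.Finite) :
    ∃ W : ℕ, ∀ (L : Type w) [Field L] [Algebra K L] [FiniteDimensional K L] [Algebra κ L]
      [IsScalarTower κ K L] [Algebra k L] [IsScalarTower k K L] (x : Fin N → L) (j₀ : Fin N),
      x j₀ = 1 → ∀ (e dH : ℕ), 1 ≤ e → ∀ (G : L),
      IsAlgebraic (IntermediateField.adjoin k (Set.range x)) G →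
      (G + ∑ j, algebraMap K L (a j) * aeval x (P j) ^ e = 0 ∨ c' = c + 1) → ∀ r ≤ n,
      (∀ (p : ℕ) (j : Fin p → Fin N), AlgebraicIndependent k (fun i => x (j i)) → p ≤ r) →
      ∃ M : Finset (Fin q), M.card ≤ r + c' ∧ ∀ i₀ ∉ M, aeval x (P i₀) ≠ 0 →
      ∃ j ∉ M, i₀ ≠ j ∧ aeval x (P j) ≠ 0 ∧
        (e : ℤ) * height κ ![aeval x (P i₀), aeval x (P j)] ≤
        (((n + 1) * (1 + tri ν * (ν + 1)) + tri ν * (ν + 1) * dP : ℕ) : ℤ) * height κ x +
        ((1 + tri ν * (ν + 1) + tri ν : ℕ) : ℤ) *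
          (truncNe S₀ dH (G + ∑ j, algebraMap K L (a j) * aeval x (P j) ^ e) x +
            ramDeg κ L K) + W * Module.finrank K L := by
  classical
  obtain ⟨W, hW⟩ := partner_rk_coreG.{u, v, w, x} hK (k := k) hk hq n hP a
  refine ⟨W + (1 + tri ν * (ν + 1) + tri ν) * S₀.ncard, ?_⟩
  intro L _ _ _ _ _ _ _ x j₀ hx e dH he G hG hH r hr hrk
  have hLc : CharZero L := charZero_of_injective_algebraMap (algebraMap K L).injective
  have hL : IsFF κ L := hK.of_finite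
  have hx0 : x ≠ 0 := by
    intro h0
    rw [h0] at hx
    exact zero_ne_one hx
  obtain ⟨hW1, hW2⟩ := hW L x j₀ hx r hr hrk e he G hG
  obtain ⟨H, hHd⟩ : ∃ H : L, H = G + ∑ j, algebraMap K L (a j) * aeval x (P j) ^ e := ⟨_, rfl⟩
  rw [← hHd] at hH hW1 hW2 ⊢
  have hh : 0 ≤ height κ x := hL.height_nonneg hx0
  have hF : (0 : ℤ) ≤ Module.finrank K L := Int.natCast_nonneg _
  have hR : (0 : ℤ) ≤ ramDeg κ L K := Int.natCast_nonneg _
  have hM : (0 : ℤ) ≤ truncNe S₀ dH H x := Int.natCast_nonneg _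
  obtain ⟨T, hT⟩ : ∃ T : ℕ, T = 1 + tri ν * (ν + 1) + tri ν := ⟨_, rfl⟩
  rw [← hT]
  have hT0 : (0 : ℤ) ≤ T := Int.natCast_nonneg _
  have h2 : 1 + tri ν * (ν + 1) + tri ν ≤ T := hT.ge
  obtain ⟨h1, -, h3⟩ := const_mono₂ (dP := dP) hr (le_refl ν)
  rw [← hT] at h3
  by_cases hH0 : H = 0
  · obtain ⟨M, hM', hpart⟩ := hW1 hH0 (r + c + 1) fun S hS => le_of_add_le (c := c) (by
      rw [show r + 1 + c = S.card by omega]
      exact hgen S (by omega))
    refine ⟨M, by omega, fun i₀ hi₀ hui₀ => ?_⟩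
    obtain ⟨j, hj, hij, huj, hle⟩ := hpart i₀ hi₀ hui₀
    refine ⟨j, hj, hij, huj, hle.trans ?_⟩
    refine add_le_add (add_le_add (mul_le_mul_of_nonneg_right (by exact_mod_cast h1) hh) ?_) ?_
    · calc _ ≤ (T : ℤ) * ramDeg κ L K :=
          mul_le_mul_of_nonneg_right (by exact_mod_cast h2) hR
        _ ≤ _ := mul_le_mul_of_nonneg_left (by linarith) hT0
    · refine mul_le_mul_of_nonneg_right ?_ hF
      have h3 : (0 : ℤ) ≤ (T : ℤ) * S₀.ncard := mul_nonneg hT0 (Int.natCast_nonneg _)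
      push_cast
      linarith
  · obtain rfl : c' = c + 1 := by
      rcases hH with h | h
      · exact absurd h hH0
      · exact h
    obtain ⟨M, hM', hpart⟩ := hW2 hH0 (r + c + 2) dH fun S hS => le_of_add_le (c := c) (by
      rw [show r + 2 + c = S.card by omega]
      exact hgen S (by omega))
    refine ⟨M, by omega, fun i₀ hi₀ hui₀ => ?_⟩
    obtain ⟨j, hj, hij, huj, hle⟩ := hpart i₀ hi₀ hui₀
    refine ⟨j, hj, hij, huj, hle.trans ?_⟩
    have h7 : (({w : Place κ L | w.1 H ≠ vmax w.1 x ^ dH}.ncard : ℕ) : ℤ) ≤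
        truncNe S₀ dH H x + S₀.ncard * Module.finrank K L := by
      exact_mod_cast ncard_le_truncNe hK hS₀ hx0 hH0 dH
    obtain ⟨Y, hY⟩ : ∃ Y : ℤ, Y = (({w : Place κ L | w.1 H ≠ vmax w.1 x ^ dH}.ncard : ℕ) : ℤ) :=
      ⟨_, rfl⟩
    rw [← hY] at h7 ⊢
    have hY0 : 0 ≤ Y := by
      rw [hY]
      exact Int.natCast_nonneg _
    obtain ⟨M, hMd⟩ : ∃ M : ℤ, M = truncNe S₀ dH H x := ⟨_, rfl⟩
    rw [← hMd] at h7 hM ⊢
    obtain ⟨F, hFd⟩ : ∃ F : ℤ, F = (Module.finrank K L : ℤ) := ⟨_, rfl⟩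
    rw [← hFd] at h7 hF ⊢
    obtain ⟨R, hRd⟩ : ∃ R : ℤ, R = (ramDeg κ L K : ℤ) := ⟨_, rfl⟩
    rw [← hRd] at hR ⊢
    have e1 := mul_le_mul_of_nonneg_right (a := height κ x)
      (by exact_mod_cast h1 : (((r + 1) * (1 + tri ν * (ν + 1)) +
        tri ν * (ν + 1) * dP : ℕ) : ℤ) ≤
        (((n + 1) * (1 + tri ν * (ν + 1)) + tri ν * (ν + 1) * dP : ℕ) : ℤ)) hh
    have e2 := mul_le_mul_of_nonneg_right (a := Y)
      (by exact_mod_cast h3 : ((1 + tri ν * (ν + 1) : ℕ) : ℤ) ≤ T) hY0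
    have e3 := mul_le_mul_of_nonneg_right (a := R)
      (by exact_mod_cast h2 : ((1 + tri ν * (ν + 1) + tri ν : ℕ) : ℤ) ≤ T) hR
    have e4 := mul_le_mul_of_nonneg_left h7 hT0
    have e6 : (((W + T * S₀.ncard : ℕ) : ℤ)) * F = (W : ℤ) * F + T * (S₀.ncard * F) := by
      push_cast
      ring
    rw [e6]
    linarith

end Pool.Agent.Lib.MP_44a246_ntFG
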