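import Mathlib
import Pool.Agent.Lib.MP_44a246_ntFG.FG33
import Pool.Agent.Lib.MP_44a246_ntFG.FG42

/-!
The height inequality for general linear combinations of forms without common zero, with few
parameters, uniformly in the form of the constants.
-/

namespace Pool.Agent.Lib.MP_44a246_ntFG

open Pool.Agent.Lib.MP_44a246_nt
open Pool.Agent.Lib.MP_44a246_ntL
open Pool.Agent.Lib.MP_44a246_ntX
open Pool.Agent.Lib.MP_44a246_ntMS
open Pool.Agent.Lib.MP_44a246_ntFP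
open WithZero MvPolynomial

universe u v w x

/-- **The height inequality**, few classes. -/
theorem few_lin_G {k : Type x} [Field k] [CharZero k]
    (htk : Algebra.trdeg ℚ k < Cardinal.aleph0) {N m q r n c c' δ θ : ℕ} (hr : 1 ≤ r)
    (hδ : 1 ≤ δ) (hc' : c' = c ∨ c' = c + 1)
    {g : Fin m → MvPolynomial (Fin (N + 1)) k} {dg : Fin m → ℕ}
    (hg : ∀ i, (g i).IsHomogeneous (dg i))
    (hdim : ringKrullDim (MvPolynomial (Fin (N + 1)) k ⧸ Ideal.span (Set.range g)) ≤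
      ((n + 1 : ℕ) : WithBot ℕ∞)) {Z : Fin (r + 1) → MvPolynomial (Fin (N + 1)) k}
    (hZ : ∀ l, (Z l).IsHomogeneous δ)
    (hZ0 : ∀ y : Fin (N + 1) → AlgebraicClosure k, (∀ i, aeval y (g i) = 0) →
      (∀ l, aeval y (Z l) = 0) → y = 0)
    {Φ : MvPolynomial (Fin q × Fin (r + 1)) ℚ} (hΦ : DataOK.{w} q r c' Φ)
    {A : Fin q → Fin (r + 1) → k}
    (hA : aeval (fun p : Fin q × Fin (r + 1) => A p.1 p.2) Φ ≠ 0)
    {κ : Type u} {K : Type v} [Field κ] [IsAlgClosed κ] [CharZero κ] [Field K] [CharZero K]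
    [Algebra κ K] (hK : IsFF κ K) [Algebra k K] {e : ℕ}
    (he : r * (n + c' + 1) ^ 3 * (n + θ + 2) ≤ e) (a : Fin q → K)
    (hgen : (q : Cardinal) ≤ Algebra.trdeg k (IntermediateField.adjoin k (Set.range a)) + c)
    {S₀ : Set (Place κ K)} (hS₀ : S₀.Finite) :
    ∃ C : ℕ, ∀ (L : Type w) [Field L] [Algebra K L] [FiniteDimensional K L] [Algebra κ L]
      [IsScalarTower κ K L] [Algebra k L] [IsScalarTower k K L] (x : Fin (N + 1) → L)
      (j₀ : Fin (N + 1)), x j₀ = 1 → (∀ i, aeval x (g i) = 0) → ∀ (dH : ℕ) (G : L),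
      IsAlgebraic (IntermediateField.adjoin k (Set.range x)) G →
      (G + ∑ j, algebraMap K L (a j) * aeval x (linP Z A j) ^ e = 0 ∨ c' = c + 1) →
      (θ : ℤ) * height κ x ≤
        truncNe S₀ dH (G + ∑ j, algebraMap K L (a j) * aeval x (linP Z A j) ^ e) x +
        ramDeg κ L K + C * Module.finrank K L := by
  classical
  obtain ⟨W, hW⟩ := close_G.{u, v, w, x} hK htk (n := n) hc' (P := linP Z A) (linP_hom hZ A) a
    hgen hS₀
  obtain ⟨C₂, hC₂⟩ := lin_height.{u, v, w, x} hg hZ hZ0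
    (fun E _ _ => algOK.{w, x} k N m r δ g dg hg Z hδ hZ hZ0 E) hΦ hA hK
  refine ⟨W + e * δ * C₂, ?_⟩
  intro L _ _ _ _ _ _ _ x j₀ hx1 hxg dH G hG hH
  have hL : IsFF κ L := hK.of_finite
  have hx0 : x ≠ 0 := by
    intro h0
    rw [h0] at hx1
    exact zero_ne_one hx1
  obtain ⟨w, T, hwn, hT, hmax⟩ := exists_rank (rank_le_dim hg hdim hx1 hxg)
  have hh : 0 ≤ height κ x := hL.height_nonneg hx0
  have hF : (0 : ℤ) ≤ Module.finrank K L := Int.natCast_nonneg _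
  obtain ⟨M, hM⟩ : ∃ M : ℤ, M =
    truncNe S₀ dH (G + ∑ j, algebraMap K L (a j) * aeval x (linP Z A j) ^ e) x := ⟨_, rfl⟩
  have hM0 : 0 ≤ M := by
    rw [hM]
    exact Int.natCast_nonneg _
  rw [← hM]
  have h1 := hC₂ L x j₀ hx1 hxg w T hT e ((((n + 1) * (1 + tri (n + c') * (n + c' + 1)) +
            tri (n + c') * (n + c' + 1) * δ : ℕ) : ℤ) * height κ x +
          ((1 + tri (n + c') * (n + c' + 1) + tri (n + c') : ℕ) : ℤ) * (M + ramDeg κ L K) +
          W * Module.finrank K L) (by positivity) (fun S hS hSx => by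
      obtain ⟨i, hi, j, hj, hij, hle⟩ := hW L x j₀ hx1 e dH G hG hH w hwn hmax S hS hSx
      refine ⟨i, hi, j, hj, hij, hle.trans (le_of_eq ?_)⟩
      rw [hM])
  have h2 := final_arith_gp (θ := θ) (n := n) (ν := n + c') hr hδ he hh
    (Int.natCast_nonneg W) hF (Int.natCast_nonneg C₂) h1
  push_cast at h2 ⊢
  exact h2

/-- **The height inequality**, few independent parameters. -/
theorem few_part_G {k : Type x} [Field k] [CharZero k]
    (htk : Algebra.trdeg ℚ k < Cardinal.aleph0) {N m q r n c c' δ θ : ℕ} (hr : 1 ≤ r)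
    (hδ : 1 ≤ δ) (hc' : c' = c ∨ c' = c + 1) (hrq : 4 * r + c' ≤ q + 1)
    {g : Fin m → MvPolynomial (Fin (N + 1)) k} {dg : Fin m → ℕ}
    (hg : ∀ i, (g i).IsHomogeneous (dg i))
    (hdim : ringKrullDim (MvPolynomial (Fin (N + 1)) k ⧸ Ideal.span (Set.range g)) ≤
      ((n + 1 : ℕ) : WithBot ℕ∞)) {Z : Fin (r + 1) → MvPolynomial (Fin (N + 1)) k}
    (hZ : ∀ l, (Z l).IsHomogeneous δ)
    (hZ0 : ∀ y : Fin (N + 1) → AlgebraicClosure k, (∀ i, aeval y (g i) = 0) →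
      (∀ l, aeval y (Z l) = 0) → y = 0)
    {Φ : MvPolynomial (Fin q × Fin (r + 1)) ℚ} (hΦ : DataSub.{w} q r Φ)
    {A : Fin q → Fin (r + 1) → k}
    (hA : aeval (fun p : Fin q × Fin (r + 1) => A p.1 p.2) Φ ≠ 0)
    {κ : Type u} {K : Type v} [Field κ] [IsAlgClosed κ] [CharZero κ] [Field K] [CharZero K]
    [Algebra κ K] (hK : IsFF κ K) [Algebra k K] {e : ℕ}
    (he : r * q ^ 3 * (n + θ + 2) ≤ e) (a : Fin q → K)
    (hgen : ∀ S : Finset (Fin q), S.card ≤ n + c' + 1 → (S.card : Cardinal) ≤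
      Algebra.trdeg k (IntermediateField.adjoin k (a '' (S : Set (Fin q)))) + c)
    {S₀ : Set (Place κ K)} (hS₀ : S₀.Finite) :
    ∃ C : ℕ, ∀ (L : Type w) [Field L] [Algebra K L] [FiniteDimensional K L] [Algebra κ L]
      [IsScalarTower κ K L] [Algebra k L] [IsScalarTower k K L] (x : Fin (N + 1) → L)
      (j₀ : Fin (N + 1)), x j₀ = 1 → (∀ i, aeval x (g i) = 0) → ∀ (dH : ℕ) (G : L),
      IsAlgebraic (IntermediateField.adjoin k (Set.range x)) G →
      (G + ∑ j, algebraMap K L (a j) * aeval x (linP Z A j) ^ e = 0 ∨ c' = c + 1) →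
      (θ : ℤ) * height κ x ≤
        truncNe S₀ dH (G + ∑ j, algebraMap K L (a j) * aeval x (linP Z A j) ^ e) x +
        ramDeg κ L K + C * Module.finrank K L := by
  classical
  obtain ⟨ν, hν⟩ : ∃ ν, q = ν + 1 := ⟨q - 1, by omega⟩
  have he1 : 1 ≤ e := by
    refine le_trans ?_ he
    have h1 : 1 ≤ q ^ 3 := Nat.one_le_pow _ _ (by omega)
    exact Nat.mul_pos (Nat.mul_pos hr h1) (by omega)
  obtain ⟨W, hW⟩ := partner_G.{u, v, w, x} hK htk (n := n) hc' hν (P := linP Z A)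
    (linP_hom hZ A) a hgen hS₀
  obtain ⟨C₂, hC₂⟩ := lin_height_centres.{u, v, w, x} hg hZ hZ0
    (fun E _ _ => algOK.{w, x} k N m r δ g dg hg Z hδ hZ hZ0 E) hΦ hA hK
  refine ⟨W + e * δ * C₂, ?_⟩
  intro L _ _ _ _ _ _ _ x j₀ hx1 hxg dH G hG hH
  have hL : IsFF κ L := hK.of_finite
  have hx0 : x ≠ 0 := by
    intro h0
    rw [h0] at hx1
    exact zero_ne_one hx1
  obtain ⟨w, T, hwn, hT, hmax⟩ := exists_rank (rank_le_dim hg hdim hx1 hxg)
  have hh : 0 ≤ height κ x := hL.height_nonneg hx0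
  have hF : (0 : ℤ) ≤ Module.finrank K L := Int.natCast_nonneg _
  obtain ⟨M, hM⟩ : ∃ M : ℤ, M =
    truncNe S₀ dH (G + ∑ j, algebraMap K L (a j) * aeval x (linP Z A j) ^ e) x := ⟨_, rfl⟩
  have hM0 : 0 ≤ M := by
    rw [hM]
    exact Int.natCast_nonneg _
  obtain ⟨E₁, hE₁⟩ : ∃ E₁ : ℤ, E₁ = (((n + 1) * (1 + tri ν * (ν + 1)) +
      tri ν * (ν + 1) * δ : ℕ) : ℤ) * height κ x +
    ((1 + tri ν * (ν + 1) + tri ν : ℕ) : ℤ) * (M + ramDeg κ L K) +
    W * Module.finrank K L := ⟨_, rfl⟩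
  have hE₁0 : 0 ≤ E₁ := by
    rw [hE₁]
    positivity
  obtain ⟨Mx, hMx, hpart⟩ := hW L x j₀ hx1 e dH he1 G hG hH w hwn hmax
  rw [← hM] at hpart ⊢
  rw [← hE₁] at hpart
  obtain ⟨J, hJ⟩ : ∃ J : Finset (Fin q), J = Finset.univ.filter fun j =>
    j ∉ Mx ∧ aeval x (linP Z A j) ≠ 0 := ⟨_, rfl⟩
  have hmemJ : ∀ j, j ∈ J ↔ j ∉ Mx ∧ aeval x (linP Z A j) ≠ 0 := by
    intro j
    rw [hJ]
    simp
  have hJc : J.card + Mx.card ≤ q := by
    have h1 : J ⊆ Mxᶜ := fun j hj => Finset.mem_compl.2 ((hmemJ j).1 hj).1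
    have h2 := Finset.card_le_card h1
    rw [Finset.card_compl, Fintype.card_fin] at h2
    have h3 := Finset.card_le_univ Mx
    rw [Fintype.card_fin] at h3
    omega
  obtain ⟨I, s, hIc, hIJ, hs⟩ := exists_centres J
    (fun i j => (e : ℤ) * height κ ![aeval x (linP Z A i), aeval x (linP Z A j)] ≤ E₁)
    (fun i j h1 => by
      rw [height_pair_comm]
      exact h1) (fun j hj => by
      obtain ⟨i, hi, hij, hui, hle⟩ := hpart j ((hmemJ j).1 hj).1 ((hmemJ j).1 hj).2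
      refine ⟨i, (hmemJ i).2 ⟨hi, hui⟩, fun h => hij h.symm, ?_⟩
      rw [height_pair_comm]
      exact hle)
  have h1 := hC₂ L x j₀ hx1 hxg w T hT e E₁ hE₁0 Mx I s (by omega)
    (fun i hi => (hmemJ i).1 (hIJ hi)) (fun j hjM hju => by
      obtain ⟨h2, h3⟩ := hs j ((hmemJ j).2 ⟨hjM, hju⟩)
      refine ⟨h2, ?_⟩
      rcases h3 with h3 | h3
      · rw [h3, height_pair_self hL hju, mul_zero]
        exact hE₁0
      · exact h3)
  rw [hE₁] at h1
  have h2 := final_arith_gp (θ := θ) (n := n) (ν := ν) hr hδ (by rw [← hν]; exact he) hh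
    (Int.natCast_nonneg W) hF (Int.natCast_nonneg C₂) h1
  push_cast at h2 ⊢
  exact h2

/-- **The height inequality with few parameters**, uniformly in the form of the constants. -/
theorem few_final₆ (q r : ℕ) :
    ∃ Φ : MvPolynomial (Fin q × Fin (r + 1)) ℚ, Φ ≠ 0 ∧
    ∀ {k : Type x} [Field k] [CharZero k], Algebra.trdeg ℚ k < Cardinal.aleph0 →
      ∀ {N m n c ν δ θ s : ℕ}, 1 ≤ r → 1 ≤ δ → (ν = n + c ∨ ν = n + c + 1) →
      ∀ {g : Fin m → MvPolynomial (Fin (N + 1)) k} {dg : Fin m → ℕ},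
      (∀ i, (g i).IsHomogeneous (dg i)) →
      ringKrullDim (MvPolynomial (Fin (N + 1)) k ⧸ Ideal.span (Set.range g)) ≤
        ((n + 1 : ℕ) : WithBot ℕ∞) →
      ∀ {Z : Fin (r + 1) → MvPolynomial (Fin (N + 1)) k}, (∀ l, (Z l).IsHomogeneous δ) →
      (∀ y : Fin (N + 1) → AlgebraicClosure k, (∀ i, aeval y (g i) = 0) →
        (∀ l, aeval y (Z l) = 0) → y = 0) →
      ∀ {A : Fin q → Fin (r + 1) → k},
        aeval (fun p : Fin q × Fin (r + 1) => A p.1 p.2) Φ ≠ 0 →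
      ∀ {κ : Type u} {K : Type v} [Field κ] [IsAlgClosed κ] [CharZero κ] [Field K] [CharZero K]
        [Algebra κ K] (_ : IsFF κ K) [Algebra k K] {e : ℕ} (a : Fin q → K),
      IndepUpTo k a c s →
      (s = ν + 1 ∧ 4 * r + ν ≤ q + n + 1 ∧ r * q ^ 3 * (n + θ + 2) ≤ e ∨
        s = q ∧ 2 * r + ν ≤ q + n ∧ r * (ν + 1) ^ 3 * (n + θ + 2) ≤ e) →
      ∀ {S₀ : Set (Place κ K)}, S₀.Finite →
      ∃ C : ℕ, ∀ (L : Type w) [Field L] [Algebra K L] [FiniteDimensional K L] [Algebra κ L]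
        [IsScalarTower κ K L] [Algebra k L] [IsScalarTower k K L] (x : Fin (N + 1) → L),
        (∃ l, x l = 1) → (∀ i, aeval x (g i) = 0) → ∀ (dH : ℕ) (G : L),
        IsAlgebraic (IntermediateField.adjoin k (Set.range x)) G → ∀ H : L,
        H = G + ∑ j, algebraMap K L (a j) * aeval x (linP Z A j) ^ e →
        (H = 0 ∨ ν = n + c + 1) →
        (θ : ℤ) * height κ x ≤ truncNe S₀ dH H x + ramDeg κ L K + C * Module.finrank K L ∧
        (pointField K x = ⊤ → ((θ : ℤ) - 2 * ((Module.finrank K L : ℤ) - 1)) * height κ x ≤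
          truncNe S₀ dH H x + C * Module.finrank K L) := by
  classical
  obtain ⟨Φ, hΦ0, hΦ⟩ := exists_dataSub.{w} q r
  refine ⟨Φ, hΦ0, ?_⟩
  intro k _ _ htk N m n c ν δ θ s hr hδ hν g dg hg hdim Z hZ hZ0 A hA κ K _ _ _ _ _ _ hK _ e a
    hgen hcase S₀ hS₀
  obtain ⟨c', hc'⟩ : ∃ c', ν = n + c' := ⟨ν - n, by omega⟩
  subst hc'
  have hkey : ∃ C : ℕ, ∀ (L : Type w) [Field L] [Algebra K L] [FiniteDimensional K L] [Algebra κ L]
      [IsScalarTower κ K L] [Algebra k L] [IsScalarTower k K L] (x : Fin (N + 1) → L)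
      (j₀ : Fin (N + 1)), x j₀ = 1 → (∀ i, aeval x (g i) = 0) → ∀ (dH : ℕ) (G : L),
      IsAlgebraic (IntermediateField.adjoin k (Set.range x)) G →
      (G + ∑ j, algebraMap K L (a j) * aeval x (linP Z A j) ^ e = 0 ∨ c' = c + 1) →
      (θ : ℤ) * height κ x ≤
        truncNe S₀ dH (G + ∑ j, algebraMap K L (a j) * aeval x (linP Z A j) ^ e) x +
        ramDeg κ L K + C * Module.finrank K L := by
    rcases hcase with ⟨hs, hq, he⟩ | ⟨hs, hq, he⟩
    · subst hs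
      exact few_part_G.{u, v, w, x} htk (θ := θ) (n := n) (c := c) (c' := c') hr hδ
        (by omega) (by omega) hg hdim hZ hZ0 hΦ hA hK he a hgen hS₀
    · subst hs
      exact few_lin_G.{u, v, w, x} htk (θ := θ) (n := n) (c := c) (c' := c') hr hδ
        (by omega) hg hdim hZ hZ0 (hΦ.dataOK (by omega)) hA hK he a hgen.all hS₀
  obtain ⟨C, hC⟩ := hkey
  refine ⟨C, ?_⟩
  intro L _ _ _ _ _ _ _ x hx1 hxg dH G hG H hHd hH
  obtain ⟨j₀, hj₀⟩ := hx1
  have hx0 : x ≠ 0 := by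
    intro h0
    rw [h0] at hj₀
    exact zero_ne_one hj₀
  subst hHd
  have h1 := hC L x j₀ hj₀ hxg dH G hG (by
    rcases hH with h | h
    · exact Or.inl h
    · right
      omega)
  refine ⟨h1, fun hpt => ?_⟩
  have h2 := ramDeg_point hK x hx0 hpt
  linarith

end Pool.Agent.Lib.MP_44a246_ntFG
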