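import Mathlib
import Pool.Agent.Lib.MP_e52354_ntK.KBasis

/-!
The rank of a subfamily.
-/

namespace Pool.Agent.Lib.MP_44a246_ntFG

open Pool.Agent.Lib.MP_e52354_ntK (exists_basis_family)

/-- an algebraically independent subfamily bounds the transcendence degree -/
theorem card_le_trdeg {k K : Type*} [Field k] [Field K] [Algebra k K] {ι : Type*} {a : ι → K}
    {S T : Finset ι} (hTS : T ⊆ S) (hT : AlgebraicIndependent k (fun j : T => a j)) :
    (T.card : Cardinal) ≤ Algebra.trdeg k (IntermediateField.adjoin k (a '' (S : Set ι))) := by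
  have h2 : AlgebraicIndependent k (fun i : T => (⟨a i, IntermediateField.subset_adjoin k _
      ⟨i, hTS i.2, rfl⟩⟩ : IntermediateField.adjoin k (a '' (S : Set ι)))) :=
    AlgebraicIndependent.of_comp (IntermediateField.adjoin k (a '' (S : Set ι))).val hT
  have h3 := h2.lift_cardinalMk_le_trdeg
  rw [← Cardinal.lift_le, Cardinal.lift_natCast]
  refine le_trans (le_of_eq ?_) h3
  rw [Cardinal.mk_fintype, Cardinal.lift_natCast, Fintype.card_coe]

/-- a subfamily loses at most as much -/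
theorem trdeg_sub {k K : Type*} [Field k] [Field K] [Algebra k K] {ι : Type*} {c : ℕ} {a : ι → K}
    {S S' : Finset ι} (h : S' ⊆ S) (hS : (S.card : Cardinal) ≤
      Algebra.trdeg k (IntermediateField.adjoin k (a '' (S : Set ι))) + c) :
    (S'.card : Cardinal) ≤
      Algebra.trdeg k (IntermediateField.adjoin k (a '' (S' : Set ι))) + c := by
  classical
  obtain ⟨J, hJ, -, hJc⟩ := exists_basis_family (k₀ := k) (fun j : (S : Set ι) => a j)
  have h0 : Set.range (fun j : (S : Set ι) => a j) = a '' (S : Set ι) :=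
    (Set.image_eq_range a _).symm
  rw [h0] at hJc
  rw [← hJc] at hS
  have hS' : S.card ≤ Nat.card J + c := by exact_mod_cast hS
  -- the basis as a set of indices
  obtain ⟨J₁, hJ₁⟩ : ∃ J₁ : Finset (S : Set ι), J₁ = Finset.univ.filter fun j => j ∈ J :=
    ⟨_, rfl⟩
  have hJ₁c : J₁.card = Nat.card J := by
    rw [hJ₁, Nat.card_eq_fintype_card, Fintype.card_subtype]
  obtain ⟨J₂, hJ₂⟩ : ∃ J₂ : Finset ι, J₂ = J₁.image Subtype.val := ⟨_, rfl⟩
  have hJ₂c : J₂.card = Nat.card J := by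
    rw [hJ₂, Finset.card_image_of_injective _ Subtype.val_injective, hJ₁c]
  have hJ₂S : J₂ ⊆ S := by
    intro j hj
    rw [hJ₂, Finset.mem_image] at hj
    obtain ⟨j', -, rfl⟩ := hj
    exact j'.2
  have hmem : ∀ j, j ∈ J₂ → ∃ hj : j ∈ (S : Set ι), (⟨j, hj⟩ : (S : Set ι)) ∈ J := by
    intro j hj
    rw [hJ₂, Finset.mem_image] at hj
    obtain ⟨j', hj', rfl⟩ := hj
    rw [hJ₁, Finset.mem_filter] at hj'
    exact ⟨j'.2, hj'.2⟩
  obtain ⟨T, hT⟩ : ∃ T : Finset ι, T = J₂ ∩ S' := ⟨_, rfl⟩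
  have hTind : AlgebraicIndependent k (fun j : T => a j) := by
    have hTJ : T ⊆ J₂ := by
      rw [hT]
      exact Finset.inter_subset_left
    have h1 : ∀ j : T, ∃ hj : (j : ι) ∈ (S : Set ι), (⟨j, hj⟩ : (S : Set ι)) ∈ J := fun j =>
      hmem _ (hTJ j.2)
    refine hJ.comp (fun j : T => (⟨⟨j, (h1 j).choose⟩, (h1 j).choose_spec⟩ : J))
      fun j j' hjj' => ?_
    have h2 := congrArg (fun z : J => ((z : (S : Set ι)) : ι)) hjj'
    exact Subtype.ext h2
  have hTc : S'.card ≤ T.card + c := by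
    have h1 : (S ∩ S').card = S'.card := by rw [Finset.inter_eq_right.2 h]
    have h2 : S' ⊆ T ∪ (S \ J₂) := by
      intro j hj
      rw [Finset.mem_union, hT, Finset.mem_inter, Finset.mem_sdiff]
      by_cases hj2 : j ∈ J₂
      · exact Or.inl ⟨hj2, hj⟩
      · exact Or.inr ⟨h hj, hj2⟩
    have h3 := (Finset.card_le_card h2).trans (Finset.card_union_le _ _)
    rw [Finset.card_sdiff_of_subset hJ₂S, hJ₂c] at h3
    omega
  have h4 := card_le_trdeg (k := k) (a := a) (S := S') (T := T)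
    (by rw [hT]; exact Finset.inter_subset_right) hTind
  calc (S'.card : Cardinal) ≤ ((T.card + c : ℕ) : Cardinal) := by exact_mod_cast hTc
    _ = T.card + c := by push_cast; rfl
    _ ≤ _ := by gcongr

end Pool.Agent.Lib.MP_44a246_ntFG
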